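import Pool.Agent.Lib.MP_dae8ad_gt.A.Omega2

namespace Pool.Agent.AS

open Matrix

variable {m : Type} [Fintype m] [DecidableEq m] {w C : Matrix m m ℚ}

omit [DecidableEq m] in
theorem omega3_mul (R : Type) [Field R] [CharZero R] (A B : Matrix m m ℚ) (x : m → R) :
    (rq R (A * B)).mulVec x = (rq R A).mulVec ((rq R B).mulVec x) := by
  rw [mulVec_mulVec]
  congr 1
  ext i j
  simp [rq, mul_apply]

omit [DecidableEq m] in
theorem omega3_map {F Ω : Type} [Field F] [CharZero F] [Field Ω] [CharZero Ω] (ι : F →+* Ω)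
    (A : Matrix m m ℚ) (x : m → F) : (rq Ω A).mulVec (ι ∘ x) = ι ∘ (rq F A).mulVec x := by
  funext i
  simp [rq, mulVec, dotProduct]

omit [DecidableEq m] in
theorem omega3_skew (hw : wᵀ = -w) (R : Type) [Field R] [CharZero R] (x y : m → R) :
    x ⬝ᵥ (rq R w).mulVec y = -(y ⬝ᵥ (rq R w).mulVec x) := by
  have h : (rq R w)ᵀ = -rq R w := by
    ext i j
    have := congrFun (congrFun hw i) j
    simp only [transpose_apply] at this
    simp [rq, this]
  rw [dotProduct_mulVec, ← mulVec_transpose, h, neg_mulVec, neg_dotProduct, dotProduct_comm]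

theorem omega3_root {F Ω : Type} [Field F] [Field Ω] [CharZero Ω] (ι : F →+* Ω) (cj : Ω →+* Ω)
    {ν : Ω} (h1 : ∀ x, cj (ι x) = ι x) (h2 : cj ν = -ν) (h4 : ν ≠ 0) (h5 : ∀ a, cj (cj a) = a)
    (h6 : ∀ c, cj c = c → c ∈ Set.range ι)
    (hodd : ∀ P : Polynomial F, Odd P.natDegree → ∃ r : F, P.IsRoot r) (u : Ω) (hu : cj u * u = 1)
    (k : ℕ) (hk : Odd k) : ∃ u', cj u' * u' = 1 ∧ u' ^ k = u := by
  by_cases h0 : cj u = u
  · rw [h0] at hu
    rcases mul_self_eq_one_iff.1 hu with rfl | rfl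
    · exact ⟨1, by simp, one_pow k⟩
    · exact ⟨-1, by simp, hk.neg_one_pow⟩
  obtain ⟨P, hP⟩ : ∃ P : Polynomial Ω, P = Polynomial.C (ν * (1 + cj u)) *
    (Polynomial.X + Polynomial.C ν) ^ k - Polynomial.C (ν * (1 + u)) *
      (Polynomial.X + Polynomial.C (-ν)) ^ k := ⟨_, rfl⟩
  have a1 : P.map cj = P := by
    rw [hP]
    simp only [Polynomial.map_sub, Polynomial.map_mul, Polynomial.map_pow, Polynomial.map_add,
      Polynomial.map_C, Polynomial.map_X, map_mul cj, map_add cj, map_one cj, map_neg cj, h2, h5,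
      neg_neg, neg_mul]
    rw [Polynomial.C_neg (a := ν * _), Polynomial.C_neg (a := ν * _)]
    ring
  obtain ⟨Q, hQ⟩ := (Polynomial.mem_lifts P).1 ((Polynomial.lifts_iff_coeff_lifts (f := ι) P).2
    fun n => h6 _ (by rw [← Polynomial.coeff_map, a1]))
  have a2 : ∀ c : Ω, ((Polynomial.X + Polynomial.C c) ^ k).natDegree = k := fun c => by
    rw [(Polynomial.monic_X_add_C c).natDegree_pow, Polynomial.natDegree_X_add_C, mul_one]
  have a3 : ∀ c : Ω, ((Polynomial.X + Polynomial.C c) ^ k).coeff k = 1 := fun c => by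
    have := ((Polynomial.monic_X_add_C c).pow k).coeff_natDegree
    rwa [a2] at this
  have a4 : P.natDegree = k := by
    refine Polynomial.natDegree_eq_of_le_of_coeff_ne_zero ?_ ?_
    · rw [hP]
      exact (Polynomial.natDegree_sub_le _ _).trans (max_le
        ((Polynomial.natDegree_C_mul_le _ _).trans (a2 _).le)
        ((Polynomial.natDegree_C_mul_le _ _).trans (a2 _).le))
    · rw [hP, Polynomial.coeff_sub, Polynomial.coeff_C_mul, Polynomial.coeff_C_mul, a3, a3]
      exact fun h => h0 (mul_left_cancel₀ h4 (by linear_combination h))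
  obtain ⟨x, hx⟩ := hodd Q (by rwa [← Polynomial.natDegree_map ι, hQ, a4])
  have a5 := hx.map (f := ι)
  rw [hQ, hP, Polynomial.IsRoot] at a5
  simp only [Polynomial.eval_sub, Polynomial.eval_mul, Polynomial.eval_pow, Polynomial.eval_add,
    Polynomial.eval_C, Polynomial.eval_X] at a5
  have a6 : cj (ι x + ν) = ι x + -ν := by rw [map_add, h1, h2]
  have a7 : cj (ι x + -ν) = ι x + ν := by rw [← a6, h5]
  have a8 : ι x + ν ≠ 0 := fun h => h4 (by
    rw [h, map_zero] at a6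
    linear_combination (h + a6) / 2)
  have a9 : ι x + -ν ≠ 0 := fun h => a8 (by rw [← a7, h, map_zero])
  have b1 : 1 + u ≠ 0 := fun h => h0 (by rw [eq_neg_of_add_eq_zero_right h]; simp)
  refine ⟨(ι x + ν) / (ι x + -ν), ?_, ?_⟩
  · rw [map_div₀, a6, a7, div_mul_div_comm, mul_comm, div_self (mul_ne_zero a8 a9)]
  · rw [div_pow, div_eq_iff (pow_ne_zero _ a9)]
    refine mul_left_cancel₀ (mul_ne_zero h4 b1) ?_
    linear_combination u * a5 - ν * (ι x + ν) ^ k * hu

omit [DecidableEq m] in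
theorem omega3_abs (hw : wᵀ = -w) {F Ω : Type} [Field F] [CharZero F] [Field Ω] [CharZero Ω]
    {D : F} (ι : F →+* Ω) (cj : Ω →+* Ω) {ν : Ω} (h1 : ∀ x, cj (ι x) = ι x) (h2 : cj ν = -ν)
    (h3 : ν * ν = ι D) (h4 : ν ≠ 0) (h5 : ∀ z, ∃ x y, z = ι x + ν * ι y)
    (han : ∀ β : m → F, (rq F (C * C)).mulVec β = D • β → β ⬝ᵥ (rq F (w * C)).mulVec β = 0 → β = 0)
    (hβ : ∃ β : m → F, β ≠ 0 ∧ (rq F (C * C)).mulVec β = D • β)
    (hodd : ∀ P : Polynomial F, Odd P.natDegree → ∃ r : F, P.IsRoot r) : OmD w C cj ν := by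
  have a1 : ∀ x y, cj (ι x + ν * ι y) = ι x - ν * ι y := fun x y => by
    rw [map_add, map_mul, h1, h1, h2]
    ring
  have a2 : ∀ a, cj (cj a) = a := fun a => by
    obtain ⟨x, y, rfl⟩ := h5 a
    rw [a1, map_sub, map_mul, h1, h1, h2]
    ring
  have a3 : ∀ x y, ι x + ν * ι y = 0 → x = 0 ∧ y = 0 := fun x y h => by
    have b1 := a1 x y
    rw [h, map_zero] at b1
    exact ⟨(map_eq_zero ι).1 (by linear_combination (h - b1) / 2), (map_eq_zero ι).1
      (mul_left_cancel₀ h4 (by linear_combination (h + b1) / 2))⟩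
  have a4 : ∀ (A : Matrix m m ℚ) (a b : m → F), (rq Ω A).mulVec (ι ∘ a + ν • ι ∘ b) =
      ι ∘ (rq F A).mulVec a + ν • ι ∘ (rq F A).mulVec b := fun A a b => by
    rw [mulVec_add, mulVec_smul, omega3_map, omega3_map]
  refine ⟨a2, h2, h4, ?_, fun ξ b1 b2 => ?_, omega3_root ι cj h1 h2 h4 a2 (fun c hc => ?_) hodd⟩
  · obtain ⟨β, b1, b2⟩ := hβ
    refine ⟨ι ∘ (rq F C).mulVec β + ν • ι ∘ β, fun h => b1 (funext fun i =>
      (a3 _ _ (congrFun h i)).2), ?_⟩
    rw [a4, ← omega3_mul, b2]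
    funext i
    simp only [Pi.add_apply, Pi.smul_apply, Function.comp, smul_eq_mul, map_mul, ← h3]
    ring
  · choose a b hab using fun i => h5 (ξ i)
    obtain rfl : ξ = ι ∘ a + ν • ι ∘ b := funext hab
    rw [a4] at b1 b2
    have b3 : ∀ i, (rq F C).mulVec a i - D * b i = 0 ∧ (rq F C).mulVec b i - a i = 0 := fun i =>
      a3 _ _ (by
        have := congrFun b1 i
        simp only [Pi.add_apply, Pi.smul_apply, Function.comp, smul_eq_mul] at this
        rw [map_sub, map_sub, map_mul, ← h3]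
        linear_combination this)
    obtain rfl : a = (rq F C).mulVec b := funext fun i => (sub_eq_zero.1 (b3 i).2).symm
    have b4 : cj ∘ (ι ∘ (rq F C).mulVec b + ν • ι ∘ b) = ι ∘ (rq F C).mulVec b - ν • ι ∘ b :=
      funext fun i => a1 _ _
    rw [b4, sub_dotProduct, dotProduct_add, dotProduct_add, smul_dotProduct, smul_dotProduct,
      dotProduct_smul, dotProduct_smul] at b2
    simp only [← RingHom.map_dotProduct, smul_eq_mul] at b2
    have b5 := (a3 ((rq F C).mulVec b ⬝ᵥ (rq F w).mulVec ((rq F C).mulVec b) -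
      D * b ⬝ᵥ (rq F w).mulVec b) ((rq F C).mulVec b ⬝ᵥ (rq F w).mulVec b -
        b ⬝ᵥ (rq F w).mulVec ((rq F C).mulVec b)) (by
      rw [map_sub, map_sub, map_mul, ← h3]
      linear_combination b2)).2
    rw [omega3_skew hw] at b5
    obtain rfl : b = 0 := han b (by
      rw [omega3_mul]
      exact funext fun i => sub_eq_zero.1 (b3 i).1) (by
      rw [omega3_mul]
      linear_combination -b5 / 2)
    funext i
    simp
  · obtain ⟨x, y, rfl⟩ := h5 c
    rw [a1] at hc
    exact ⟨x, by linear_combination hc / 2⟩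

/-- `D` is not a square in `F` (else `C` has an eigenvector `β'` in `ker (C² - D)`, and
`β' ⬝ w C β' = ± r β' ⬝ w β' = 0`).  `Ω = QuadraticAlgebra F D 0`, `ν = ω`, `cj = star`.  An
eigenvector is `ξ = (C + ν) β` with `C² β = D β` and `cj ξ ⬝ w ξ = - 2 ν (β ⬝ w C β)`.  Odd roots of
`u ≠ 1, -1`: `μ = 1 + u` has `u = μ / cj μ`; the imaginary part of `(x + ν) ^ k * cj μ` is a
polynomial over `F` of degree `k`; for a root `x` take `u' = (x + ν) / (x - ν)`. -/
theorem omega3 (hw : wᵀ = -w) (hC : w * C + Cᵀ * w = 0) (F : Type) [Field F] [CharZero F] (D : F)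
    (han : ∀ β : m → F, (rq F (C * C)).mulVec β = D • β → β ⬝ᵥ (rq F (w * C)).mulVec β = 0 → β = 0)
    (hβ : ∃ β : m → F, β ≠ 0 ∧ (rq F (C * C)).mulVec β = D • β)
    (hodd : ∀ P : Polynomial F, Odd P.natDegree → ∃ r : F, P.IsRoot r) :
    ∃ (Ω : Type) (_ : Field Ω) (_ : CharZero Ω) (cj : Ω →+* Ω) (ν : Ω), OmD w C cj ν := by
  have key : ∀ (s : F) (γ : m → F), s ^ 2 = D → (rq F C).mulVec γ = s • γ → γ = 0 :=
    fun s γ h1 h2 => han γ (by rw [omega3_mul, h2, mulVec_smul, h2, smul_smul, ← h1, sq]) (by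
      have := omega3_skew hw F γ γ
      rw [omega3_mul, h2, mulVec_smul, dotProduct_smul, smul_eq_mul]
      linear_combination s * this / 2)
  have : Fact (∀ r : F, r ^ 2 ≠ D + 0 * r) := ⟨fun r hr => by
    obtain ⟨β, h1, h2⟩ := hβ
    rw [zero_mul, add_zero] at hr
    have h3 := key r ((rq F C).mulVec β + r • β) hr (by
      rw [mulVec_add, ← omega3_mul, h2, mulVec_smul, smul_add, smul_smul, ← hr, sq, add_comm])
    exact h1 (key (-r) β (by rw [neg_sq, hr]) (by rw [neg_smul, eq_neg_iff_add_eq_zero, h3]))⟩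
  have : CharZero (QuadraticAlgebra F D 0) := algebraRat.charZero _
  refine ⟨QuadraticAlgebra F D 0, inferInstance, inferInstance, starRingEnd _,
    QuadraticAlgebra.omega, omega3_abs hw (algebraMap F _) _ (fun x => ?_) ?_ ?_ (fun h => ?_)
      (fun z => ⟨z.re, z.im, ?_⟩) han hβ hodd⟩
  · ext <;> simp [starRingEnd_apply]
  · ext <;> simp [starRingEnd_apply]
  · ext <;> simp
  · simpa using congrArg QuadraticAlgebra.im h
  · ext <;> simp

/-- Combine `omega1_eig` (for `C * C`), `omega1`, `omega2`, `omega3`. -/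
theorem exOmega [Nonempty m] (hw : wᵀ = -w) (hC : w * C + Cᵀ * w = 0) (han : Aniso w C) :
    ∃ (Ω : Type) (_ : Field Ω) (_ : CharZero Ω) (cj : Ω →+* Ω) (ν : Ω), OmD w C cj ν := by
  obtain ⟨D, β, h1, h2, h3⟩ := omega1_eig (C * C)
  have hD := IntermediateField.mem_adjoin_simple_self ℚ D
  obtain ⟨F, h4, h5, h6⟩ := omega2 _ _ _ (fun i j => by
      rw [Matrix.sub_apply, Matrix.smul_apply, Matrix.one_apply]
      refine sub_mem (SubfieldClass.ratCast_mem _ _) ?_
      split_ifs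
      · rwa [smul_eq_mul, mul_one]
      · rw [smul_zero]
        exact zero_mem _) (fun i j => SubfieldClass.ratCast_mem _ _) (omega1 hw hC han D)
  have h7 : ∀ β : m → F, (rq F (C * C)).mulVec β = (⟨D, h4 hD⟩ : F) • β ↔
      (rq QB (C * C) - D • (1 : Matrix m m QB)).mulVec (algebraMap F QB ∘ β) = 0 := fun β => by
    rw [sub_mulVec, smul_mulVec, one_mulVec, omega3_map, sub_eq_zero]
    exact ⟨fun h => by rw [h]; rfl, fun h => funext fun i => Subtype.ext (congrFun h i)⟩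
  refine omega3 hw hC F ⟨D, h4 hD⟩ (fun β a1 a2 => ?_) ⟨fun i => ⟨β i, h4 (h2 i)⟩,
    fun h => h1 (funext fun i => congrArg Subtype.val (congrFun h i)), (h7 _).2 h3⟩ h6
  have a3 := h5 _ (fun i => (β i).2) ((h7 β).1 a1) (by
    refine Eq.trans ?_ ((congrArg (algebraMap F QB) a2).trans (map_zero _))
    rw [RingHom.map_dotProduct, ← omega3_map]
    rfl)
  exact funext fun i => Subtype.ext (congrFun a3 i)

end Pool.Agent.AS
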