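import Pool.Agent.Lib.MP_dae8ad_gt.A.IF

namespace Pool.Agent.AS

/-- The quotient by the torsion subgroup. -/
theorem exB (X : Type) [AddCommGroup X] [DistribMulAction G1 X] :
    ∃ (B : Type) (_ : AddCommGroup B) (_ : DistribMulAction G1 B) (mk : X →+ B),
      Function.Surjective mk ∧ (∀ (g : G1) x, mk (g • x) = g • mk x) ∧
      (∀ x, mk x = 0 ↔ ∃ n : ℤ, n ≠ 0 ∧ n • x = 0) ∧
      ∀ (n : ℤ) (b : B), n ≠ 0 → n • b = 0 → b = 0 := by
  let T := AddCommGroup.torsion X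
  have hT : ∀ x, (QuotientAddGroup.mk' T) x = 0 ↔ ∃ n : ℤ, n ≠ 0 ∧ n • x = 0 := fun x =>
    (QuotientAddGroup.eq_zero_iff x).trans isOfFinAddOrder_iff_zsmul_eq_zero
  let φ : G1 → X ⧸ T →+ X ⧸ T := fun g =>
    QuotientAddGroup.map T T (DistribSMul.toAddMonoidHom X g)
      fun x hx => (DistribSMul.toAddMonoidHom X g).isOfFinAddOrder hx
  let inst : DistribMulAction G1 (X ⧸ T) :=
    { smul := fun g b => φ g b
      one_smul := by
        rintro ⟨x⟩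
        exact congrArg (QuotientAddGroup.mk' T) (one_smul G1 x)
      mul_smul := by
        rintro g h ⟨x⟩
        exact congrArg (QuotientAddGroup.mk' T) (mul_smul g h x)
      smul_zero := fun g => (φ g).map_zero
      smul_add := fun g => (φ g).map_add }
  refine ⟨X ⧸ T, inferInstance, inst, QuotientAddGroup.mk' T, QuotientAddGroup.mk'_surjective T,
    fun _ _ => rfl, hT, fun n b hn hb => ?_⟩
  obtain ⟨x, rfl⟩ := QuotientAddGroup.mk'_surjective T b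
  rw [← map_zsmul, hT] at hb
  obtain ⟨m, hm, h⟩ := hb
  exact (hT x).2 ⟨m * n, mul_ne_zero hm hn, by rw [mul_smul, h]⟩

/-- The pure subgroup of rank one through `b0` and a functional that is injective on it (define
it on `ℤ b0` and extend, `Module.Baer.of_divisible ℚ`). -/
theorem exB0 {B : Type} [AddCommGroup B] (tf : ∀ (n : ℤ) (b : B), n ≠ 0 → n • b = 0 → b = 0)
    (b0 : B) (hb : b0 ≠ 0) :
    ∃ (B0 : AddSubgroup B) (ℓ : B →+ ℚ), ℓ b0 = 1 ∧
      (∀ b, b ∈ B0 ↔ ∃ n m : ℤ, n ≠ 0 ∧ n • b = m • b0) ∧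
      (∀ (n : ℤ) b, n ≠ 0 → n • b ∈ B0 → b ∈ B0) ∧ (∀ b ∈ B0, ℓ b = 0 → b = 0) ∧
      ((¬ ∃ x, b0 = (2 : ℤ) • x) → ∀ b ∈ B0, Odd (ℓ b).den) := by
  obtain ⟨ℓ, hℓ⟩ := (Module.Baer.of_divisible ℚ).extension_property_addMonoidHom
    (zmultiplesHom B b0) ((injective_iff_map_eq_zero _).2 fun n hn =>
      by_contra fun h => hb (tf n b0 h hn)) (Int.castAddHom ℚ)
  have h1 : ℓ b0 = 1 := by simpa using DFunLike.congr_fun hℓ 1
  let B0 : AddSubgroup B :=
    { carrier := {b | ∃ n m : ℤ, n ≠ 0 ∧ n • b = m • b0}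
      zero_mem' := ⟨1, 0, one_ne_zero, by simp⟩
      add_mem' := by
        rintro a b ⟨n, m, hn, h⟩ ⟨n', m', hn', h'⟩
        refine ⟨n * n', n' * m + n * m', mul_ne_zero hn hn', ?_⟩
        rw [smul_add, add_smul, mul_smul n' m, mul_smul n m', ← h, ← h', smul_smul, smul_smul,
          mul_comm n' n]
      neg_mem' := by
        rintro a ⟨n, m, hn, h⟩
        exact ⟨n, -m, hn, by rw [smul_neg, h, neg_smul]⟩ }
  have h2 : ∀ b ∈ B0, ℓ b = 0 → b = 0 := by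
    rintro b ⟨n, m, hn, h⟩ h0
    have h3 := congrArg ℓ h
    rw [map_zsmul, map_zsmul, h0, h1, smul_zero, zsmul_one, eq_comm, Int.cast_eq_zero] at h3
    exact tf n b hn (by rw [h, h3, zero_smul])
  refine ⟨B0, ℓ, h1, fun _ => Iff.rfl, ?_, h2, fun h b hb => ?_⟩
  · rintro n b hn ⟨n', m, hn', h⟩
    exact ⟨n' * n, m, mul_ne_zero hn' hn, by rw [mul_smul, h]⟩
  · have h3 : ((ℓ b).den : ℤ) • b = (ℓ b).num • b0 := by
      refine sub_eq_zero.1 (h2 _ (sub_mem (zsmul_mem hb _)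
        (zsmul_mem (show b0 ∈ B0 from ⟨1, 1, one_ne_zero, rfl⟩) _)) ?_)
      rw [map_sub, map_zsmul, map_zsmul, h1, zsmul_one, zsmul_eq_mul, Int.cast_natCast,
        Rat.den_mul_eq_num, sub_self]
    refine Nat.not_even_iff_odd.1 fun ⟨d, hd⟩ => h ?_
    obtain ⟨k, hk⟩ : Odd (ℓ b).num := Int.natAbs_odd.1 (Nat.coprime_two_right.1
      ((ℓ b).reduced.coprime_dvd_right ⟨d, by omega⟩))
    rw [hd, hk] at h3
    refine ⟨(d : ℤ) • b - k • b0, ?_⟩
    rw [smul_sub, smul_smul, smul_smul, two_mul (d : ℤ), ← Nat.cast_add, h3, add_smul, one_smul,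
      add_sub_cancel_left]

/-- Compatible odd roots: `r 0 = u`, `r (k + 1) ^ (2 k + 1) = r k`; with `d k` the product of the
`2 i + 1`, `i < k`, put `θ q = r k ^ (q d k)` (integer power) for any `k` with `q.den ∣ d k`. -/
theorem thetaOdd {Ω : Type} [Field Ω] (cj : Ω →+* Ω)
    (root : ∀ u, cj u * u = 1 → ∀ k : ℕ, Odd k → ∃ u', cj u' * u' = 1 ∧ u' ^ k = u)
    (u : Ω) (hu : cj u * u = 1) :
    ∃ θ : ℚ → Ω, θ 0 = 1 ∧ θ 1 = u ∧
      (∀ q q' : ℚ, Odd q.den → Odd q'.den → θ (q + q') = θ q * θ q') ∧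
      ∀ q : ℚ, Odd q.den → cj (θ q) = θ (-q) := by
  classical
  choose f hf using fun (k : ℕ) (v : {v : Ω // cj v * v = 1}) => root v.1 v.2 (2 * k + 1) ⟨k, rfl⟩
  let w : ℕ → {v : Ω // cj v * v = 1} := fun n =>
    Nat.rec ⟨u, hu⟩ (fun k v => ⟨f k v, (hf k v).1⟩) n
  have hw : ∀ k, (w (k + 1)).1 ^ (2 * k + 1) = (w k).1 := fun k => (hf k (w k)).2
  have h0 : ∀ k, (w k).1 ≠ 0 := fun k => right_ne_zero_of_mul_eq_one (w k).2
  let d : ℕ → ℕ := fun k => ∏ i ∈ Finset.range k, (2 * i + 1)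
  have up : ∀ (q : ℚ) (k : ℕ) (a : ℤ), q * d k = a → ∀ l, k ≤ l →
      ∃ b : ℤ, q * d l = b ∧ (w l).1 ^ b = (w k).1 ^ a := by
    intro q k a h l hl
    induction hl with
    | refl => exact ⟨a, h, rfl⟩
    | @step l _ ih =>
      obtain ⟨b, h1, h2⟩ := ih
      refine ⟨(2 * l + 1 : ℕ) * b, ?_, by rw [zpow_mul, zpow_natCast, hw, h2]⟩
      rw [show d l.succ = d l * (2 * l + 1) from Finset.prod_range_succ _ _, Nat.cast_mul,
        ← mul_assoc, h1, Int.cast_mul, Int.cast_natCast, mul_comm]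
  let θ : ℚ → Ω := fun q =>
    if h : ∃ p : ℕ × ℤ, q * d p.1 = p.2 then (w h.choose.1).1 ^ h.choose.2 else 1
  have key : ∀ (q : ℚ) (k : ℕ) (a : ℤ), q * d k = a → θ q = (w k).1 ^ a := by
    intro q k a h
    have h1 : ∃ p : ℕ × ℤ, q * d p.1 = p.2 := ⟨(k, a), h⟩
    obtain ⟨b, h2, h3⟩ := up q k a h _ (le_max_left k h1.choose.1)
    obtain ⟨b', h4, h5⟩ := up q _ _ h1.choose_spec _ (le_max_right k h1.choose.1)
    rw [← h3, Int.cast_injective (h2.symm.trans h4), h5]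
    exact dif_pos h1
  have ex : ∀ q : ℚ, Odd q.den → ∃ (k : ℕ) (a : ℤ), q * d k = a := by
    rintro q ⟨k, hk⟩
    refine ⟨k + 1, q.num * d k, ?_⟩
    rw [show d (k + 1) = d k * (2 * k + 1) from Finset.prod_range_succ _ _, ← hk, Nat.cast_mul,
      mul_comm (d k : ℚ), ← mul_assoc, Rat.mul_den_eq_num, Int.cast_mul, Int.cast_natCast]
  refine ⟨θ, by rw [key 0 0 0 (by simp), zpow_zero], by rw [key 1 0 1 (by simp [d]), zpow_one]; rfl,
    fun q q' h h' => ?_, fun q h => ?_⟩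
  · obtain ⟨k, a, ha⟩ := ex q h
    obtain ⟨k', a', ha'⟩ := ex q' h'
    obtain ⟨b, hb, -⟩ := up q k a ha _ (le_max_left k k')
    obtain ⟨b', hb', -⟩ := up q' k' a' ha' _ (le_max_right k k')
    rw [key q _ b hb, key q' _ b' hb', ← zpow_add₀ (h0 _)]
    exact key _ _ _ (by rw [add_mul, hb, hb', Int.cast_add])
  · obtain ⟨k, a, ha⟩ := ex q h
    rw [key q k a ha, key (-q) k (-a) (by rw [neg_mul, ha, Int.cast_neg]), map_zpow₀,
      eq_inv_of_mul_eq_one_left (w k).2, inv_zpow']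

theorem thetaC (u : ℂ) (hu : (starRingEnd ℂ) u * u = 1) :
    ∃ θ : ℚ → ℂ, θ 0 = 1 ∧ θ 1 = u ∧ (∀ q q' : ℚ, θ (q + q') = θ q * θ q') ∧
      ∀ q : ℚ, (starRingEnd ℂ) (θ q) = θ (-q) := by
  have h1 : ‖u‖ = 1 := by
    rw [Complex.conj_mul'] at hu
    exact (pow_eq_one_iff_of_nonneg (norm_nonneg u) two_ne_zero).1 (by exact_mod_cast hu)
  refine ⟨fun q => Complex.exp (q * (u.arg * Complex.I)), by simp, ?_, fun q q' => ?_, fun q => ?_⟩
  · simpa [h1] using Complex.norm_mul_exp_arg_mul_I u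
  · simp only [Rat.cast_add, add_mul, Complex.exp_add]
  · simp [← Complex.exp_conj]

theorem theta_char {A : Type} [AddCommGroup A] {a : A} (ha : a ≠ 0) (hf : IsOfFinAddOrder a) :
    ∃ c : A →+ UnitAddCircle, c a ≠ 0 := by
  have : NeZero (addOrderOf a) := ⟨hf.addOrderOf_pos.ne'⟩
  obtain ⟨c, hc⟩ := (Module.Baer.of_divisible UnitAddCircle).extension_property_addMonoidHom
    (ZMod.lift (addOrderOf a) ⟨zmultiplesHom A a, by simp⟩)
    ((ZMod.lift_injective _).2 fun m hm => (ZMod.intCast_zmod_eq_zero_iff_dvd _ _).2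
      (addOrderOf_dvd_iff_zsmul_eq_zero.2 hm)) ZMod.toAddCircle
  refine ⟨c, fun h => ha ?_⟩
  have h1 : c (ZMod.lift (addOrderOf a) ⟨zmultiplesHom A a, by simp⟩ ((1 : ℤ) : ZMod _)) = _ :=
    DFunLike.congr_fun hc _
  rw [ZMod.lift_coe, zmultiplesHom_apply, one_smul, h, eq_comm, ZMod.toAddCircle_eq_zero,
    ZMod.intCast_zmod_eq_zero_iff_dvd, addOrderOf_dvd_iff_zsmul_eq_zero, one_smul] at h1
  exact h1

/-- A character of `X / 2 ^ N X` with value `-1` at `γ`: the class of `γ` has order `2 ^ k`,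
`k ≥ 1`; send it to `-1` and extend into the divisible group `Additive ℂˣ` (or use
`CharacterModule` and an exponential). -/
theorem exOm {X : Type} [AddCommGroup X] (γ : X) (N : ℕ) (h : ¬ ∃ x, γ = (2 ^ N : ℤ) • x) :
    ∃ ω : X → ℂ, ω 0 = 1 ∧ (∀ x y, ω (x + y) = ω x * ω y) ∧ ω γ = -1 ∧
      (∀ x, ω x ^ (2 ^ N) = 1) ∧ ∀ x, (starRingEnd ℂ) (ω x) = ω (-x) := by
  classical
  let H : AddSubgroup X := (zsmulAddGroupHom (α := X) (2 ^ N : ℤ)).range
  have h1 : ∀ x : X, 2 ^ N • (QuotientAddGroup.mk' H) x = 0 := fun x => by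
    rw [← map_nsmul]
    exact (QuotientAddGroup.eq_zero_iff _).2 ⟨x, by simp [← natCast_zsmul]⟩
  obtain ⟨c, hc⟩ := theta_char (a := QuotientAddGroup.mk' H γ)
    (fun h0 => h (((QuotientAddGroup.eq_zero_iff _).1 h0).imp fun _ hx => hx.symm))
    (isOfFinAddOrder_iff_nsmul_eq_zero.2 ⟨2 ^ N, by positivity, h1 γ⟩)
  let e : X →+ UnitAddCircle := c.comp (QuotientAddGroup.mk' H)
  have h2 : ∀ x, 2 ^ N • e x = 0 := fun x => by
    rw [AddMonoidHom.comp_apply, ← map_nsmul, h1, map_zero]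
  have h3 : ∃ j : ℕ, 2 ^ j • e γ = 0 := ⟨N, h2 γ⟩
  obtain ⟨i, hi⟩ := Nat.exists_eq_succ_of_ne_zero (n := Nat.find h3) fun h0 => hc (by
    have h4 := Nat.find_spec h3
    rwa [h0, pow_zero, one_smul] at h4)
  have h4 : 2 • 2 ^ i • e γ = 0 := by
    rw [smul_smul, ← pow_succ', ← Nat.succ_eq_add_one, ← hi]
    exact Nat.find_spec h3
  have h5 : 2 ^ i • e γ ≠ 0 := Nat.find_min h3 (hi ▸ i.lt_succ_self)
  refine ⟨fun x => AddCircle.toCircle (2 ^ i • e x), by simp, fun x y => ?_, ?_, fun x => ?_,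
    fun x => ?_⟩
  · simp only [map_add, smul_add, AddCircle.toCircle_add, Circle.coe_mul]
  · refine (sq_eq_one_iff.1 ?_).resolve_left fun h6 => h5 ?_
    · rw [← Circle.coe_pow, ← AddCircle.toCircle_nsmul, h4, AddCircle.toCircle_zero, Circle.coe_one]
    · refine AddCircle.injective_toCircle one_ne_zero (Circle.ext ?_)
      rw [AddCircle.toCircle_zero]
      exact h6
  · rw [← Circle.coe_pow, ← AddCircle.toCircle_nsmul, smul_comm, h2, smul_zero,
      AddCircle.toCircle_zero, Circle.coe_one]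
  · beta_reduce
    rw [← Circle.coe_inv_eq_conj, ← AddCircle.toCircle_neg, map_neg, smul_neg]

/-- A torsion element becomes divisible by every power of two after multiplication by a power of
two. -/
theorem tors_div {X : Type} [AddCommGroup X] (x : X) (n : ℤ) (hn : n ≠ 0) (h : n • x = 0) :
    ∃ a : ℕ, ∀ N : ℕ, ∃ y, (2 ^ a : ℤ) • x = (2 ^ N : ℤ) • y := by
  obtain ⟨a, m, hm, e⟩ := Nat.exists_eq_two_pow_mul_odd (Int.natAbs_ne_zero.2 hn)
  have h1 : (m : ℤ) • (2 ^ a : ℤ) • x = 0 := by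
    have h2 : ((n.natAbs : ℕ) : ℤ) • x = 0 := by
      rw [natCast_zsmul]
      exact natAbs_nsmul_eq_zero.2 h
    rw [e] at h2
    rw [smul_smul, mul_comm]
    exact_mod_cast h2
  refine ⟨a, fun N => ?_⟩
  obtain ⟨u, v, huv⟩ : IsCoprime ((2 : ℤ) ^ N) m :=
    (Int.isCoprime_two_left.2 (Int.odd_coe_nat m |>.2 hm)).pow_left
  refine ⟨u • (2 ^ a : ℤ) • x, ?_⟩
  conv_lhs => rw [← one_smul ℤ ((2 ^ a : ℤ) • x), ← huv, add_smul, mul_smul v, h1, smul_zero,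
    add_zero, mul_comm, mul_smul]

end Pool.Agent.AS
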