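import Pool.Agent.Lib.MP_dae8ad_gt.A.ValDefs

namespace Pool.Agent.AS

variable {B Ω : Type} [AddCommGroup B] [Field Ω] [CharZero Ω] {cj0 : Ω →+* Ω}
  {B0 : AddSubgroup B} {ℓ : B →+ ℚ} {θ : B → Ω}

/-- Local splitting: the image `Q` in `B ⧸ B0` of the subgroup generated by a finite set is
finitely generated and torsion free, so free (`Module.free_of_finite_type_torsion_free'`), so the
projection has a section `s` over `Q` (`Module.projective_lifting_property`); `ρ b = b - s [b]`.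
`lam` is a functional on `B ⧸ B0` (extended by `Module.Baer.of_divisible ℚ`) that is not zero on
the finitely many non-zero differences of classes (a finite union of proper subspaces is proper; or
coordinates in a basis of `Q` read in a large base). -/
theorem split_fin (h : VD cj0 B0 ℓ θ) (F : Finset B) :
    ∃ (H : AddSubgroup B) (ρ : B → B) (lam : B →+ ℚ), (∀ b ∈ F, b ∈ H) ∧ B0 ≤ H ∧
      (∀ b ∈ H, ρ b ∈ B0) ∧ (∀ b ∈ H, ∀ b' ∈ H, ρ (b + b') = ρ b + ρ b') ∧
      (∀ b ∈ B0, ρ b = b) ∧ (∀ b ∈ B0, lam b = 0) ∧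
      ∀ b ∈ F, ∀ b' ∈ F, lam b = lam b' → b - b' ∈ B0 := by
  classical
  have tf : Module.IsTorsionFree ℤ (B ⧸ B0) :=
    Module.IsTorsionFree.of_smul_eq_zero fun n q hq => by
      induction q using QuotientAddGroup.induction_on with
      | H b =>
        refine or_iff_not_imp_left.2 fun hn => ?_
        rw [← QuotientAddGroup.mk_zsmul, QuotientAddGroup.eq_zero_iff] at hq
        exact (QuotientAddGroup.eq_zero_iff b).2 (h.pure n b hn hq)
  let π : B →+ B ⧸ B0 := QuotientAddGroup.mk' B0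
  have hπ : ∀ b, π b = 0 ↔ b ∈ B0 := QuotientAddGroup.eq_zero_iff
  let N : Submodule ℤ (B ⧸ B0) := Submodule.span ℤ (π '' F)
  have : Module.Finite ℤ N := Module.Finite.span_of_finite ℤ (F.finite_toSet.image π)
  obtain ⟨s, hs⟩ := Module.projective_lifting_property π.toIntLinearMap N.subtype
    (QuotientAddGroup.mk'_surjective B0)
  have hs' : ∀ q : N, π (s q) = q := fun q => LinearMap.congr_fun hs q
  have hF : ∀ b ∈ F, π b ∈ N := fun b hb => Submodule.subset_span ⟨b, hb, rfl⟩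
  have h0 : ∀ b ∈ B0, π b ∈ N := fun b hb => by
    rw [(hπ b).2 hb]
    exact N.zero_mem
  obtain ⟨g, hg⟩ := Module.Dual.exists_forall_ne_zero_of_forall_exists (K := ℚ)
    (M := B ⧸ B0 →+ ℚ) (fun p : {p : F × F // (p.1 : B) - p.2 ∉ B0} =>
      { toFun := fun g => g (π (p.1.1 - p.1.2))
        map_add' := fun _ _ => rfl
        map_smul' := fun _ _ => rfl }) fun p => by
      have hm : π (p.1.1 - p.1.2) ∈ N := by
        rw [map_sub]
        exact sub_mem (hF _ p.1.1.2) (hF _ p.1.2.2)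
      obtain ⟨φ, hφ⟩ := Module.Projective.exists_dual_ne_zero ℤ (x := (⟨_, hm⟩ : N))
        fun e => p.2 ((hπ _).1 (congrArg Subtype.val e))
      obtain ⟨g, hg⟩ := (Module.Baer.of_divisible ℚ).extension_property_addMonoidHom
        N.subtype.toAddMonoidHom N.injective_subtype ((Int.castAddHom ℚ).comp φ.toAddMonoidHom)
      exact ⟨g, fun e => hφ (Int.cast_eq_zero.1 ((DFunLike.congr_fun hg ⟨_, hm⟩).symm.trans e))⟩
  refine ⟨N.toAddSubgroup.comap π, fun b => if hb : π b ∈ N then b - s ⟨π b, hb⟩ else 0, g.comp π,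
    hF, h0, fun b (hb : π b ∈ N) => ?_, fun b (hb : π b ∈ N) b' (hb' : π b' ∈ N) => ?_,
    fun b hb => ?_, fun b hb => ?_, fun b hb b' hb' e => by_contra fun hn => ?_⟩
  · beta_reduce
    rw [dif_pos hb, ← hπ, map_sub, hs', sub_self]
  · have hb'' : π (b + b') ∈ N := by
      rw [map_add]
      exact add_mem hb hb'
    have e : (⟨_, hb''⟩ : N) = ⟨_, hb⟩ + ⟨_, hb'⟩ := Subtype.ext (map_add π b b')
    beta_reduce
    rw [dif_pos hb, dif_pos hb', dif_pos hb'', e, map_add]
    abel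
  · have e : (⟨_, h0 b hb⟩ : N) = 0 := Subtype.ext ((hπ b).2 hb)
    beta_reduce
    rw [dif_pos (h0 b hb), e, map_zero, sub_zero]
  · rw [AddMonoidHom.comp_apply, (hπ b).2 hb, map_zero]
  · refine hg ⟨(⟨b, hb⟩, ⟨b', hb'⟩), hn⟩ ?_
    change g.comp π (b - b') = 0
    rw [map_sub, e, sub_self]

/-- The coefficients of the hermitian product of `κ` with itself. -/
noncomputable def herm {m : Type} [Fintype m] (cj0 : Ω →+* Ω) (W : Matrix m m Ω)
    (κ : m → B →₀ Ω) : B →₀ Ω :=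
  ∑ i, ∑ j, (κ i).sum fun b a => (κ j).sum fun b' a' => Finsupp.single (b' - b) (cj0 a * W i j * a')

/-- The middle term of the binomial formula. -/
theorem val3_bin {A : Type} [CommRing A] (Λ : A →+ Ω) (g U V : A) (R : ℕ)
    (h : ∀ k k', k < R ∨ k' < R → Λ (g * (U ^ k * V ^ k')) = 0)
    (h0 : Λ (g * (U + V) ^ (2 * R)) = 0) : Λ (g * (U ^ R * V ^ R)) = 0 := by
  rw [(Commute.all U V).add_pow', Finset.mul_sum, map_sum,
    Finset.sum_eq_single_of_mem (R, R) (by simp [two_mul]), mul_smul_comm,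
    map_nsmul, smul_eq_zero] at h0
  · exact h0.resolve_left (Nat.choose_pos (by omega)).ne'
  · intro p hp hne
    have h1 : p.1 + p.2 = 2 * R := by simpa using hp
    rw [mul_smul_comm, map_nsmul, h _ _ (by_contra fun hn => hne (Prod.ext (by omega) (by omega))),
      smul_zero]

omit [AddCommGroup B] [CharZero Ω] in
open Classical in
/-- Vanishing power sums give vanishing sums over the level sets. -/
theorem val3_sep (s : Finset B) (u y : B → Ω) (h : ∀ l, ∑ b ∈ s, u b * y b ^ l = 0) (t : Ω) :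
    ∑ b ∈ s, (if y b = t then u b else 0) = 0 := by
  have h1 : ∑ b ∈ s, u b * (Lagrange.basis (insert t (s.image y)) id t).eval (y b) = 0 := by
    simp only [Polynomial.eval_eq_sum_range, Finset.mul_sum]
    rw [Finset.sum_comm]
    refine Finset.sum_eq_zero fun n _ => ?_
    simp only [mul_left_comm (u _), ← Finset.mul_sum, h, mul_zero]
  refine (Finset.sum_congr rfl fun b hb => ?_).trans h1
  split_ifs with e
  · have h2 := Lagrange.eval_basis_self (s := insert t (s.image y)) (v := id) (Set.injOn_id _)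
      (Finset.mem_insert_self t _)
    rw [id] at h2
    rw [e, h2, mul_one]
  · have h2 := Lagrange.eval_basis_of_ne (s := insert t (s.image y)) (v := id) (Ne.symm e)
      (Finset.mem_insert_of_mem (Finset.mem_image_of_mem y hb))
    rw [id] at h2
    rw [h2, mul_zero]

omit [CharZero Ω] in
theorem val3_rep {H : AddSubgroup B} {ρ : B → B} (hle : B0 ≤ H)
    (hadd : ∀ b ∈ H, ∀ b' ∈ H, ρ (b + b') = ρ b + ρ b') (hid : ∀ b ∈ B0, ρ b = b) {b b' : B}
    (hb' : b' ∈ H) (e : b - b' ∈ B0) : b - ρ b = b' - ρ b' := by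
  have h1 := hadd _ (hle e) _ hb'
  rw [sub_add_cancel, hid _ e] at h1
  rw [h1]
  abel

omit [CharZero Ω] in
/-- Grouping by cosets. -/
theorem val3_grp {H : AddSubgroup B} {ρ : B → B} (hle : B0 ≤ H) (hρ : ∀ b ∈ H, ρ b ∈ B0)
    (hadd : ∀ b ∈ H, ∀ b' ∈ H, ρ (b + b') = ρ b + ρ b') (hid : ∀ b ∈ B0, ρ b = b) {r : B →₀ Ω}
    (hr : ∀ b ∈ r.support, b ∈ H) {R k : ℕ} (hm : Mom B0 ℓ θ r R) (hk : k < R) {p : B → Ω}
    (hp : ∀ b c, b - c ∈ B0 → p b = p c) :
    ∑ b ∈ r.support, r b * θ (ρ b) * (((ℓ b : ℚ) : Ω) ^ k * p b) = 0 := by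
  classical
  rw [← Finset.sum_fiberwise_of_maps_to fun b hb => Finset.mem_image_of_mem (fun b => b - ρ b) hb]
  refine Finset.sum_eq_zero fun c hc => ?_
  obtain ⟨b₀, hb₀, rfl⟩ := Finset.mem_image.1 hc
  have h1 := congrArg (p (b₀ - ρ b₀) * ·) (hm k hk (b₀ - ρ b₀))
  simp only [Finsupp.sum, Finset.mul_sum, mul_zero] at h1
  rw [Finset.sum_filter]
  refine (Finset.sum_congr rfl fun b hb => ?_).trans h1
  by_cases e : b - ρ b = b₀ - ρ b₀
  · have h2 : b - (b₀ - ρ b₀) = ρ b := by rw [← e, sub_sub_cancel]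
    have h3 : b - (b₀ - ρ b₀) ∈ B0 := h2 ▸ hρ b (hr b hb)
    rw [if_pos e, if_pos h3, hp _ _ h3, h2]
    ring
  · rw [if_neg e, if_neg, mul_zero]
    refine fun h3 => e (val3_rep hle hadd hid (hr _ hb₀) ?_)
    have h4 := sub_mem h3 (hρ _ (hr _ hb₀))
    rwa [sub_sub, sub_add_cancel] at h4

/-- Anisotropy passes to the residue field.  With `H`, `ρ`, `lam` from `split_fin` for the union of
the supports put `μ k l r = ∑ r b * θ (ρ b) * (ℓ b) ^ k * (lam b) ^ l` for `r` supported in `H`.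
Grouping by cosets, `Mom r R` gives `μ k l r = 0` for `k < R`; conversely `μ k l r = 0` for all `l`
gives the vanishing of the coset moments of order `k` when the support lies in `F` (apply a
polynomial in `lam`).  If some `κ i` fails `Mom (R + 1)`, let `l` be least with
`ξ = (μ R l (κ i))_i ≠ 0`; `M ξ = 0`, and the binomial theorem gives
`μ (2 R) (2 l) (herm κ) = ± choose (2 R) R * choose (2 l) l * (cj ξ ⬝ W ξ) ≠ 0`. -/
theorem val3 (h : VD cj0 B0 ℓ θ) {m : Type} [Fintype m] (M W : Matrix m m Ω)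
    (han : ∀ ξ : m → Ω, M.mulVec ξ = 0 → (cj0 ∘ ξ) ⬝ᵥ W.mulVec ξ = 0 → ξ = 0)
    (κ : m → B →₀ Ω) (hκ : ∀ b, M.mulVec (fun i => κ i b) = 0) (R : ℕ)
    (hR : ∀ i, Mom B0 ℓ θ (κ i) R) (hH : Mom B0 ℓ θ (herm cj0 W κ) (2 * R + 1)) :
    ∀ i, Mom B0 ℓ θ (κ i) (R + 1) := by
  classical
  obtain ⟨H, ρ, lam, hF, hle, hρ, hadd, hid, hl0, hsep⟩ :=
    split_fin h (Finset.univ.biUnion fun i => (κ i).support)
  have hS : ∀ i, ∀ b ∈ (κ i).support, b ∈ Finset.univ.biUnion fun i => (κ i).support :=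
    fun i b hb => Finset.mem_biUnion.2 ⟨i, Finset.mem_univ i, hb⟩
  have hκH : ∀ i, ∀ b ∈ (κ i).support, b ∈ H := fun i b hb => hF b (hS i b hb)
  have hlam : ∀ b c, b - c ∈ B0 → lam b = lam c := fun b c e => by
    rw [← sub_eq_zero, ← map_sub, hl0 _ e]
  have hθ : ∀ b ∈ H, ∀ b' ∈ H, θ (ρ (b' - b)) = cj0 (θ (ρ b)) * θ (ρ b') := fun b hb b' hb' => by
    have h1 := hadd _ (sub_mem hb' hb) _ hb
    rw [sub_add_cancel] at h1
    rw [h.thcj _ (hρ b hb), ← h.thadd _ (neg_mem (hρ b hb)) _ (hρ b' hb'), h1, add_comm,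
      add_neg_cancel_right]
  let μ : ℕ → ℕ → m → Ω := fun k l i =>
    ∑ b ∈ (κ i).support, κ i b * θ (ρ b) * (((ℓ b : ℚ) : Ω) ^ k * ((lam b : ℚ) : Ω) ^ l)
  have hμ : ∀ k < R, ∀ l, μ k l = 0 := fun k hk l => funext fun i =>
    val3_grp hle hρ hadd hid (hκH i) (hR i) hk fun b c e => by rw [hlam b c e]
  let Λ : (B → B → Ω) →+ Ω := AddMonoidHom.mk' (fun f => ∑ i, ∑ j, ∑ b ∈ (κ i).support,
    ∑ b' ∈ (κ j).support, cj0 (κ i b) * W i j * κ j b' * (θ (ρ (b' - b)) * f b b'))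
    fun f g => by simp only [Pi.add_apply, mul_add, Finset.sum_add_distrib]
  let U : B → B → Ω := fun b _ => -((ℓ b : ℚ) : Ω)
  let V : B → B → Ω := fun _ b => ((ℓ b : ℚ) : Ω)
  let U' : B → B → Ω := fun b _ => -((lam b : ℚ) : Ω)
  let V' : B → B → Ω := fun _ b => ((lam b : ℚ) : Ω)
  have hΛ : ∀ k k' l l', Λ (U ^ k * V ^ k' * (U' ^ l * V' ^ l')) =
      (-1) ^ (k + l) * (cj0 ∘ μ k l) ⬝ᵥ W.mulVec (μ k' l') := by
    intro k k' l l'
    simp only [Λ, μ, AddMonoidHom.mk'_apply, dotProduct, Matrix.mulVec, Function.comp_apply, map_sum,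
      Finset.mul_sum, Finset.sum_mul]
    refine Finset.sum_congr rfl fun i _ => Finset.sum_congr rfl fun j _ => ?_
    rw [Finset.sum_comm]
    refine Finset.sum_congr rfl fun b' hb' => Finset.sum_congr rfl fun b hb => ?_
    simp only [hθ b (hκH i b hb) b' (hκH j b' hb'), U, V, U', V', Pi.mul_apply, Pi.pow_apply,
      map_mul, map_pow, map_ratCast]
    rw [neg_pow ((ℓ b : ℚ) : Ω), neg_pow ((lam b : ℚ) : Ω)]
    ring
  have hherm : ∀ l, Λ ((U' + V') ^ l * (U + V) ^ (2 * R)) = 0 := by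
    intro l
    have h1 : herm cj0 W κ ∈ Finsupp.supported Ω Ω (H : Set B) :=
      sum_mem fun i _ => sum_mem fun j _ => sum_mem fun b hb => sum_mem fun b' hb' =>
        Finsupp.single_mem_supported Ω _ (sub_mem (hκH j b' hb') (hκH i b hb))
    have h2 := val3_grp hle hρ hadd hid h1 hH (Nat.lt_succ_self _)
      (p := fun b => ((lam b : ℚ) : Ω) ^ l) fun b c e => by rw [hlam b c e]
    have h3 : Finsupp.linearCombination Ω (fun b => θ (ρ b) * (((ℓ b : ℚ) : Ω) ^ (2 * R) *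
        ((lam b : ℚ) : Ω) ^ l)) (herm cj0 W κ) = 0 := by
      rw [← h2, Finsupp.linearCombination_apply, Finsupp.sum]
      simp only [smul_eq_mul, mul_assoc]
    rw [← h3]
    simp only [herm, Finsupp.sum, map_sum, Finsupp.linearCombination_single, Λ, U, V, U', V',
      AddMonoidHom.mk'_apply, Pi.mul_apply, Pi.pow_apply, Pi.add_apply, smul_eq_mul, map_sub,
      Rat.cast_sub, neg_add_eq_sub, mul_comm (_ ^ l)]
  have hM : ∀ k l, M.mulVec (μ k l) = 0 := by
    intro k l
    funext i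
    have h1 : ∑ j, M i j • κ j = 0 := Finsupp.ext fun b => by
      rw [Finsupp.finsetSum_apply]
      exact congrFun (hκ b) i
    have h2 := congrArg (Finsupp.linearCombination Ω fun b => θ (ρ b) * (((ℓ b : ℚ) : Ω) ^ k *
      ((lam b : ℚ) : Ω) ^ l)) h1
    simp only [map_sum, map_smul, map_zero, Finsupp.linearCombination_apply, Finsupp.sum,
      smul_eq_mul, ← mul_assoc] at h2
    simp only [μ, Matrix.mulVec, dotProduct, ← mul_assoc]
    exact h2
  have hξ : ∀ l, μ R l = 0 := by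
    intro l
    induction l using Nat.strong_induction_on with
    | h l ih =>
      have h1 := val3_bin Λ _ U V R (fun k k' hk => by
        rw [mul_comm, (Commute.all U' V').add_pow', Finset.mul_sum, map_sum]
        refine Finset.sum_eq_zero fun p _ => ?_
        rw [mul_smul_comm, map_nsmul, hΛ]
        rcases hk with hk | hk <;> simp [hμ _ hk, Function.comp_def]) (hherm (2 * l))
      rw [mul_comm] at h1
      have h2 := val3_bin Λ _ U' V' l (fun k k' hk => by
        rw [hΛ]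
        rcases hk with hk | hk <;> simp [ih _ hk, Function.comp_def]) h1
      rw [hΛ] at h2
      exact han _ (hM R l) ((mul_eq_zero.1 h2).resolve_left (pow_ne_zero _ (by norm_num)))
  intro i k hk c
  rcases (Nat.lt_succ_iff.1 hk).lt_or_eq with hk | rfl
  · exact hR i k hk c
  by_cases hc : ∃ b₀ ∈ (κ i).support, b₀ - c ∈ B0
  · obtain ⟨b₀, hb₀, h0⟩ := hc
    have h1 := val3_sep (κ i).support (fun b => κ i b * θ (ρ b) * ((ℓ b : ℚ) : Ω) ^ k)
      (fun b => ((lam b : ℚ) : Ω)) (fun l => by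
        simpa only [μ, mul_assoc, Pi.zero_apply] using congrFun (hξ l) i) (lam b₀)
    have h2 := congrArg (θ (b₀ - ρ b₀ - c) * ·) h1
    simp only [Finset.mul_sum, mul_zero] at h2
    refine (Finset.sum_congr rfl fun b hb => ?_).trans h2
    beta_reduce
    by_cases e : b - c ∈ B0
    · have h3 : b - b₀ ∈ B0 := by simpa using sub_mem e h0
      have h4 : b₀ - ρ b₀ - c ∈ B0 := by
        rw [sub_right_comm]
        exact sub_mem h0 (hρ _ (hκH i _ hb₀))
      have h5 : b - c = b₀ - ρ b₀ - c + ρ b := by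
        rw [← val3_rep hle hadd hid (hκH i _ hb₀) h3]
        abel
      rw [if_pos e, if_pos (by rw [hlam _ _ h3]), h5, h.thadd _ h4 _ (hρ _ (hκH i _ hb))]
      ring
    · rw [if_neg e, if_neg, mul_zero]
      refine fun e' => e ?_
      simpa using add_mem (hsep b (hS i b hb) b₀ (hS i b₀ hb₀) (Rat.cast_injective e')) h0
  · exact Finset.sum_eq_zero fun b hb => if_neg fun e => hc ⟨b, hb, e⟩

end Pool.Agent.AS
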