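import Pool.Agent.Lib.MP_dae8ad_gt.A.Val2
import Pool.Agent.Lib.MP_dae8ad_gt.A.Val3

namespace Pool.Agent.AS

variable {B Ω : Type} [AddCommGroup B] [Field Ω] [CharZero Ω] {cj0 : Ω →+* Ω}
  {B0 : AddSubgroup B} {ℓ : B →+ ℚ} {θ : B → Ω}

section
variable {K : Type} [Field K] {cj : K →+* K} {e : B → K} {ι : Ω →+* K} {v : K → ℤ}

omit [AddCommGroup B] [CharZero Ω] in
theorem val4_single (b : B) (a : Ω) : evK e ι (Finsupp.single b a) = ι a * e b := by
  unfold evK
  rw [Finsupp.sum_single_index (by simp)]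

/-- `evK` as an additive map. -/
def val4_ev (e : B → K) (ι : Ω →+* K) : (B →₀ Ω) →+ K where
  toFun := evK e ι
  map_zero' := by simp [evK]
  map_add' r r' := Finsupp.sum_add_index' (by simp) (by simp [add_mul])

omit [AddCommGroup B] [CharZero Ω] in
theorem val4_add (r r' : B →₀ Ω) : evK e ι (r + r') = evK e ι r + evK e ι r' :=
  (val4_ev e ι).map_add r r'

omit [AddCommGroup B] [CharZero Ω] in
theorem val4_zero : evK e ι (0 : B →₀ Ω) = 0 := (val4_ev e ι).map_zero

omit [AddCommGroup B] [CharZero Ω] in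
theorem val4_smul (a : Ω) (r : B →₀ Ω) : evK e ι (a • r) = ι a * evK e ι r := by
  induction r using Finsupp.induction_linear with
  | zero => simp [val4_zero]
  | add r r' h1 h2 => rw [smul_add, val4_add, val4_add, h1, h2, mul_add]
  | single b a' =>
    rw [Finsupp.smul_single, val4_single, val4_single, smul_eq_mul, map_mul, mul_assoc]

omit [CharZero Ω] in
theorem val4_mul (hf : FK cj0 cj e ι) (r r' : B →₀ Ω) :
    ∃ s : B →₀ Ω, evK e ι s = evK e ι r * evK e ι r' := by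
  induction r using Finsupp.induction_linear with
  | zero => exact ⟨0, by simp [val4_zero]⟩
  | add r1 r2 h1 h2 =>
    obtain ⟨s1, h1⟩ := h1
    obtain ⟨s2, h2⟩ := h2
    exact ⟨s1 + s2, by rw [val4_add, val4_add, h1, h2, add_mul]⟩
  | single b a =>
    induction r' using Finsupp.induction_linear with
    | zero => exact ⟨0, by simp [val4_zero]⟩
    | add r1 r2 h1 h2 =>
      obtain ⟨s1, h1⟩ := h1
      obtain ⟨s2, h2⟩ := h2
      exact ⟨s1 + s2, by rw [val4_add, val4_add, h1, h2, mul_add]⟩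
    | single b' a' =>
      refine ⟨Finsupp.single (b + b') (a * a'), ?_⟩
      rw [val4_single, val4_single, val4_single, hf.eadd, map_mul]
      ring

omit [CharZero Ω] in
theorem val4_ne (hf : FK cj0 cj e ι) {r : B →₀ Ω} (hr : r ≠ 0) : evK e ι r ≠ 0 :=
  fun h0 => hr (hf.indep r h0)

omit [CharZero Ω] in
theorem val4_den (hf : FK cj0 cj e ι) (s : Finset K) :
    ∃ d : B →₀ Ω, evK e ι d ≠ 0 ∧ ∀ k ∈ s, ∃ r, k * evK e ι d = evK e ι r := by
  classical
  induction s using Finset.induction_on with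
  | empty =>
    obtain ⟨-, d, hd, -⟩ := hf.frac 0
    exact ⟨d, val4_ne hf hd, by simp⟩
  | insert k s _ ih =>
    obtain ⟨d, hd, H⟩ := ih
    obtain ⟨r, d', hd', hk⟩ := hf.frac k
    obtain ⟨D, hD⟩ := val4_mul hf d d'
    refine ⟨D, hD ▸ mul_ne_zero hd (val4_ne hf hd'), fun k' hk' => ?_⟩
    rcases Finset.mem_insert.1 hk' with rfl | hk'
    · obtain ⟨t, ht⟩ := val4_mul hf r d
      exact ⟨t, by rw [hD, ht, ← hk]; ring⟩
    · obtain ⟨r', hr'⟩ := H k' hk'
      obtain ⟨t, ht⟩ := val4_mul hf r' d'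
      exact ⟨t, by rw [hD, ht, ← hr']; ring⟩

open Classical in
/-- A moment on a coset. -/
noncomputable def val4_mm (B0 : AddSubgroup B) (ℓ : B →+ ℚ) (θ : B → Ω) (k : ℕ) (c : B) :
    (B →₀ Ω) →+ Ω where
  toFun r := r.sum fun b a => if b - c ∈ B0 then a * θ (b - c) * ((ℓ b : ℚ) : Ω) ^ k else 0
  map_zero' := by simp
  map_add' r r' := Finsupp.sum_add_index' (by simp) fun b a a' => by
    split_ifs
    · ring
    · simp

omit [CharZero Ω] in
theorem val4_mom (r : B →₀ Ω) (R : ℕ) :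
    Mom B0 ℓ θ r R ↔ ∀ k < R, ∀ c, val4_mm B0 ℓ θ k c r = 0 := Iff.rfl

omit [CharZero Ω] in
open Classical in
theorem val4_mms (k : ℕ) (c b : B) (a : Ω) : val4_mm B0 ℓ θ k c (Finsupp.single b a) =
    if b - c ∈ B0 then a * θ (b - c) * ((ℓ b : ℚ) : Ω) ^ k else 0 := by
  change ((Finsupp.single b a).sum fun b a =>
    if b - c ∈ B0 then a * θ (b - c) * ((ℓ b : ℚ) : Ω) ^ k else 0) = _
  rw [Finsupp.sum_single_index (by simp)]

theorem val4_conj (h : VD cj0 B0 ℓ θ) (hf : FK cj0 cj e ι) (r : B →₀ Ω) :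
    ∃ s : B →₀ Ω, evK e ι s = cj (evK e ι r) ∧
      ∀ k c, val4_mm B0 ℓ θ k c s = (-1) ^ k * cj0 (val4_mm B0 ℓ θ k (-c) r) := by
  induction r using Finsupp.induction_linear with
  | zero => exact ⟨0, by simp [val4_zero], by simp⟩
  | add r1 r2 h1 h2 =>
    obtain ⟨s1, h1, h1'⟩ := h1
    obtain ⟨s2, h2, h2'⟩ := h2
    refine ⟨s1 + s2, by rw [val4_add, val4_add, h1, h2, map_add], fun k c => ?_⟩
    rw [map_add, map_add, map_add, h1', h2', mul_add]
  | single b a =>
    refine ⟨Finsupp.single (-b) (cj0 a), ?_, fun k c => ?_⟩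
    · rw [val4_single, val4_single, map_mul, hf.icj, hf.ecj]
    · rw [val4_mms, val4_mms]
      have e1 : -b - c = -(b - -c) := by abel
      by_cases hb : b - -c ∈ B0
      · rw [if_pos hb, if_pos (e1 ▸ B0.neg_mem hb), map_mul, map_mul, h.thcj _ hb, e1, map_pow,
          map_ratCast, map_neg, Rat.cast_neg, neg_pow]
        ring
      · rw [if_neg hb, if_neg (fun h1 => hb (B0.neg_mem_iff.1 (e1 ▸ h1))), map_zero, mul_zero]

/-- Order at least `n`. -/
def val4_ge (v : K → ℤ) (n : ℤ) (k : K) : Prop := k = 0 ∨ n ≤ v k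

omit [CharZero Ω] in
theorem val4_one (hv : VV B0 ℓ θ e ι v) : v 1 = 0 := by
  have := hv.vmul 1 1 one_ne_zero one_ne_zero
  rw [mul_one] at this
  omega

omit [CharZero Ω] in
theorem val4_inv (hv : VV B0 ℓ θ e ι v) {k : K} (hk : k ≠ 0) : v k⁻¹ = -v k := by
  have := hv.vmul k k⁻¹ hk (inv_ne_zero hk)
  rw [mul_inv_cancel₀ hk, val4_one hv] at this
  omega

omit [CharZero Ω] in
theorem val4_gemul (hv : VV B0 ℓ θ e ι v) {n n' : ℤ} {k k' : K} (h1 : val4_ge v n k)
    (h2 : val4_ge v n' k') : val4_ge v (n + n') (k * k') := by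
  by_cases hk : k = 0
  · exact Or.inl (by simp [hk])
  by_cases hk' : k' = 0
  · exact Or.inl (by simp [hk'])
  have h3 := h1.resolve_left hk
  have h4 := h2.resolve_left hk'
  exact Or.inr (by rw [hv.vmul k k' hk hk']; omega)

omit [CharZero Ω] in
theorem val4_gediv (hv : VV B0 ℓ θ e ι v) {n : ℤ} {k d : K} (hd : d ≠ 0)
    (h1 : val4_ge v (n + v d) (k * d)) : val4_ge v n k := by
  have := val4_gemul hv h1 (Or.inr (val4_inv hv hd).ge)
  rwa [mul_inv_cancel_right₀ hd, add_neg_cancel_right] at this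

omit [CharZero Ω] in
theorem val4_geev (hf : FK cj0 cj e ι) (hv : VV B0 ℓ θ e ι v) (r : B →₀ Ω) (R : ℕ) :
    val4_ge v R (evK e ι r) ↔ Mom B0 ℓ θ r R := by
  by_cases hr : r = 0
  · subst hr
    exact ⟨fun _ => (val4_mom _ _).2 fun k _ c => map_zero _, fun _ => Or.inl val4_zero⟩
  · rw [← hv.vmom r hr R]
    exact ⟨fun h1 => h1.resolve_left (val4_ne hf hr), Or.inr⟩

omit [CharZero Ω] in
theorem val4_ge0 (hf : FK cj0 cj e ι) (hv : VV B0 ℓ θ e ι v) (r : B →₀ Ω) :
    val4_ge v 0 (evK e ι r) := (val4_geev hf hv r 0).2 fun _ hk => absurd hk (Nat.not_lt_zero _)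

omit [CharZero Ω] in
theorem val4_geadd (hf : FK cj0 cj e ι) (hv : VV B0 ℓ θ e ι v) {n : ℤ} {k k' : K}
    (h1 : val4_ge v n k) (h2 : val4_ge v n k') : val4_ge v n (k + k') := by
  classical
  obtain ⟨d, hd, H⟩ := val4_den hf {k, k'}
  obtain ⟨r, hr⟩ := H k (by simp)
  obtain ⟨r', hr'⟩ := H k' (by simp)
  refine val4_gediv hv hd ?_
  rw [add_mul, hr, hr', ← val4_add]
  by_cases hn : n + v (evK e ι d) ≤ 0
  · exact (val4_ge0 hf hv (r + r')).imp id hn.trans
  obtain ⟨R, hR⟩ := Int.eq_ofNat_of_zero_le (not_le.1 hn).le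
  have h3 := val4_gemul hv h1 (Or.inr (le_refl (v (evK e ι d))))
  have h4 := val4_gemul hv h2 (Or.inr (le_refl (v (evK e ι d))))
  rw [hr, hR, val4_geev hf hv, val4_mom] at h3
  rw [hr', hR, val4_geev hf hv, val4_mom] at h4
  rw [hR, val4_geev hf hv, val4_mom]
  intro j hj c
  rw [map_add, h3 j hj c, h4 j hj c, add_zero]

theorem val4_cj (h : VD cj0 B0 ℓ θ) (hf : FK cj0 cj e ι) (hv : VV B0 ℓ θ e ι v) {k : K}
    (hk : k ≠ 0) : v (cj k) = v k := by
  have h1 : ∀ r : B →₀ Ω, evK e ι r ≠ 0 → v (evK e ι r) ≤ v (cj (evK e ι r)) := by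
    intro r hr
    obtain ⟨R, hR⟩ := Int.eq_ofNat_of_zero_le ((val4_ge0 hf hv r).resolve_left hr)
    obtain ⟨s, hs, hs'⟩ := val4_conj h hf r
    have h2 := (val4_mom _ _).1 ((val4_geev hf hv r R).1 (Or.inr hR.ge))
    have h3 := (val4_geev hf hv s R).2 ((val4_mom _ _).2 fun j hj c => by
      rw [hs', h2 j hj, map_zero, mul_zero])
    rw [hs] at h3
    rw [hR]
    exact h3.resolve_left ((map_ne_zero cj).2 hr)
  have h2 : ∀ r : B →₀ Ω, evK e ι r ≠ 0 → v (cj (evK e ι r)) = v (evK e ι r) := by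
    intro r hr
    obtain ⟨s, hs, -⟩ := val4_conj h hf r
    have h3 := h1 s (hs ▸ (map_ne_zero cj).2 hr)
    rw [hs, hf.cjcj] at h3
    exact le_antisymm h3 (h1 r hr)
  obtain ⟨r, d, hd, hr⟩ := hf.frac k
  have hd' := val4_ne hf hd
  have h3 := hv.vmul k _ hk hd'
  have h4 := hv.vmul (cj k) _ ((map_ne_zero cj).2 hk) ((map_ne_zero cj).2 hd')
  rw [← map_mul, hr, h2 r (hr ▸ mul_ne_zero hk hd'), h2 d hd'] at h4
  rw [hr] at h3
  omega

omit [CharZero Ω] in
theorem val4_herm (hf : FK cj0 cj e ι) {m : Type} [Fintype m] (W : Matrix m m Ω)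
    (κ : m → B →₀ Ω) : evK e ι (herm cj0 W κ) =
      ∑ i, ∑ j, cj (evK e ι (κ i)) * ι (W i j) * evK e ι (κ j) := by
  change val4_ev e ι _ = _
  unfold herm
  rw [map_sum]
  refine Finset.sum_congr rfl fun i _ => ?_
  rw [map_sum]
  refine Finset.sum_congr rfl fun j _ => ?_
  rw [map_finsuppSum]
  unfold evK
  rw [map_finsuppSum, Finsupp.sum_mul, Finsupp.sum_mul]
  refine Finsupp.sum_congr fun b _ => ?_
  rw [map_finsuppSum, Finsupp.mul_sum]
  refine Finsupp.sum_congr fun b' _ => ?_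
  change evK e ι _ = _
  rw [val4_single, sub_eq_add_neg, hf.eadd, map_mul, map_mul, map_mul, hf.icj, hf.ecj]
  ring

theorem val4_unif (h : VD cj0 B0 ℓ θ) (hf : FK cj0 cj e ι) (hv : VV B0 ℓ θ e ι v) {b : B}
    (hb : b ∈ B0) (h0 : b ≠ 0) : e b - ι (θ b) ≠ 0 ∧ v (e b - ι (θ b)) = 1 := by
  have e1 : e b - ι (θ b) = evK e ι (Finsupp.single b 1 + Finsupp.single 0 (-θ b)) := by
    rw [val4_add, val4_single, val4_single, hf.e0, map_one, map_neg]
    ring
  have h1 : val4_ge v (1 : ℕ) (e b - ι (θ b)) := by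
    rw [e1, val4_geev hf hv, val4_mom]
    intro k hk c
    obtain rfl : k = 0 := by omega
    rw [map_add, val4_mms, val4_mms]
    by_cases hc : 0 - c ∈ B0
    · have e2 : b - c = b + (0 - c) := by abel
      rw [if_pos hc, if_pos (e2 ▸ B0.add_mem hb hc), e2, h.thadd _ hb _ hc]
      ring
    · have e2 : 0 - c = b - c - b := by abel
      rw [if_neg hc, if_neg (fun h1 => hc (e2 ▸ B0.sub_mem h1 hb)), add_zero]
  have h2 : ¬ val4_ge v (2 : ℕ) (e b - ι (θ b)) := by
    rw [e1, val4_geev hf hv, val4_mom]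
    intro H
    have h3 := H 1 (by omega) 0
    rw [map_add, val4_mms, val4_mms, sub_zero, sub_zero, if_pos hb, if_pos B0.zero_mem] at h3
    have h4 := h.thadd b hb (-b) (B0.neg_mem hb)
    rw [add_neg_cancel, h.th0] at h4
    have h5 : θ b ≠ 0 := left_ne_zero_of_mul_eq_one h4.symm
    have h6 : ((ℓ b : ℚ) : Ω) ≠ 0 := Rat.cast_ne_zero.2 fun h7 => h0 (h.inj b hb h7)
    simp [h5, h6] at h3
  have h3 : e b - ι (θ b) ≠ 0 := fun h4 => h2 (Or.inl h4)
  have h4 := h1.resolve_left h3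
  have h5 : ¬ ((2 : ℕ) : ℤ) ≤ v (e b - ι (θ b)) := fun h4 => h2 (Or.inr h4)
  exact ⟨h3, by omega⟩

/-- The valuation ring. -/
def val4_O (hf : FK cj0 cj e ι) (hv : VV B0 ℓ θ e ι v) : Subring K where
  carrier := {k | val4_ge v 0 k}
  mul_mem' h1 h2 := val4_gemul hv h1 h2
  one_mem' := Or.inr (val4_one hv).ge
  add_mem' h1 h2 := val4_geadd hf hv h1 h2
  zero_mem' := Or.inl rfl
  neg_mem' {k} h1 := by
    have h2 := hv.vmul (-1) (-1) (by simp) (by simp)
    rw [neg_mul_neg, mul_one, val4_one hv] at h2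
    have h3 := val4_gemul hv (n := 0) (k := -1) (Or.inr (by omega)) h1
    rwa [neg_one_mul] at h3

omit [CharZero Ω] in
theorem val4_mem (hf : FK cj0 cj e ι) (hv : VV B0 ℓ θ e ι v) (k : K) :
    k ∈ val4_O hf hv ↔ val4_ge v 0 k := Iff.rfl

omit [CharZero Ω] in
theorem val4_mO (hf : FK cj0 cj e ι) (hv : VV B0 ℓ θ e ι v) (k : K) :
    mO (val4_O hf hv) k ↔ val4_ge v 1 k := by
  unfold mO unitO
  simp only [val4_mem, val4_ge]
  by_cases hk : k = 0
  · simp [hk]
  · simp only [hk, false_or, inv_eq_zero, val4_inv hv hk, ne_eq, not_false_eq_true, and_true]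
    omega

omit [CharZero Ω] in
theorem val4_pid (hf : FK cj0 cj e ι) (hv : VV B0 ℓ θ e ι v) :
    IsPrincipalIdealRing (val4_O hf hv) := by
  refine ⟨fun I => ?_⟩
  by_cases hI : ∃ x ∈ I, (x : K) ≠ 0
  · obtain ⟨n, ⟨x, hx, hx0, rfl⟩, hn⟩ := Int.exists_least_of_bdd
      (P := fun n => ∃ x ∈ I, (x : K) ≠ 0 ∧ v x = n)
      ⟨0, fun n ⟨x, _, hx0, hn⟩ => hn ▸ (x.2 : val4_ge v 0 x).resolve_left hx0⟩
      (let ⟨x, hx, hx0⟩ := hI; ⟨_, x, hx, hx0, rfl⟩)
    refine ⟨x, le_antisymm (fun y hy => ?_) ((Submodule.span_singleton_le_iff_mem _ _).2 hx)⟩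
    have h1 : val4_ge v (v x) y := by
      by_cases hy0 : (y : K) = 0
      · exact Or.inl hy0
      · exact Or.inr (hn _ ⟨y, hy, hy0, rfl⟩)
    have h2 := val4_gemul hv h1 (Or.inr (val4_inv hv hx0).ge)
    rw [add_neg_cancel] at h2
    exact Submodule.mem_span_singleton.2 ⟨⟨_, h2⟩, Subtype.ext (inv_mul_cancel_right₀ hx0 _)⟩
  · refine ⟨0, le_antisymm (fun y hy => ?_)
      ((Submodule.span_singleton_le_iff_mem _ _).2 I.zero_mem)⟩
    obtain rfl : y = 0 := Subtype.ext (by_contra fun h1 => hI ⟨y, hy, h1⟩)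
    exact Submodule.zero_mem _

end

/-- `O = {k | k = 0 ∨ 0 ≤ v k}`.  Products of two `evK` are an `evK` (convolution), so finitely
many elements have a common denominator; `Mom · R` is closed under addition, which gives the
ultrametric inequality; `Mom` is invariant under `r ↦ conjugate of r` (replace `c` by `-c`), so
`v (cj k) = v k`; `unitO k ↔ k ≠ 0 ∧ v k = 0`, `mO k ↔ k = 0 ∨ 1 ≤ v k`; an ideal is generated by
an element of least order; `e b - ι (θ b) = evK (single b 1 - single 0 (θ b))` has order one;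
`ra`: write `ξ i = evK (κ i) / evK d`, `R = v (evK d)`, use `indep` for `M κ = 0` and `val3`. -/
theorem val4 (h : VD cj0 B0 ℓ θ) {K : Type} [Field K] {cj : K →+* K} {e : B → K} {ι : Ω →+* K}
    {v : K → ℤ} (hf : FK cj0 cj e ι) (hv : VV B0 ℓ θ e ι v) :
    ∃ O : Subring K, VK cj0 B0 θ O cj e ι := by
  classical
  refine ⟨val4_O hf hv, hf, ⟨val4_pid hf hv, fun k => ?_, hf.cjcj, fun k hk => ?_⟩, fun b => ?_,
    fun a => ?_, fun r hr H => ?_, fun b hb h0 k => ?_, fun m _ M W han ξ hM hL hm i => ?_⟩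
  · by_cases hk : k = 0
    · exact Or.inl (Or.inl hk)
    · rcases le_total 0 (v k) with h1 | h1
      · exact Or.inl (Or.inr h1)
      · exact Or.inr (Or.inr (by rw [val4_inv hv hk]; omega))
  · by_cases h0 : k = 0
    · exact Or.inl (by simp [h0])
    · exact Or.inr (by rw [val4_cj h hf hv h0]; exact Or.resolve_left hk h0)
  · have := val4_ge0 hf hv (Finsupp.single b 1)
    rwa [val4_single, map_one, one_mul] at this
  · have := val4_ge0 hf hv (Finsupp.single 0 a)
    rwa [val4_single, hf.e0, mul_one] at this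
  · by_contra hn
    have h1 : val4_ge v (1 : ℕ) (evK e ι r) := (val4_mO hf hv _).1 ⟨val4_ge0 hf hv r, hn⟩
    obtain ⟨b, hb⟩ := Finsupp.support_nonempty_iff.2 hr
    have h2 := (val4_geev hf hv r 1).1 h1 0 one_pos b
    rw [Finsupp.sum, Finset.sum_eq_single_of_mem b hb
      (fun b' hb' hne => if_neg fun h3 => hne (H b' hb' b hb h3)), sub_self, if_pos B0.zero_mem,
      h.th0, pow_zero, mul_one, mul_one] at h2
    exact Finsupp.mem_support_iff.1 hb h2
  · obtain ⟨h1, h2⟩ := val4_unif h hf hv hb h0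
    rw [val4_mO]
    constructor
    · intro h3
      have h4 := val4_gemul hv (Or.inr (val4_inv hv h1).ge) h3
      rw [h2, neg_add_cancel] at h4
      exact ⟨_, h4, (mul_inv_cancel_left₀ h1 k).symm⟩
    · rintro ⟨k', hk', rfl⟩
      exact val4_gemul hv (Or.inr h2.ge) hk'
  · obtain ⟨d, hd, H⟩ := val4_den hf (Finset.univ.image ξ)
    choose κ hκ using fun j => H (ξ j) (Finset.mem_image_of_mem ξ (Finset.mem_univ j))
    obtain ⟨R, hR⟩ := Int.eq_ofNat_of_zero_le ((val4_ge0 hf hv d).resolve_left hd)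
    have h1 : ∀ b, M.mulVec (fun j => κ j b) = 0 := by
      intro b
      funext j
      have h2 : ∑ l, M j l • κ l = 0 := by
        refine hf.indep _ ?_
        have h3 : ∑ l, ι (M j l) * ξ l = 0 := congrFun hM j
        change val4_ev e ι _ = 0
        rw [map_sum, ← zero_mul (evK e ι d), ← h3, Finset.sum_mul]
        refine Finset.sum_congr rfl fun l _ => ?_
        rw [mul_assoc, hκ]
        exact val4_smul _ _
      have h3 := congrArg (fun r : B →₀ Ω => r b) h2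
      simpa [Finsupp.finsetSum_apply, Matrix.mulVec, dotProduct] using h3
    have h2 : ∀ j, Mom B0 ℓ θ (κ j) R := by
      intro j
      have h3 := val4_gemul hv (hL j) (Or.inr hR.ge)
      rwa [zero_add, hκ, val4_geev hf hv] at h3
    have h3 : Mom B0 ℓ θ (herm cj0 W κ) (2 * R + 1) := by
      have h4 := val4_gemul hv (val4_gemul hv ((val4_mO hf hv _).1 hm) (Or.inr hR.ge))
        (Or.inr ((val4_cj h hf hv hd).trans hR).ge)
      have e1 : (cj ∘ ξ) ⬝ᵥ (W.map ι).mulVec ξ * evK e ι d * cj (evK e ι d) =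
          evK e ι (herm cj0 W κ) := by
        rw [val4_herm hf]
        simp only [Matrix.mulVec, dotProduct, Finset.sum_mul, Finset.mul_sum, ← hκ, map_mul,
          Function.comp, Matrix.map_apply]
        exact Finset.sum_congr rfl fun i _ => Finset.sum_congr rfl fun j _ => by ring
      rw [e1] at h4
      refine (val4_geev hf hv _ _).1 ?_
      convert h4 using 1
      push_cast
      ring
    have h4 := (val4_geev hf hv _ _).2 (val3 h M W han κ h1 R h2 h3 i)
    rw [val4_mO]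
    refine val4_gediv hv hd ?_
    rw [hκ, hR]
    convert h4 using 1
    push_cast
    ring

theorem exVal (h : VD cj0 B0 ℓ θ) :
    ∃ (K : Type) (_ : Field K) (O : Subring K) (cj : K →+* K) (e : B → K) (ι : Ω →+* K),
      VK cj0 B0 θ O cj e ι := by
  obtain ⟨K, _, cj, e, ι, v, hf, hv⟩ := val2 h
  obtain ⟨O, hO⟩ := val4 h hf hv
  exact ⟨K, _, O, cj, e, ι, hO⟩

end Pool.Agent.AS
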