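import Pool.Agent.Lib.MP_dae8ad_gt.A.WittDec

namespace Pool.Agent.AS

open Matrix

section
variable {K : Type} [Field K] {O : Subring K} {cj : K →+* K}

/-- Entries in `O` and fixed by the involution. -/
def wittFin1_R (O : Subring K) (cj : K →+* K) {p q : Type} (A : Matrix p q K) : Prop :=
  ∀ i j, A i j ∈ O ∧ cj (A i j) = A i j

theorem wittFin1_dot {q : Type} [Fintype q] {x y : q → K} (hx : inL O x) (hy : inL O y) :
    x ⬝ᵥ y ∈ O :=
  O.sum_mem fun j _ => O.mul_mem (hx j) (hy j)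

theorem wittFin1_mv {p q : Type} [Fintype q] {A : Matrix p q K} (hA : wittFin1_R O cj A)
    {x : q → K} (hx : inL O x) : inL O (A.mulVec x) := fun i =>
  wittFin1_dot (fun j => (hA i j).1) hx

theorem wittFin1_cjmv {p q : Type} [Fintype q] {A : Matrix p q K} (hA : wittFin1_R O cj A)
    (x : q → K) : cj ∘ A.mulVec x = A.mulVec (cj ∘ x) := by
  funext i
  simp [mulVec, dotProduct, map_sum, fun j => (hA i j).2]

theorem wittFin1_T {p q : Type} {A : Matrix p q K} (hA : wittFin1_R O cj A) :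
    wittFin1_R O cj Aᵀ := fun i j => hA j i

theorem wittFin1_add {q : Type} {x y : q → K} (hx : inL O x) (hy : inL O y) : inL O (x + y) :=
  fun i => O.add_mem (hx i) (hy i)

theorem wittFin1_sub {q : Type} {x y : q → K} (hx : inL O x) (hy : inL O y) : inL O (x - y) :=
  fun i => O.sub_mem (hx i) (hy i)

theorem wittFin1_smul {q : Type} {c : K} {x : q → K} (hc : c ∈ O) (hx : inL O x) :
    inL O (c • x) := fun i => O.mul_mem hc (hx i)

theorem wittFin1_cjL (hv : VR O cj) {q : Type} {x : q → K} (hx : inL O x) : inL O (cj ∘ x) :=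
  fun i => hv.cj_mem _ (hx i)

theorem wittFin1_sh {q : Type} [Fintype q] [DecidableEq q] (M : Matrix q q K) (ν : K)
    (x : q → K) : (M - ν • (1 : Matrix q q K)).mulVec x = M.mulVec x - ν • x := by
  rw [sub_mulVec, smul_mulVec, one_mulVec]

theorem wittFin1_dotT {p q : Type} [Fintype p] [Fintype q] (A : Matrix p q K) (x : q → K)
    (y : p → K) : A.mulVec x ⬝ᵥ y = x ⬝ᵥ Aᵀ.mulVec y := by
  rw [dotProduct_mulVec, vecMul_transpose]

theorem wittFin1_core {n : Type} [Fintype n] [DecidableEq n] {a m : ℕ} (E : WM n a m K)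
    (hE : E.OK) (hv : VR O cj) (r1 : wittFin1_R O cj E.om) (r2 : wittFin1_R O cj E.omi)
    (r3 : wittFin1_R O cj E.C) (r4 : wittFin1_R O cj E.Y) (r6 : wittFin1_R O cj E.Z)
    (r7 : wittFin1_R O cj E.Zq) (r8 : wittFin1_R O cj E.Zp) (r11 : wittFin1_R O cj E.C2)
    (ν : K) (hν : ν ∈ O) (hcj : cj ν = -ν) (hdet : (E.C - ν • (1 : Matrix n n K)).det ≠ 0)
    (I : Set (n → K))
    (hI : ∀ x, x ∈ I ↔ inL O (E.C.mulVec x - ν • x) ∧
      ∀ y ∈ I, (cj ∘ (E.C.mulVec y - ν • y)) ⬝ᵥ E.om.mulVec x ∈ O)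
    (han : ∀ x : Fin m → K, inL O (E.C0.mulVec x - ν • x) →
      (cj ∘ (E.C0.mulVec x - ν • x)) ⬝ᵥ E.w0.mulVec x ∈ O → inL O x)
    (x : Fin m → K) (hx : inL O (E.C0.mulVec x - ν • x)) : inL O x := by
  obtain ⟨A, hA⟩ : ∃ A : (n → K) → n → K, ∀ y, A y = E.C.mulVec y - ν • y := ⟨_, fun _ => rfl⟩
  obtain ⟨B, hB⟩ : ∃ B : (Fin a → K) → Fin a → K, ∀ y, B y = E.C1.mulVec y - ν • y :=
    ⟨_, fun _ => rfl⟩
  obtain ⟨b, hb⟩ : ∃ b : (n → K) → (n → K) → K, ∀ y x, b y x = (cj ∘ A y) ⬝ᵥ E.om.mulVec x :=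
    ⟨_, fun _ _ => rfl⟩
  simp only [← hA, ← hb] at hI
  have sk : ∀ v w : n → K, v ⬝ᵥ E.om.mulVec w = -(w ⬝ᵥ E.om.mulVec v) := fun v w => by
    rw [dotProduct_comm v, wittFin1_dotT, hE.skew, neg_mulVec, dotProduct_neg]
  have adj : ∀ v w : n → K, E.C.mulVec v ⬝ᵥ E.om.mulVec w =
      -(v ⬝ᵥ E.om.mulVec (E.C.mulVec w)) := fun v w => by
    rw [wittFin1_dotT, mulVec_mulVec, mulVec_mulVec, eq_neg_iff_add_eq_zero, ← dotProduct_add,
      ← add_mulVec, add_comm, hE.adj, zero_mulVec, dotProduct_zero]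
  have cjA : ∀ y, cj ∘ A y = E.C.mulVec (cj ∘ y) + ν • (cj ∘ y) := fun y => by
    rw [hA, ← wittFin1_cjmv r3]
    funext i
    simp [hcj]
  have sym : ∀ y x, b x y = cj (b y x) := fun y x => by
    have e : cj (b y x) = A y ⬝ᵥ E.om.mulVec (cj ∘ x) := by
      rw [hb, ← wittFin1_cjmv r1]
      simp [dotProduct, map_sum, hv.cj_cj]
    rw [e, hb, cjA, hA, sub_dotProduct, adj, sk _ y, mulVec_add, dotProduct_add, mulVec_smul,
      dotProduct_smul, smul_dotProduct]
    ring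
  have Aadd : ∀ v w, A (v + w) = A v + A w := fun v w => by
    simp only [hA, mulVec_add, smul_add]; abel
  have Asub : ∀ v w, A (v - w) = A v - A w := fun v w => by
    simp only [hA, mulVec_sub, smul_sub]; abel
  have Asm : ∀ (c : K) v, A (c • v) = c • A v := fun c v => by
    simp only [hA, mulVec_smul, smul_sub, smul_comm c ν]
  have AL : ∀ v, inL O v → inL O (A v) := fun v h => by
    rw [hA]; exact wittFin1_sub (wittFin1_mv r3 h) (wittFin1_smul hν h)
  have AY : ∀ w, A (E.Y.mulVec w) = E.Y.mulVec (B w) := fun w => by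
    rw [hA, hB, mulVec_mulVec, hE.cy, ← mulVec_mulVec, mulVec_sub, mulVec_smul]
  have AZ : ∀ w, A (E.Z.mulVec w) =
      E.Z.mulVec (E.C0.mulVec w - ν • w) + E.Y.mulVec (E.C2.mulVec w) := fun w => by
    rw [hA, mulVec_mulVec, hE.cz, add_mulVec, ← mulVec_mulVec, ← mulVec_mulVec, mulVec_sub,
      mulVec_smul]
    abel
  have bL : ∀ y l, inL O (A y) → inL O l → b y l ∈ O := fun y l hy hl => by
    rw [hb]; exact wittFin1_dot (wittFin1_cjL hv hy) (wittFin1_mv r1 hl)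
  have bs : ∀ y x, b y x ∈ O → b x y ∈ O := fun y x h => by rw [sym]; exact hv.cj_mem _ h
  have badd : ∀ y v w, b y (v + w) = b y v + b y w := fun y v w => by
    simp only [hb, mulVec_add, dotProduct_add]
  have bsub : ∀ y v w, b y (v - w) = b y v - b y w := fun y v w => by
    simp only [hb, mulVec_sub, dotProduct_sub]
  have bY : ∀ w x, b (E.Y.mulVec w) x = (cj ∘ B w) ⬝ᵥ E.Yᵀ.mulVec (E.om.mulVec x) := fun w x => by
    rw [hb, AY, wittFin1_cjmv r4, wittFin1_dotT]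
  have yy : ∀ w, E.Yᵀ.mulVec (E.om.mulVec (E.Y.mulVec w)) = 0 := fun w => by
    rw [mulVec_mulVec, mulVec_mulVec, hE.yy, zero_mulVec]
  have yz : ∀ w, E.Yᵀ.mulVec (E.om.mulVec (E.Z.mulVec w)) = 0 := fun w => by
    rw [mulVec_mulVec, mulVec_mulVec, hE.yz, zero_mulVec]
  have li : ∀ w, E.Zpᵀ.mulVec (E.omᵀ.mulVec (E.Y.mulVec w)) = w := fun w => by
    have := congrArg transpose hE.yp
    rw [transpose_mul, transpose_mul, transpose_transpose, transpose_one] at this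
    rw [mulVec_mulVec, mulVec_mulVec, Matrix.mul_assoc, this, one_mulVec]
  have YL : ∀ w, inL O (E.Y.mulVec w) → inL O w := fun w h => by
    rw [← li w]
    exact wittFin1_mv (wittFin1_T r8) (wittFin1_mv (wittFin1_T r1) h)
  have qz : ∀ w, E.Zq.mulVec (E.Z.mulVec w) = w := fun w => by
    rw [mulVec_mulVec, hE.qz, one_mulVec]
  have qy : ∀ w, E.Zq.mulVec (E.Y.mulVec w) = 0 := fun w => by
    rw [mulVec_mulVec, hE.qy, zero_mulVec]
  have hU : IsUnit (E.C - ν • (1 : Matrix n n K)) :=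
    (isUnit_iff_isUnit_det _).2 (isUnit_iff_ne_zero.2 hdet)
  have Asurj : ∀ z, ∃ y, A y = z := fun z => by
    obtain ⟨y, hy⟩ := mulVec_surjective_iff_isUnit.2 hU z
    exact ⟨y, by rw [hA, ← wittFin1_sh, hy]⟩
  have Bsurj : ∀ z, ∃ y, B y = z := fun z => by
    have hinj : Function.Injective (E.C1 - ν • (1 : Matrix _ _ K)).mulVec := fun v w h => by
      rw [wittFin1_sh, wittFin1_sh, ← hB, ← hB] at h
      have h2 : E.Y.mulVec v = E.Y.mulVec w := mulVec_injective_iff_isUnit.2 hU (by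
        rw [wittFin1_sh, wittFin1_sh, ← hA, ← hA, AY, AY, h])
      rw [← li v, h2, li]
    obtain ⟨y, hy⟩ := mulVec_surjective_iff_isUnit.2 (mulVec_injective_iff_isUnit.1 hinj) z
    exact ⟨y, by rw [hB, ← wittFin1_sh, hy]⟩
  have c1 : ∀ x, inL O (A x) → inL O (E.Yᵀ.mulVec (E.om.mulVec x)) → b x x ∈ O →
      ∃ l w, inL O l ∧ inL O (B w) ∧ x = l + E.Y.mulVec w := fun x h1 h2 h3 => by
    obtain ⟨l0, hl0⟩ : ∃ l0, l0 = E.Zp.mulVec (E.Yᵀ.mulVec (E.om.mulVec x)) := ⟨_, rfl⟩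
    obtain ⟨x1, hx1⟩ : ∃ x1, x1 = E.Yp.mulVec x := ⟨_, rfl⟩
    obtain ⟨x2, hx2⟩ : ∃ x2, x2 = E.Zq.mulVec x := ⟨_, rfl⟩
    have l0L : inL O l0 := hl0 ▸ wittFin1_mv r8 h2
    have e : x - l0 = E.Y.mulVec x1 + E.Z.mulVec x2 := by
      rw [sub_eq_iff_eq_add, hl0, hx1, hx2]
      simp only [mulVec_mulVec, ← add_mulVec, hE.res, one_mulVec]
    have t : inL O (A (x - l0)) := by rw [Asub]; exact wittFin1_sub h1 (AL _ l0L)
    have e2 : A (x - l0) = E.Y.mulVec (B x1 + E.C2.mulVec x2) +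
        E.Z.mulVec (E.C0.mulVec x2 - ν • x2) := by
      rw [e, Aadd, AY, AZ, mulVec_add]; abel
    have t2 : inL O (E.C0.mulVec x2 - ν • x2) := by
      have := wittFin1_mv r7 t
      rwa [e2, mulVec_add, qy, qz, zero_add] at this
    have b1 : b (x - l0) (x - l0) ∈ O := by
      rw [bsub]
      refine O.sub_mem (bs _ _ ?_) (bL _ _ t l0L)
      rw [bsub]
      exact O.sub_mem h3 (bL _ _ h1 l0L)
    have b2 : b (x - l0) (x - l0) =
        (cj ∘ (E.C0.mulVec x2 - ν • x2)) ⬝ᵥ E.w0.mulVec x2 := by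
      have ca : ∀ v w : n → K, cj ∘ (v + w) = cj ∘ v + cj ∘ w := fun v w => by
        funext i; simp
      rw [hb, e2, ca, wittFin1_cjmv r4, wittFin1_cjmv r6, e, add_dotProduct, wittFin1_dotT,
        mulVec_add, mulVec_add, yy, yz, add_zero, dotProduct_zero, zero_add, dotProduct_add,
        sk _ (E.Y.mulVec x1), wittFin1_dotT E.Y, yz, dotProduct_zero, neg_zero, zero_add,
        wittFin1_dotT, mulVec_mulVec, mulVec_mulVec, WM.w0]
    have x2L : inL O x2 := han x2 t2 (b2 ▸ b1)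
    refine ⟨l0 + E.Z.mulVec x2, x1, wittFin1_add l0L (wittFin1_mv r6 x2L), ?_, ?_⟩
    · have h5 := wittFin1_sub t (wittFin1_mv r6 t2)
      rw [e2, add_sub_cancel_right] at h5
      have h6 := wittFin1_sub (YL _ h5) (wittFin1_mv r11 x2L)
      rwa [add_sub_cancel_right] at h6
    · rw [sub_eq_iff_eq_add.1 e]; abel
  have IL : ∀ l, inL O l → l ∈ I := fun l h =>
    (hI l).2 ⟨AL l h, fun y hy => bL y l ((hI y).1 hy).1 h⟩
  obtain ⟨w0, hw0⟩ := Bsurj (E.C2.mulVec x)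
  obtain ⟨X, hX⟩ : ∃ X, X = E.Z.mulVec x - E.Y.mulVec w0 := ⟨_, rfl⟩
  have XT : inL O (A X) := by
    rw [hX, Asub, AZ, AY, hw0, add_sub_cancel_right]
    exact wittFin1_mv r6 hx
  have XN : E.Yᵀ.mulVec (E.om.mulVec X) = 0 := by
    rw [hX, mulVec_sub, mulVec_sub, yy, yz, sub_zero]
  let S : Submodule O (n → K) :=
    { carrier := {s | ∃ i ∈ I, ∃ w, inL O (B w) ∧ s = i + E.Y.mulVec w}
      add_mem' := by
        rintro _ _ ⟨i, hi, w, hw, rfl⟩ ⟨i', hi', w', hw', rfl⟩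
        refine ⟨i + i', (hI _).2 ⟨?_, fun y hy => ?_⟩, w + w', ?_, ?_⟩
        · rw [Aadd]; exact wittFin1_add ((hI _).1 hi).1 ((hI _).1 hi').1
        · rw [badd]; exact O.add_mem (((hI _).1 hi).2 y hy) (((hI _).1 hi').2 y hy)
        · have : B (w + w') = B w + B w' := by simp only [hB, mulVec_add, smul_add]; abel
          rw [this]; exact wittFin1_add hw hw'
        · rw [mulVec_add]; abel
      zero_mem' := ⟨0, IL 0 fun _ => O.zero_mem, 0, by
        rw [hB, mulVec_zero, smul_zero, sub_zero]; exact fun _ => O.zero_mem, by simp⟩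
      smul_mem' := by
        rintro c _ ⟨i, hi, w, hw, rfl⟩
        refine ⟨(c : K) • i, (hI _).2 ⟨?_, fun y hy => ?_⟩, (c : K) • w, ?_, ?_⟩
        · rw [Asm]; exact wittFin1_smul c.2 ((hI _).1 hi).1
        · have : b y ((c : K) • i) = c * b y i := by
            simp only [hb, mulVec_smul, dotProduct_smul, smul_eq_mul]
          rw [this]; exact O.mul_mem c.2 (((hI _).1 hi).2 y hy)
        · have : B ((c : K) • w) = (c : K) • B w := by
            simp only [hB, mulVec_smul, smul_sub, smul_comm (c : K) ν]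
          rw [this]; exact wittFin1_smul c.2 hw
        · rw [mulVec_smul, ← smul_add]; rfl }
  have hA0 : ∀ i j, (E.C - ν • (1 : Matrix n n K)) i j ∈ O := fun i j => by
    rw [Matrix.sub_apply, Matrix.smul_apply, Matrix.one_apply, smul_eq_mul]
    refine O.sub_mem (r3 i j).1 (O.mul_mem hν ?_)
    split_ifs
    exacts [O.one_mem, O.zero_mem]
  have dT : ∀ s, inL O (A s) → inL O ((E.C - ν • (1 : Matrix n n K)).det • s) := fun s h => by
    have e : (E.C - ν • (1 : Matrix n n K)).det • s =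
        (E.C - ν • (1 : Matrix n n K)).adjugate.mulVec (A s) := by
      rw [hA, ← wittFin1_sh, mulVec_mulVec, adjugate_mul, smul_mulVec, one_mulVec]
    rw [e]
    exact fun i => wittFin1_dot (fun j => (det_mem _ hA0).2 i j) h
  have XS : X ∈ S := by
    refine bidual hv.pid S _ (det_mem _ hA0).1 hdet (fun y hy => ⟨y, IL y hy, 0, ?_, by simp⟩)
      ?_ X (dT X XT) fun z hz hs => ?_
    · rw [hB, mulVec_zero, smul_zero, sub_zero]; exact fun _ => O.zero_mem
    · rintro _ ⟨i, hi, w, hw, rfl⟩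
      refine dT _ ?_
      rw [Aadd, AY]
      exact wittFin1_add ((hI _).1 hi).1 (wittFin1_mv r4 hw)
    · obtain ⟨y, hy⟩ := Asurj (cj ∘ E.omiᵀ.mulVec z)
      have yT : inL O (A y) := hy ▸ wittFin1_cjL hv (wittFin1_mv (wittFin1_T r2) hz)
      have e : ∀ s, z ⬝ᵥ s = b y s := fun s => by
        have : cj ∘ cj ∘ E.omiᵀ.mulVec z = E.omiᵀ.mulVec z := funext fun i => hv.cj_cj _
        rw [hb, hy, this, wittFin1_dotT, transpose_transpose, mulVec_mulVec,
          mul_eq_one_comm.1 hE.inv, one_mulVec]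
      simp only [e] at hs ⊢
      have yI : y ∈ I := (hI y).2 ⟨yT, fun i hi => bs _ _ (hs i ⟨i, hi, 0, by
        rw [hB, mulVec_zero, smul_zero, sub_zero]; exact fun _ => O.zero_mem, by simp⟩)⟩
      have yN : inL O (E.Yᵀ.mulVec (E.om.mulVec y)) := fun j => by
        obtain ⟨w, hw⟩ := Bsurj (Pi.single j 1)
        have wL : inL O (B w) := fun k => by
          rw [hw, Pi.single_apply]
          split_ifs
          exacts [O.one_mem, O.zero_mem]
        have h1 := bs _ _ (hs (E.Y.mulVec w) ⟨0, IL 0 fun _ => O.zero_mem, w, wL, by simp⟩)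
        have h2 : cj ∘ (Pi.single j 1 : Fin a → K) = Pi.single j 1 := funext fun k => by
          simp [Pi.single_apply, apply_ite cj]
        rwa [bY, hw, h2, single_dotProduct, one_mul] at h1
      obtain ⟨l, w, hl, hw, rfl⟩ := c1 y yT yN (((hI y).1 yI).2 y yI)
      refine bs _ _ ?_
      rw [badd]
      refine O.add_mem (bL _ _ XT hl) (bs _ _ ?_)
      rw [bY, XN, dotProduct_zero]
      exact O.zero_mem
  obtain ⟨i, hi, w, -, e⟩ := XS
  have iN : inL O (E.Yᵀ.mulVec (E.om.mulVec i)) := by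
    rw [e, mulVec_add, mulVec_add, yy, add_zero] at XN
    rw [XN]; exact fun _ => O.zero_mem
  obtain ⟨l, w', hl, -, rfl⟩ := c1 i ((hI i).1 hi).1 iN (((hI i).1 hi).2 i hi)
  have e2 := congrArg E.Zq.mulVec (hX.symm.trans e)
  rw [mulVec_sub, qz, qy, sub_zero, mulVec_add, mulVec_add, qy, qy, add_zero, add_zero] at e2
  rw [e2]
  exact wittFin1_mv r7 hl

theorem wittFin1_map [CharZero K] {p q : Type} (A : Matrix p q ℚ) :
    rq K A = A.map (Rat.castHom K) := rfl

theorem wittFin1_ok [CharZero K] {n : Type} [Fintype n] [DecidableEq n] {a m : ℕ}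
    (D : WM n a m ℚ) (hD : D.OK) :
    (⟨rq K D.om, rq K D.omi, rq K D.C, rq K D.Y, rq K D.Yp, rq K D.Z, rq K D.Zq, rq K D.Zp,
      rq K D.C1, rq K D.C0, rq K D.C2⟩ : WM n a m K).OK := by
  have z : ∀ p q : Type, (0 : Matrix p q ℚ).map (Rat.castHom K) = 0 := fun p q =>
    Matrix.map_zero _ (map_zero _)
  have o : ∀ (p : Type) [DecidableEq p], (1 : Matrix p p ℚ).map (Rat.castHom K) = 1 :=
    fun p _ => Matrix.map_one _ (map_zero _) (map_one _)
  have ad : ∀ (p q : Type) (A B : Matrix p q ℚ), A.map (Rat.castHom K) + B.map (Rat.castHom K) =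
      (A + B).map (Rat.castHom K) := fun p q A B => (Matrix.map_add _ (map_add _) A B).symm
  constructor <;> simp only [wittFin1_map, ← transpose_map, ← Matrix.map_mul, ad]
  · rw [hD.skew]; ext i j; simp
  · rw [hD.inv, o]
  · rw [hD.adj, z]
  · rw [hD.yy, z]
  · rw [hD.yz, z]
  · rw [hD.yp, o]
  · rw [hD.res, o]
  · rw [hD.cy]
  · rw [hD.cz]
  · rw [hD.qz, o]
  · rw [hD.qy, z]

end

/-- Sublagrangian reduction.  All matrices are rational: entries in `O`, fixed by `cj`, and the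
identities of `D.OK` pass to `K` (`rq` is a ring map on matrices).  Write `A0 = C - ν`,
`T = {x | A0 x ∈ L}`, `b y x = cj (A0 y) ⬝ om x`; `bf = - c0 cj u * b`, `b x y = ± cj (b y x)`,
`b l x ∈ O` for `l ∈ L`.  `N = L + {Y y | (C1 - ν) y ∈ L}` is isotropic, `N' = {x ∈ T | b n x ∈ O
for n ∈ N} = {x ∈ T | Yᵀ om x ∈ L}` (`C1 - ν` is onto: `det (C - ν) ≠ 0`, `Y` is injective by `yp`).
For `x ∈ N'` with `b x x ∈ O`: subtract `Zp Yᵀ om x ∈ L`, write the rest as `Y x1 + Z x2`; then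
`(C0 - ν) x2 ∈ L` (apply `Zq`), `b` is `cj ((C0 - ν) x2) ⬝ w0 x2` modulo `O`, so `x2 ∈ L` by `han`
and `x ∈ N` (`(C1 - ν) x1 ∈ L`: apply the left inverse `Zpᵀ omᵀ` of `Y`).  `I` is an `O`-module
between `L` and `T`.  For `x ∈ N'`, `bidual` with `S = I + N`, `d = det A0` gives `x = i + n`
(every `z ∈ L` is `omᵀ cj (A0 y)` for some `y ∈ T`; if `y ⊥ I + N` then `y ∈ I ∩ N'`, so `y ∈ N`);
`i ∈ I ∩ N' ≤ N`.  Finally for `x2` take `x = Z x2 - Y (C1 - ν)⁻¹ C2 x2 ∈ N' = N`, apply `Zq`. -/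
theorem wittFin1 {n : Type} [Fintype n] [DecidableEq n] {a m : ℕ} (D : WM n a m ℚ) (hD : D.OK)
    {K : Type} [Field K] [CharZero K] {O : Subring K} {cj : K →+* K} (hv : VR O cj)
    (hq : ∀ q : ℚ, (q : K) ∈ O) (ν u c0 : K) (hν : ν ∈ O) (hcj : cj ν = -ν)
    (hdet : (rq K D.C - ν • (1 : Matrix n n K)).det ≠ 0) (hu : unitO O u) (hc : unitO O c0)
    (I : Set (n → K))
    (hI : Lagr O cj (u • (rq K D.om * (rq K D.C - ν • (1 : Matrix n n K)))) (fun _ => c0) I)
    (han : ∀ x : Fin m → K, inL O ((rq K D.C0 - ν • (1 : Matrix _ _ K)).mulVec x) →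
      (cj ∘ (rq K D.C0 - ν • (1 : Matrix _ _ K)).mulVec x) ⬝ᵥ (rq K D.w0).mulVec x ∈ O → inL O x)
    (x : Fin m → K) (hx : inL O ((rq K D.C0 - ν • (1 : Matrix _ _ K)).mulVec x)) : inL O x := by
  have hE := wittFin1_ok (K := K) D hD
  have r : ∀ {p q : Type} (A : Matrix p q ℚ), wittFin1_R O cj (rq K A) := fun A i j =>
    ⟨hq _, map_ratCast cj _⟩
  have ew : rq K D.w0 = (rq K D.Z)ᵀ * rq K D.om * rq K D.Z := by
    simp only [wittFin1_map, ← transpose_map, ← Matrix.map_mul, WM.w0]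
  simp only [wittFin1_sh, ew] at han hx
  refine wittFin1_core _ hE hv (r _) (r _) (r _) (r _) (r _) (r _) (r _) (r _) ν hν hcj hdet I
    (fun x => ?_) han x hx
  have un : ∀ {c : K}, unitO O c → ∀ k, c * k ∈ O ↔ k ∈ O := fun {c} h k =>
    ⟨fun h2 => by
      have := O.mul_mem h.2.1 h2
      rwa [inv_mul_cancel_left₀ h.2.2] at this, fun h2 => O.mul_mem h.1 h2⟩
  rw [hI x]
  refine and_congr ?_ (forall₂_congr fun y _ => ?_)
  · rw [smul_mulVec, ← mulVec_mulVec, wittFin1_sh]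
    refine ⟨fun h => ?_, fun h => wittFin1_smul hu.1 (wittFin1_mv (r _) h)⟩
    have h1 : inL O ((rq K D.om).mulVec ((rq K D.C).mulVec x - ν • x)) := fun i =>
      (un hu _).1 (h i)
    have h2 := wittFin1_mv (r D.omi) h1
    have h3 : rq K D.omi * rq K D.om = 1 := mul_eq_one_comm.1 hE.inv
    have h4 : ∀ v : n → K, (rq K D.omi).mulVec ((rq K D.om).mulVec v) = v := fun v => by
      rw [mulVec_mulVec, h3, one_mulVec]
    rwa [h4] at h2
  · have sk : (rq K D.om)ᵀ = -rq K D.om := hE.skew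
    have e : bf cj (u • (rq K D.om * (rq K D.C - ν • (1 : Matrix n n K)))) (fun _ => c0) y x =
        c0 * cj u * ((cj ∘ (rq K D.om).mulVec ((rq K D.C).mulVec y - ν • y)) ⬝ᵥ x) := by
      rw [bf, smul_mulVec, ← mulVec_mulVec, wittFin1_sh, dotProduct, Finset.mul_sum]
      refine Finset.sum_congr rfl fun i _ => ?_
      simp only [Pi.smul_apply, smul_eq_mul, map_mul, Function.comp_apply]
      ring
    rw [e, un (unitO_mul hc ((unitO_cj hv).2 hu)), wittFin1_cjmv (r _), wittFin1_dotT, sk,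
      neg_mulVec, dotProduct_neg, neg_mem_iff]

end Pool.Agent.AS
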