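import Pool.Agent.Lib.MP_dae8ad_gt.A.WittDec

namespace Pool.Agent.AS

open Matrix

variable {m : Type} [Fintype m] [DecidableEq m] {w C : Matrix m m ℚ}

omit [Fintype m] [DecidableEq m] in
theorem wittFin2_map {R S : Type} [Field R] [CharZero R] [Field S] [CharZero S] (f : R →+* S)
    (A : Matrix m m ℚ) : (rq R A).map f = rq S A := by
  ext i j
  simp [rq]

omit [DecidableEq m] in
theorem wittFin2_cj {R : Type} [Field R] [CharZero R] (cj : R →+* R) (A : Matrix m m ℚ)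
    (x : m → R) : cj ∘ (rq R A).mulVec x = (rq R A).mulVec (cj ∘ x) := by
  ext i
  rw [Function.comp_apply, RingHom.map_mulVec, wittFin2_map]

theorem wittFin2_adj {R : Type} [Field R] [CharZero R] {cj : R →+* R} {ν : R} (hν : cj ν = -ν)
    (hC : w * C + Cᵀ * w = 0) (x y : m → R) :
    (cj ∘ (rq R C - ν • (1 : Matrix m m R)).mulVec x) ⬝ᵥ (rq R w).mulVec y =
      -((cj ∘ x) ⬝ᵥ (rq R w).mulVec ((rq R C - ν • (1 : Matrix m m R)).mulVec y)) := by
  have h1 : (rq R C)ᵀ * rq R w = -(rq R w * rq R C) := by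
    have h2 := congrArg (fun A : Matrix m m ℚ => A.map (Rat.castHom R)) hC
    simp only [Matrix.map_add, Matrix.map_mul, map_add, implies_true, map_zero,
      Matrix.map_zero] at h2
    rw [eq_neg_iff_add_eq_zero, add_comm]
    exact h2
  have h3 : cj ∘ (rq R C - ν • (1 : Matrix m m R)).mulVec x =
      (rq R C).mulVec (cj ∘ x) + ν • (cj ∘ x) := by
    rw [← wittFin2_cj, sub_mulVec, smul_mulVec, one_mulVec]
    ext i
    simp [hν]
  rw [h3, add_dotProduct, smul_dotProduct, sub_mulVec, smul_mulVec, one_mulVec, mulVec_sub,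
    mulVec_smul, dotProduct_sub, dotProduct_smul, mulVec_mulVec, ← vecMul_transpose,
    ← dotProduct_mulVec, mulVec_mulVec, h1, neg_mulVec, dotProduct_neg]
  ring

omit [DecidableEq m] in
theorem wittFin2_mulVec {K : Type} [Field K] {O : Subring K} {A : Matrix m m K}
    (hA : ∀ i j, A i j ∈ O) {x : m → K} (hx : inL O x) : inL O (A.mulVec x) :=
  fun i => O.sum_mem fun j _ => O.mul_mem (hA i j) (hx j)

omit [DecidableEq m] in
theorem wittFin2_dot {K : Type} [Field K] {O : Subring K} {x y : m → K} (hx : inL O x)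
    (hy : inL O y) : x ⬝ᵥ y ∈ O :=
  O.sum_mem fun j _ => O.mul_mem (hx j) (hy j)

theorem wittFin2_pow {K : Type} [Field K] {O : Subring K} {A : Matrix m m K}
    (hA : ∀ i j, A i j ∈ O) {ν : K} (hν : ν ∈ O) {x : m → K}
    (hx : inL O ((A - ν • (1 : Matrix m m K)).mulVec x)) (n : ℕ) :
    inL O ((A ^ n).mulVec x - ν ^ n • x) := by
  induction n with
  | zero => intro i; simp
  | succ n ih =>
    have e : (A ^ (n + 1)).mulVec x - ν ^ (n + 1) • x = A.mulVec ((A ^ n).mulVec x - ν ^ n • x) +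
        ν ^ n • (A - ν • (1 : Matrix m m K)).mulVec x := by
      rw [mulVec_sub, mulVec_mulVec, ← pow_succ', mulVec_smul, sub_mulVec, smul_mulVec,
        one_mulVec, smul_sub, smul_smul, ← pow_succ]
      abel
    rw [e]
    exact fun i => O.add_mem (wittFin2_mulVec hA ih i) (O.mul_mem (O.pow_mem hν n) (hx i))

theorem wittFin2_poly {Ω K : Type} [Field Ω] [Field K] {O : Subring K} (ι : Ω →+* K)
    (imem : ∀ a, ι a ∈ O) (A : Matrix m m Ω) {ν : K} (hν : ν ∈ O) {x : m → K}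
    (hx : inL O ((A.map ι - ν • (1 : Matrix m m K)).mulVec x)) (P : Polynomial Ω) :
    inL O (((Polynomial.aeval A P).map ι).mulVec x - P.eval₂ ι ν • x) := by
  induction P using Polynomial.induction_on' with
  | add p q hp hq =>
    rw [map_add, Matrix.map_add _ (map_add ι), add_mulVec, Polynomial.eval₂_add, add_smul,
      add_sub_add_comm]
    exact fun i => O.add_mem (hp i) (hq i)
  | monomial n a =>
    have e : (Polynomial.aeval A (Polynomial.monomial n a)).map ι = ι a • (A.map ι) ^ n := by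
      rw [Polynomial.aeval_monomial, ← Algebra.smul_def, ← Matrix.map_pow]
      ext i j
      simp
    rw [e, Polynomial.eval₂_monomial, smul_mulVec, mul_smul, ← smul_sub]
    exact fun i => O.mul_mem (imem a) (wittFin2_pow (fun i j => imem _) hν hx n i)

theorem wittFin2_ev {Ω K : Type} [Field Ω] [Field K] {O : Subring K} (ι : Ω →+* K)
    (imem : ∀ a, ι a ∈ O) (ν0 : Ω) {ν : K} (hν : ν ∈ O) (P : Polynomial Ω) :
    ∃ s ∈ O, P.eval₂ ι ν = ι (P.eval ν0) + (ν - ι ν0) * s := by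
  induction P using Polynomial.induction_on with
  | C a => exact ⟨0, O.zero_mem, by simp⟩
  | add p q hp hq =>
    obtain ⟨s, hs, e⟩ := hp
    obtain ⟨t, ht, f⟩ := hq
    refine ⟨s + t, O.add_mem hs ht, ?_⟩
    rw [Polynomial.eval₂_add, Polynomial.eval_add, map_add, e, f]
    ring
  | monomial n a ih =>
    obtain ⟨s, hs, e⟩ := ih
    refine ⟨s * ν + ι ((Polynomial.C a * Polynomial.X ^ n).eval ν0),
      O.add_mem (O.mul_mem hs hν) (imem _), ?_⟩
    rw [pow_succ, ← mul_assoc, Polynomial.eval₂_mul, Polynomial.eval_mul, e, Polynomial.eval₂_X,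
      Polynomial.eval_X, map_mul]
    ring

/-- `ker (C - ν)² = ker (C - ν)` by anisotropy (for `ξ = (C - ν) ζ` we have
`cj ξ ⬝ w ξ = cj ζ ⬝ w (ν - C) ξ = 0`); write the characteristic polynomial as `(x - ν) ^ k * P`
with `P ν ≠ 0` and use Cayley-Hamilton. -/
theorem ex_mu {Ω : Type} [Field Ω] [CharZero Ω] {cj : Ω →+* Ω} {ν : Ω}
    (hC : w * C + Cᵀ * w = 0) (h : OmD w C cj ν) :
    ∃ P : Polynomial Ω, P.eval ν ≠ 0 ∧
      (rq Ω C - ν • (1 : Matrix m m Ω)) * Polynomial.aeval (rq Ω C) P = 0 := by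
  set A := rq Ω C - ν • (1 : Matrix m m Ω) with hA
  have h2 : ∀ ζ, A.mulVec (A.mulVec ζ) = 0 → A.mulVec ζ = 0 := by
    intro ζ hζ
    refine h.an _ ?_ ?_
    · have h3 := hζ
      rw [hA, sub_mulVec, smul_mulVec, one_mulVec, sub_eq_zero] at h3
      exact h3
    · rw [hA, wittFin2_adj h.cjnu hC, ← hA, hζ]
      simp
  have h4 : ∀ (k : ℕ) ζ, (A ^ k).mulVec ζ = 0 → A.mulVec ζ = 0 := by
    intro k
    induction k with
    | zero =>
      intro ζ hζ
      rw [pow_zero, one_mulVec] at hζ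
      rw [hζ, mulVec_zero]
    | succ k ih =>
      intro ζ hζ
      rw [pow_succ, ← mulVec_mulVec] at hζ
      exact h2 ζ (ih _ hζ)
  obtain ⟨P, hP, hd⟩ := Polynomial.exists_eq_pow_rootMultiplicity_mul_and_not_dvd
    (rq Ω C).charpoly (rq Ω C).charpoly_monic.ne_zero ν
  refine ⟨P, fun h0 => hd (Polynomial.dvd_iff_isRoot.2 h0), ?_⟩
  have h5 := Matrix.aeval_self_charpoly (rq Ω C)
  rw [hP, map_mul, map_pow, map_sub, Polynomial.aeval_X, Polynomial.aeval_C,
    Algebra.algebraMap_eq_smul_one, ← hA] at h5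
  refine Matrix.ext_iff_mulVec.2 fun v => ?_
  rw [← mulVec_mulVec, zero_mulVec]
  refine h4 _ _ (?_ : (A ^ Polynomial.rootMultiplicity ν (rq Ω C).charpoly).mulVec _ = 0)
  rw [mulVec_mulVec, h5, zero_mulVec]

/-- With `P` from `ex_mu`: `p = P(ν)` (through `ι`) is a unit of `O`; if `(C - ν) x ∈ L` then
`x' = P(C) x / p` differs from `x` by an element of `L`, `C x' = ι ν0 x'`, `ξ = (ι ν0 - ν) x' ∈ L`,
and the form at `x'` is `cj ξ ⬝ w ξ / (ι ν0 - ν)`, equal to the form at `x` modulo `O`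
(`cj ((C - ν) l) ⬝ w y = ± cj l ⬝ w (C - ν) y`).  So `ra` gives `ξ i ∈ mO`, `x' ∈ L`.  For the second
part take an eigenvector over `Ω` divided by `ι ν0 - ν`. -/
theorem wittFin2 {Ω K : Type} [Field Ω] [CharZero Ω] [Field K] [CharZero K] {cj0 : Ω →+* Ω}
    {ν0 : Ω} (hw : wᵀ = -w) (hC : w * C + Cᵀ * w = 0) (h : OmD w C cj0 ν0) {O : Subring K}
    {cj : K →+* K} (hv : VR O cj) (ι : Ω →+* K) (imem : ∀ a, ι a ∈ O)
    (ra : ∀ ξ : m → K, ((rq Ω C - ν0 • (1 : Matrix m m Ω)).map ι).mulVec ξ = 0 → inL O ξ →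
      mO O ((cj ∘ ξ) ⬝ᵥ ((rq Ω w).map ι).mulVec ξ) → ∀ i, mO O (ξ i))
    (ν : K) (hν : ν ∈ O) (hcj : cj ν = -ν) (hne : ν ≠ ι ν0)
    (hm : ∀ k, mO O k ↔ ∃ k' ∈ O, k = (ν - ι ν0) * k') :
    (∀ x : m → K, inL O ((rq K C - ν • (1 : Matrix m m K)).mulVec x) →
      (cj ∘ (rq K C - ν • (1 : Matrix m m K)).mulVec x) ⬝ᵥ (rq K w).mulVec x ∈ O → inL O x) ∧
    ∃ x : m → K, inL O ((rq K C - ν • (1 : Matrix m m K)).mulVec x) ∧ ¬ inL O x := by
  have hμ : ι ν0 - ν ≠ 0 := sub_ne_zero.2 hne.symm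
  have hq : ∀ (B : Matrix m m ℚ) i j, rq K B i j ∈ O := fun B i j => by
    rw [← wittFin2_map ι]
    exact imem _
  have hu : ∀ a : Ω, a ≠ 0 → unitO O (ι a) := fun a ha =>
    ⟨imem a, by rw [← map_inv₀]; exact imem _, (map_ne_zero ι).2 ha⟩
  have hmap : (rq Ω C - ν0 • (1 : Matrix m m Ω)).map ι =
      rq K C - ι ν0 • (1 : Matrix m m K) := by
    rw [← wittFin2_map ι C]
    ext i j
    by_cases e : i = j <;> simp [e]
  set A := rq K C - ν • (1 : Matrix m m K) with hA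
  have hAO : ∀ i j, A i j ∈ O := fun i j => by
    refine O.sub_mem (hq C i j) (O.mul_mem hν ?_)
    rw [Matrix.one_apply]
    split_ifs
    · exact O.one_mem
    · exact O.zero_mem
  have heig : ∀ z : m → K, (rq K C - ι ν0 • (1 : Matrix m m K)).mulVec z = 0 →
      A.mulVec z = (ι ν0 - ν) • z := by
    intro z hz
    rw [sub_mulVec, smul_mulVec, one_mulVec, sub_eq_zero] at hz
    rw [hA, sub_mulVec, smul_mulVec, one_mulVec, hz, sub_smul]
  have hcL : ∀ z : m → K, inL O z → inL O (cj ∘ z) := fun z hz i => hv.cj_mem _ (hz i)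
  constructor
  · intro x hx hf
    obtain ⟨P, hP0, hP⟩ := ex_mu hC h
    obtain ⟨s, hs, es⟩ := wittFin2_ev ι imem ν0 hν P
    have hp : unitO O (P.eval₂ ι ν) := by
      rw [es]
      exact unitO_add hv.val (hu _ hP0) ((hm _).2 ⟨s, hs, rfl⟩)
    have hl0 := wittFin2_poly ι imem (rq Ω C) hν (x := x) (by rw [wittFin2_map]; exact hx) P
    set p := P.eval₂ ι ν
    set Q := (Polynomial.aeval (rq Ω C) P).map ι with hQ
    set l := p⁻¹ • (Q.mulVec x - p • x) with hl
    have hlL : inL O l := fun i => O.mul_mem hp.2.1 (hl0 i)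
    have ex : x + l = p⁻¹ • Q.mulVec x := by
      rw [hl, smul_sub, smul_smul, inv_mul_cancel₀ hp.2.2, one_smul]
      abel
    have hz : (rq K C - ι ν0 • (1 : Matrix m m K)).mulVec (x + l) = 0 := by
      rw [ex, mulVec_smul, mulVec_mulVec, ← hmap, hQ, ← Matrix.map_mul, hP]
      simp
    have hξ := heig _ hz
    have hAl : inL O (A.mulVec l) := wittFin2_mulVec hAO hlL
    have hξL : inL O (A.mulVec (x + l)) := by
      rw [mulVec_add]
      exact fun i => O.add_mem (hx i) (hAl i)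
    have hF : (cj ∘ A.mulVec (x + l)) ⬝ᵥ (rq K w).mulVec (x + l) ∈ O := by
      have e1 : cj ∘ A.mulVec (x + l) = cj ∘ A.mulVec x + cj ∘ A.mulVec l := by
        ext i
        simp [mulVec_add]
      rw [mulVec_add (rq K w), dotProduct_add]
      refine O.add_mem ?_ (wittFin2_dot (hcL _ hξL) (wittFin2_mulVec (hq w) hlL))
      rw [e1, add_dotProduct]
      refine O.add_mem hf ?_
      rw [hA, wittFin2_adj hcj hC]
      exact O.neg_mem (wittFin2_dot (hcL _ hlL) (wittFin2_mulVec (hq w) hx))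
    have hr := ra (A.mulVec (x + l)) (by rw [hmap, hξ, mulVec_smul, hz, smul_zero]) hξL (by
      refine (hm _).2 ⟨-_, O.neg_mem hF, ?_⟩
      rw [wittFin2_map]
      conv_lhs => rw [show (rq K w).mulVec (A.mulVec (x + l)) =
        (ι ν0 - ν) • (rq K w).mulVec (x + l) by rw [hξ, mulVec_smul]]
      rw [dotProduct_smul, smul_eq_mul]
      ring)
    intro i
    obtain ⟨k, hk, ek⟩ := (hm _).1 (hr i)
    have e2 : x i = -k - l i := by
      rw [hξ, Pi.smul_apply, smul_eq_mul, Pi.add_apply] at ek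
      have e3 : (ι ν0 - ν) * (x i + l i) = (ι ν0 - ν) * (-k) := by rw [ek]; ring
      have e4 := mul_left_cancel₀ hμ e3
      rw [← e4]
      ring
    rw [e2]
    exact O.sub_mem (O.neg_mem hk) (hlL i)
  · obtain ⟨ξ, hξ0, hξ⟩ := h.eig
    have hz : (rq K C - ι ν0 • (1 : Matrix m m K)).mulVec (ι ∘ ξ) = 0 := by
      ext i
      rw [← hmap, ← RingHom.map_mulVec, sub_mulVec, smul_mulVec, one_mulVec, hξ]
      simp
    refine ⟨(ι ν0 - ν)⁻¹ • (ι ∘ ξ), ?_, fun hx => ?_⟩
    · rw [mulVec_smul, heig _ hz, smul_smul, inv_mul_cancel₀ hμ, one_smul]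
      exact fun i => imem _
    · obtain ⟨i, hi⟩ := Function.ne_iff.1 hξ0
      refine ((hm (ι (ξ i))).2 ⟨-_, O.neg_mem (hx i), ?_⟩).2 (hu _ hi)
      simp only [Pi.smul_apply, smul_eq_mul, Function.comp_apply]
      field_simp
      ring

end Pool.Agent.AS
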