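import Pool.Agent.Lib.MP_dae8ad_gt.A.IF

namespace Pool.Agent.AS

variable {B : Type} [AddCommGroup B] [DistribMulAction G1 B]

/-- `f - g = - t (t - 1)` and `f 1 = 1`. -/
theorem kf_kg {b : B} (hf : Kf b) (hg : Kg b) : b = 0 := by
  unfold Kf at hf
  unfold Kg at hg
  have e2 : tt 2 • b = tt 1 • tt 1 • b := by rw [← mul_smul, ← tt_add]; rfl
  have e3 : tt 3 • b = tt 1 • tt 2 • b := by rw [← mul_smul, ← tt_add]; rfl
  have h1 : tt 2 • b = tt 1 • b := sub_right_injective (add_right_cancel (hf.trans hg.symm))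
  have h2 : tt 1 • b = b := smul_left_cancel (tt 1) (e2.symm.trans h1)
  rwa [e3, h1, h2, h2, sub_self, zero_add] at hf

open Polynomial in
theorem numth_cx {s u : ℤ} (hs : s = 1 ∧ u = 0 ∨ s = 0 ∧ u = 1) {n : ℕ} (hn : n ≠ 0) {p q : ℤ}
    (hq : q ≠ 0) (h : ∀ z : ℂ, z ^ 3 - s * z ^ 2 - u * z + 1 = 0 → q * z ^ n = p) : False := by
  have hq' : (q : ℂ) ≠ 0 := Int.cast_ne_zero.2 hq
  have hN : ∀ z w : ℂ, z ^ 3 - s * z ^ 2 - u * z + 1 = 0 → w ^ 3 - s * w ^ 2 - u * w + 1 = 0 →
      ‖z‖ = ‖w‖ := fun z w hz hw => by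
    have := congrArg norm (mul_left_cancel₀ hq' ((h z hz).trans (h w hw).symm))
    rwa [norm_pow, norm_pow, pow_left_inj₀ (norm_nonneg _) (norm_nonneg _) hn] at this
  obtain ⟨a, ha⟩ := Complex.exists_root (f := X ^ 3 - C (s : ℂ) * X ^ 2 - C (u : ℂ) * X + 1) (by
    have : (X ^ 3 - C (s : ℂ) * X ^ 2 - C (u : ℂ) * X + 1).degree = 3 := by compute_degree!
    rw [this]
    norm_num)
  simp only [IsRoot.def, eval_add, eval_sub, eval_mul, eval_pow, eval_X, eval_C, eval_one] at ha
  obtain ⟨z, hz⟩ := exists_quadratic_eq_zero (a := (1 : ℂ)) (b := a - s) (c := a ^ 2 - s * a - u)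
    one_ne_zero (IsAlgClosed.exists_eq_mul_self _)
  have e1 := hN z a (by linear_combination (z - a) * hz + ha) ha
  have e2 := hN (s - a - z) a (by linear_combination (s - a - z - a) * hz + ha) ha
  have e3 : a * z * (s - a - z) = -1 := by linear_combination ha - a * hz
  have e4 := congrArg norm e3
  rw [norm_mul, norm_mul, e1, e2, norm_neg, norm_one] at e4
  have e5 : ‖a‖ = 1 := by
    refine (pow_eq_one_iff_of_nonneg (norm_nonneg a) three_ne_zero).1 ?_
    linear_combination e4
  have e6 : a * (starRingEnd ℂ) a = 1 := by rw [Complex.mul_conj', e5]; simp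
  have e7 := congrArg (starRingEnd ℂ) ha
  simp only [map_add, map_sub, map_mul, map_pow, map_intCast, map_one, map_zero] at e7
  generalize (starRingEnd ℂ) a = c at e6 e7
  have e8 : 1 - s * a - u * a ^ 2 + a ^ 3 = 0 := by
    linear_combination a ^ 3 * e7 -
      ((a * c) ^ 2 + a * c + 1 - s * a * (a * c + 1) - u * a ^ 2) * e6
  have e9 : a * (a - 1) = 0 := by
    rcases hs with ⟨rfl, rfl⟩ | ⟨rfl, rfl⟩ <;> push_cast at ha e8
    · linear_combination e8 - ha
    · linear_combination ha - e8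
  rcases mul_eq_zero.1 e9 with e | e
  · simp [e] at ha
  · rw [sub_eq_zero.1 e] at ha
    rcases hs with ⟨rfl, rfl⟩ | ⟨rfl, rfl⟩ <;> simp at ha

open Polynomial in
theorem numth_pos (tf : ∀ (n : ℤ) (b : B), n ≠ 0 → n • b = 0 → b = 0) {b : B} (hb : b ≠ 0)
    {s u : ℤ} (hs : s = 1 ∧ u = 0 ∨ s = 0 ∧ u = 1)
    (hc : tt 3 • b - s • tt 2 • b - u • tt 1 • b + b = 0) {n : ℕ} (hn : n ≠ 0) {p q : ℤ}
    (hq : q ≠ 0) (e : q • (tt n • b) = p • b) : False := by
  set φ : Module.End ℤ B := DistribSMul.toLinearMap ℤ B (tt 1) with hφ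
  have hp : ∀ (k : ℕ) (x : B), (φ ^ k) x = tt k • x := by
    intro k
    induction k with
    | zero => intro x; simp [tt_zero]
    | succ k ih =>
      intro x
      rw [pow_succ, Module.End.mul_apply, ih, Nat.cast_succ, tt_add, mul_smul]
      rfl
  set c : ℤ[X] := X ^ 3 - C s * X ^ 2 - C u * X + 1 with hc'
  have hm : c.Monic := by rw [hc']; monicity!
  have hd : c.natDegree = 3 := by rw [hc']; compute_degree!
  have hi : Irreducible c := by
    rw [hm.irreducible_iff_roots_eq_zero_of_degree_le_three (by omega) hd.le]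
    refine Multiset.eq_zero_of_forall_notMem fun x hx => ?_
    have h1 := (mem_roots hm.ne_zero).1 hx
    simp only [hc', IsRoot.def, eval_add, eval_sub, eval_mul, eval_pow, eval_X, eval_C,
      eval_one] at h1
    obtain ⟨k, hk⟩ := Int.even_mul_pred_self x
    have h2 : ∀ y : ℤ, y * (k + k) + 1 ≠ 0 := fun y e => by
      rw [mul_add] at e
      omega
    rcases hs with ⟨rfl, rfl⟩ | ⟨rfl, rfl⟩
    · exact h2 x (by linear_combination h1 - x * hk)
    · exact h2 (x + 1) (by linear_combination h1 - (x + 1) * hk)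
  have h1 : aeval φ c b = 0 := by
    have a1 := hp 1 b
    rw [pow_one] at a1
    simp only [hc', map_add, map_sub, map_mul, map_pow, aeval_X, aeval_C, map_one,
      LinearMap.add_apply, LinearMap.sub_apply, Module.End.mul_apply, hp, a1,
      Module.algebraMap_end_apply, Module.End.one_apply]
    exact hc
  have h2 : aeval φ (C q * X ^ n - C p) b = 0 := by
    simp only [map_sub, map_mul, map_pow, aeval_X, aeval_C, LinearMap.sub_apply,
      Module.End.mul_apply, hp, Module.algebraMap_end_apply, e, sub_self]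
  have h3 : c ∣ C q * X ^ n - C p := by
    by_contra hn
    have := AdjoinRoot.isDomain_of_prime hi.prime
    have := hm.finite_adjoinRoot
    obtain ⟨m, hm0, y, hy⟩ := (Algebra.IsAlgebraic.isAlgebraic (R := ℤ)
      (AdjoinRoot.mk c (C q * X ^ n - C p))).exists_nonzero_dvd
      (mem_nonZeroDivisors_of_ne_zero fun h => hn (AdjoinRoot.mk_eq_zero.1 h))
    obtain ⟨v, rfl⟩ := AdjoinRoot.mk_surjective y
    rw [← map_mul, show algebraMap ℤ (AdjoinRoot c) m = AdjoinRoot.mk c (C m) by simp,
      AdjoinRoot.mk_eq_mk] at hy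
    obtain ⟨w, hw⟩ := hy
    have h4 : C m = w * c + v * (C q * X ^ n - C p) := by linear_combination hw
    refine hb (tf m b hm0 ?_)
    have h5 := congrArg (fun P => aeval φ P b) h4
    simp only [aeval_C, Module.algebraMap_end_apply] at h5
    rw [h5, map_add, map_mul, map_mul, LinearMap.add_apply, Module.End.mul_apply,
      Module.End.mul_apply, h1, h2, map_zero, map_zero, add_zero]
  refine numth_cx hs hn hq (p := p) fun z hz => ?_
  obtain ⟨w, hw⟩ := h3
  have h6 := congrArg (aeval z) hw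
  simp only [hc', map_add, map_sub, map_mul, map_pow, aeval_X, map_one, eq_intCast,
    map_intCast, hz, zero_mul] at h6
  exact sub_eq_zero.1 h6

theorem numth_poly {T : Type} [Fintype T] [DecidableEq T] (U : Matrix T T ℤ) :
    ∃ P : Polynomial ℤ, ∀ (R : Type) [CommRing R] (l : R),
      (am U l).det = Polynomial.aeval l P := by
  refine ⟨(am U Polynomial.X).det, fun R _ l => ?_⟩
  rw [AlgHom.map_det]
  congr 1
  ext i j
  simp [am]

/-- No power of `t` acts as a rational scalar on a non-zero element killed by the irreducible cubic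
`f` or `g`.  Sketch: make `B` a module over `ℤ[x]` through `tt 1` (`Polynomial.aeval` at the
endomorphism, `Module.End ℤ B`).  Replace `i` by `|i|` (swap `p`, `q`; `p ≠ 0` because `tt i` is
injective and `B` is torsion free).  The cubic `c` is monic without the roots `1`, `-1`, so it is
irreducible over `ℚ`; if `c` did not divide `q x ^ i - p` over `ℚ`, Bezout gives a non-zero integer
killing `b`.  So every complex root `z` of `c` has `z ^ i = p / q`; all three have the same
modulus, their product has modulus one, and there is a real root (intermediate values), which must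
be `1` or `-1`.  (Alternative: write `x ^ i = p / q` in `AdjoinRoot c`, take norms to get
`(p / q) ^ 3 = ± 1`, then use a real root.) -/
theorem nonpar (tf : ∀ (n : ℤ) (b : B), n ≠ 0 → n • b = 0 → b = 0) {b : B} (hb : b ≠ 0)
    (h : Kf b ∨ Kg b) (i p q : ℤ) (hi : i ≠ 0) (hq : q ≠ 0) : q • (tt i • b) ≠ p • b := by
  obtain ⟨s, u, hs, hc⟩ : ∃ s u : ℤ, (s = 1 ∧ u = 0 ∨ s = 0 ∧ u = 1) ∧
      tt 3 • b - s • tt 2 • b - u • tt 1 • b + b = 0 := by
    rcases h with h | h
    · exact ⟨1, 0, Or.inl ⟨rfl, rfl⟩, by simpa [Kf] using h⟩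
    · exact ⟨0, 1, Or.inr ⟨rfl, rfl⟩, by simpa [Kg] using h⟩
  intro e
  rcases lt_or_gt_of_ne hi with hi | hi
  · obtain ⟨n, hn⟩ := Int.eq_ofNat_of_zero_le (neg_nonneg.2 hi.le)
    have e' : p • (tt n • b) = q • b := by
      rw [← smul_comm, ← e, smul_comm, ← mul_smul, ← tt_add, ← hn, neg_add_cancel, tt_zero,
        one_smul]
    refine numth_pos tf hb hs hc (n := n) (by omega) (q := p) ?_ e'
    rintro rfl
    exact hb (tf q b hq (by rw [← e', zero_smul]))
  · obtain ⟨n, rfl⟩ := Int.eq_ofNat_of_zero_le hi.le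
    exact numth_pos tf hb hs hc (by omega) hq e

open Polynomial in
/-- An Alexander polynomial does not vanish at a primitive cube root of unity: divide the integer
polynomial `det (U - x Uᵀ)` by `x ^ 2 + x + 1`; the remainder `r1 x + r0` vanishes at `z`, so it is
zero (`r0 ^ 2 - r0 r1 + r1 ^ 2 = 0`); then `3` divides `det (U - Uᵀ)`. -/
theorem cyc3 {T Ω : Type} [Fintype T] [DecidableEq T] [Field Ω] [CharZero Ω] (U : Matrix T T ℤ)
    (hU : IsUnit (am U (1 : ℤ)).det) (z : Ω) (hz : z ^ 2 + z + 1 = 0) : (am U z).det ≠ 0 := by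
  obtain ⟨P, hP⟩ := numth_poly U
  have hm : (X ^ 2 + X + 1 : ℤ[X]).Monic := by monicity!
  have hd : (X ^ 2 + X + 1 : ℤ[X]).natDegree = 2 := by compute_degree!
  have h1 := modByMonic_add_div P (X ^ 2 + X + 1)
  have h2 : (P %ₘ (X ^ 2 + X + 1)).natDegree ≤ 1 := by
    have := natDegree_modByMonic_lt P hm (fun e => by rw [e] at hd; simp at hd)
    omega
  have h3 := eq_X_add_C_of_natDegree_le_one h2
  generalize (P %ₘ (X ^ 2 + X + 1)).coeff 1 = a at h3
  generalize (P %ₘ (X ^ 2 + X + 1)).coeff 0 = c at h3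
  rw [h3] at h1
  rw [hP, ← h1] at hU ⊢
  intro h
  simp only [map_add, map_mul, map_pow, aeval_X, map_one, hz, zero_mul, add_zero, eq_intCast,
    map_intCast] at h
  have h4 : ((c ^ 2 - c * a + a ^ 2 : ℤ) : Ω) = 0 := by
    push_cast
    linear_combination (a : Ω) ^ 2 * hz + (c - a - a * z) * h
  have h5 : c ^ 2 - c * a + a ^ 2 = 0 := by exact_mod_cast h4
  have ha : a = 0 := by nlinarith [sq_nonneg (2 * c - a), sq_nonneg a]
  have hc : c = 0 := by
    rw [ha] at h5
    simpa using h5
  simp only [ha, hc, map_add, map_mul, map_pow, aeval_X, map_one, map_zero, zero_mul,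
    zero_add] at hU
  have := Int.isUnit_iff.1 (isUnit_of_mul_isUnit_left hU)
  omega

theorem Jm_mul (g : ℕ) : Jm g * Jm g = -1 := by
  ext ⟨i, a⟩ ⟨j, b⟩
  by_cases e : i = j <;> cases a <;> cases b <;>
    simp [Matrix.mul_apply, Fintype.sum_prod_type, Jm, e]

theorem isUnit_am_one {g : ℕ} (U : Matrix (Fin g × Bool) (Fin g × Bool) ℤ)
    (hU : U.transpose - U = Jm g) : IsUnit (am U (1 : ℤ)).det := by
  have e : am U (1 : ℤ) = -Jm g := by
    rw [← hU]
    ext i j
    simp [am]
  refine Matrix.isUnit_det_of_right_inverse (B := Jm g) ?_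
  rw [e, neg_mul, Jm_mul, neg_neg]

theorem UJ_plan : UJ.transpose - UJ = Jm 1 := by
  decide

theorem det_am_UJ {R : Type} [CommRing R] (l : R) : (am UJ l).det = l ^ 2 - l + 1 := by
  rw [← Matrix.det_submatrix_equiv_self
    (finTwoEquiv.trans (Equiv.uniqueProd Bool (Fin 1)).symm), Matrix.det_fin_two]
  simp [am, UJ, finTwoEquiv]
  ring

/-- The determinant as a polynomial in `l`. -/
theorem det_am_poly {T : Type} [Fintype T] [DecidableEq T] (U : Matrix T T ℤ) :
    ∃ P : Polynomial ℤ, ∀ (R : Type) [CommRing R] (l : R),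
      (am U l).det = Polynomial.aeval l P := by
  exact numth_poly U

/-- A sum of `2 ^ N`-th roots of unity with odd total weight is not zero: work in
`integralClosure ℤ Ω` modulo a maximal ideal over `2` (`2` is not a unit there); in the residue
field of characteristic two every such root of unity is `1`. -/
theorem oddAug {X Ω : Type} [Field Ω] [CharZero Ω] (ω : X → Ω) (N : ℕ)
    (hω : ∀ x, ω x ^ (2 ^ N) = 1) (r : X →₀ ℤ) (hr : Odd (r.sum fun _ a => a)) :
    (r.sum fun x a => (a : Ω) * ω x) ≠ 0 := by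
  intro h
  have hi : ∀ x, IsIntegral ℤ (ω x) := fun x =>
    IsIntegral.of_pow (Nat.two_pow_pos N) (by rw [hω]; exact isIntegral_one)
  have hm : (Ideal.span {(2 : ℤ)}).IsMaximal :=
    PrincipalIdealRing.isMaximal_of_irreducible Int.prime_two.irreducible
  obtain ⟨Q, hQ, e⟩ := Ideal.exists_ideal_over_maximal_of_isIntegral
    (S := integralClosure ℤ Ω) (Ideal.span {(2 : ℤ)})
    (((RingHom.injective_iff_ker_eq_bot (algebraMap ℤ (integralClosure ℤ Ω))).1
      (RingHom.injective_int _)).le.trans bot_le)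
  have h2 : (2 : integralClosure ℤ Ω ⧸ Q) = 0 := by
    have : (2 : ℤ) ∈ Q.comap (algebraMap ℤ (integralClosure ℤ Ω)) :=
      e ▸ Ideal.mem_span_singleton_self _
    have h0 := Ideal.Quotient.eq_zero_iff_mem.2 (Ideal.mem_comap.1 this)
    rwa [map_ofNat, map_ofNat] at h0
  have key : ∀ (n : ℕ) (y : integralClosure ℤ Ω ⧸ Q), y ^ 2 ^ n = 1 → y = 1 := by
    intro n
    induction n with
    | zero => intro y hy; simpa using hy
    | succ n ih =>
      intro y hy
      rw [pow_succ, pow_mul] at hy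
      refine ih y (sub_eq_zero.1 (pow_eq_zero_iff two_ne_zero |>.1 ?_))
      linear_combination hy + (1 - y ^ 2 ^ n) * h2
  have h3 : ∀ x, Ideal.Quotient.mk Q ⟨ω x, hi x⟩ = 1 := fun x =>
    key N _ (by rw [← map_pow, ← map_one (Ideal.Quotient.mk Q)]; congr 1; exact Subtype.ext (hω x))
  have h4 : ∑ x ∈ r.support, (r x : integralClosure ℤ Ω) * ⟨ω x, hi x⟩ = 0 := by
    apply Subtype.val_injective
    simpa [Finsupp.sum] using h
  have h5 := congrArg (Ideal.Quotient.mk Q) h4
  simp only [map_sum, map_mul, h3, mul_one, map_intCast, map_zero] at h5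
  obtain ⟨k, hk⟩ := hr
  rw [← Int.cast_sum, show ∑ x ∈ r.support, r x = 2 * k + 1 from hk] at h5
  push_cast at h5
  rw [h2, zero_mul, zero_add] at h5
  exact one_ne_zero h5

end Pool.Agent.AS
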