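import Pool.Agent.Lib.MP_dae8ad_gt.A.WittDec
import Pool.Agent.Lib.MP_dae8ad_gt.A.NumTh

namespace Pool.Agent.AS

open Matrix

theorem wittmet_sq {g : ℕ} {U : Matrix (Fin g × Bool) (Fin g × Bool) ℤ} (hU : Uᵀ - U = Jm g) :
    am U (1 : ℚ) * am U 1 = -1 := by
  have : am U (1 : ℚ) = (Int.castRingHom ℚ).mapMatrix (-Jm g) := by
    ext i j
    simp [am, ← hU]
  rw [this, ← map_mul, neg_mul_neg, Jm_mul, map_neg, map_one]

theorem wittmet_compl {M N : Type} [AddCommGroup M] [AddCommGroup N] [Module.Finite ℤ M]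
    [Module.IsTorsionFree ℤ N] (g : M →ₗ[ℤ] N) : ∃ W', IsCompl (LinearMap.ker g) W' := by
  obtain ⟨s, hs⟩ := g.rangeRestrict.exists_rightInverse_of_surjective g.range_rangeRestrict
  have h : ∀ x, (LinearMap.id - s ∘ₗ g.rangeRestrict : M →ₗ[ℤ] M) x ∈ LinearMap.ker g := fun x => by
    have := congrArg Subtype.val (LinearMap.congr_fun hs (g.rangeRestrict x))
    rw [LinearMap.mem_ker, LinearMap.sub_apply, map_sub, sub_eq_zero]
    exact this.symm
  refine ⟨_, LinearMap.isCompl_of_proj (f := LinearMap.codRestrict _ _ h) fun x => Subtype.ext ?_⟩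
  have : g.rangeRestrict x = 0 := Subtype.ext x.2
  simp [this]

/-- A rational Lagrangian gives an integral one: `W` has dimension `g` (the form is nondegenerate,
`LinearMap.BilinForm.finrank_orthogonal`), the integral points of `W` form a subgroup with torsion
free quotient, so it has a complement (`Module.free_of_finite_type_torsion_free'`, projective
lifting), and its rank is `g`. -/
theorem met_of_lagr {g : ℕ} (U : Matrix (Fin g × Bool) (Fin g × Bool) ℤ) (hU : Uᵀ - U = Jm g)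
    (W : Submodule ℚ (Fin g × Bool → ℚ))
    (hW : ∀ x, x ∈ W ↔ ∀ y ∈ W, y ⬝ᵥ (am U (1 : ℚ)).mulVec x = 0)
    (hiso : ∀ x ∈ W, ∀ y ∈ W, x ⬝ᵥ (am U (0 : ℚ)).mulVec y = 0) : Metabolic g U := by
  have hd : (am U (1 : ℚ)).det ≠ 0 := (isUnit_det_of_left_inverse (B := -am U 1)
    (by rw [neg_mul, wittmet_sq hU, neg_neg])).ne_zero
  have h1 := LinearMap.BilinForm.finrank_orthogonal
    (LinearMap.BilinForm.nondegenerate_toBilin'_of_det_ne_zero' _ hd) W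
  have h2 : (am U (1 : ℚ)).toBilin'.orthogonal W = W := by
    ext x
    simp only [LinearMap.BilinForm.mem_orthogonal_iff, toBilin'_apply', ← hW]
  rw [h2, Module.finrank_fintype_fun_eq_card, Fintype.card_prod, Fintype.card_fin,
    Fintype.card_bool] at h1
  let f : (Fin g × Bool → ℤ) →ₗ[ℤ] (Fin g × Bool → ℚ) :=
    .pi fun i => Algebra.linearMap ℤ ℚ ∘ₗ .proj i
  have : Module.IsTorsionFree ℤ ((Fin g × Bool → ℚ) ⧸ W) := .trans_faithfulSMul ℤ ℚ _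
  obtain ⟨W', hc⟩ := wittmet_compl (W.mkQ.restrictScalars ℤ ∘ₗ f)
  rw [LinearMap.ker_comp, LinearMap.ker_restrictScalars, Submodule.ker_mkQ] at hc
  refine ⟨_, W', hc, ?_, fun x hx y hy => ?_⟩
  · rw [← IsLocalizedModule.finrank_eq (nonZeroDivisors ℤ)
      (Submodule.toLocalized' ℚ (nonZeroDivisors ℤ) f _) le_rfl,
      ← IsLocalization.finrank_eq ℚ (nonZeroDivisors ℤ) le_rfl,
      (Submodule.localized'gi ℚ (nonZeroDivisors ℤ) f).l_u_eq W]
    omega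
  · have := hiso _ hx _ hy
    rw [← Int.cast_inj (α := ℚ)]
    simpa [dotProduct, mulVec, am, f] using this

theorem wittmet_blk {T : Type} (U : Matrix T T ℤ) (l : ℚ) :
    am (U3 U) l = fromBlocks (am U l) 0 0 (fromBlocks (am UJ l) 0 0 (-am UJ l)) := by
  ext (i | i | i) (j | j | j) <;> simp [am, U3]
  ring

theorem wittmet_mv {T : Type} [Fintype T] (U : Matrix T T ℤ) (l : ℚ) (x : T → ℚ)
    (y z : Fin 1 × Bool → ℚ) : am (U3 U) l *ᵥ Sum.elim x (Sum.elim y z) =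
      Sum.elim (am U l *ᵥ x) (Sum.elim (am UJ l *ᵥ y) (-(am UJ l *ᵥ z))) := by
  simp [wittmet_blk, fromBlocks_mulVec, neg_mulVec]

theorem wittmet_red {g : ℕ} (U : Matrix (Fin g × Bool) (Fin g × Bool) ℤ) (hU : Uᵀ - U = Jm g)
    (W : Submodule ℚ (N3 (Fin g × Bool) → ℚ))
    (hW : ∀ x, x ∈ W ↔ ∀ y ∈ W, y ⬝ᵥ am (U3 U) 1 *ᵥ x = 0)
    (hS : ∀ x ∈ W, ∀ y ∈ W, x ⬝ᵥ am (U3 U) (-1) *ᵥ y = 0)
    (h0 : ∀ z, Sum.elim (0 : Fin g × Bool → ℚ) (Sum.elim z z) ∈ W) : Metabolic g U := by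
  let e : (Fin g × Bool → ℚ) →ₗ[ℚ] (N3 (Fin g × Bool) → ℚ) :=
    { toFun x := Sum.elim x (Sum.elim 0 0)
      map_add' x y := by ext (i | i | i) <;> simp
      map_smul' c x := by ext (i | i | i) <;> simp }
  have he : ∀ l x y z z', Sum.elim y (Sum.elim z z') ⬝ᵥ am (U3 U) l *ᵥ e x = y ⬝ᵥ am U l *ᵥ x :=
    fun l x y z z' => by
      change _ ⬝ᵥ _ *ᵥ Sum.elim x (Sum.elim 0 0) = _
      rw [wittmet_mv, sumElim_dotProduct_sumElim, sumElim_dotProduct_sumElim]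
      simp
  have h1 : ∀ x ∈ W.comap e, ∀ y ∈ W.comap e, y ⬝ᵥ am U 1 *ᵥ x = 0 := fun x hx y hy =>
    (he 1 x y 0 0).symm.trans ((hW _).1 hx _ hy)
  refine met_of_lagr U hU (W.comap e) (fun x => ⟨h1 x, fun h => (hW _).2 fun u hu => ?_⟩)
    fun x hx y hy => ?_
  · obtain ⟨y, z, z', rfl⟩ : ∃ y z z', u = Sum.elim y (Sum.elim z z') :=
      ⟨u ∘ .inl, u ∘ .inr ∘ .inl, u ∘ .inr ∘ .inr, by ext (i | i | i) <;> rfl⟩
    have h2 : am UJ (1 : ℚ) *ᵥ (z - z') = 0 := dotProduct_eq_zero_iff.1 fun t => by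
      have := (hW _).1 hu _ (h0 t)
      rw [wittmet_mv, sumElim_dotProduct_sumElim, sumElim_dotProduct_sumElim, zero_dotProduct,
        zero_add, ← dotProduct_add, ← sub_eq_add_neg, ← mulVec_sub] at this
      rwa [dotProduct_comm]
    have h3 : z = z' := by
      have := congrArg (am UJ (1 : ℚ) *ᵥ ·) h2
      simp only [mulVec_mulVec, wittmet_sq UJ_plan, mulVec_zero, neg_mulVec, one_mulVec] at this
      exact sub_eq_zero.1 (neg_eq_zero.1 this)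
    subst h3
    rw [he]
    refine h y (Submodule.mem_comap.2 ?_)
    convert W.sub_mem hu (h0 z) using 1
    ext (i | i | i) <;> simp [e]
  · have h2 : am U (0 : ℚ) = (1 / 2 : ℚ) • (am U 1 + am U (-1)) := by
      ext i j
      simp only [am, Matrix.smul_apply, Matrix.add_apply, smul_eq_mul]
      ring
    rw [h2, smul_mulVec, add_mulVec, dotProduct_smul, dotProduct_add, h1 y hy x hx,
      (he (-1) y x 0 0).symm.trans (hS _ hx _ hy), add_zero, smul_zero]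

/-- With `U' = U3 U`, `w = U' - U'ᵀ = am U' 1` (its square is `-1`), `S = U' + U'ᵀ = am U' (-1)`,
`C = w⁻¹ S` apply `wittDec` to the diagonal `W0 = {(0, z, z)}`.  If `m = 0` then `W = range Y` is its
own annihilator (`res`); it lies in the annihilator of `W0`, whose elements are the `(x, z, z)`; so
`{x | (x, 0, 0) ∈ W}` is a Lagrangian for `U` (`x ⬝ S y = x ⬝ w (C y) = 0`, `2 U' = S + w`). -/
theorem wittC {g : ℕ} (U : Matrix (Fin g × Bool) (Fin g × Bool) ℤ) (hU : Uᵀ - U = Jm g) :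
    Metabolic g U ∨ ∃ (a m : ℕ) (D : WM (N3 (Fin g × Bool)) a m ℚ), 0 < m ∧ D.OK ∧
      Aniso D.w0 D.C0 ∧ D.om = am (U3 U) 1 ∧ D.om * D.C = am (U3 U) (-1) := by
  have sq : am (U3 U) (1 : ℚ) * am (U3 U) 1 = -1 := by
    rw [wittmet_blk, neg_eq_iff_eq_neg.symm]
    simp [fromBlocks_multiply, fromBlocks_neg, wittmet_sq hU, wittmet_sq UJ_plan]
  have sk : (am (U3 U) (1 : ℚ))ᵀ = -am (U3 U) 1 := by
    ext i j
    simp [am]
  have sy : (am (U3 U) (-1 : ℚ))ᵀ = am (U3 U) (-1) := by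
    ext i j
    simp [am, add_comm]
  have wc : am (U3 U) (1 : ℚ) * (-am (U3 U) 1 * am (U3 U) (-1)) = am (U3 U) (-1) := by
    rw [← Matrix.mul_assoc, mul_neg, sq, neg_neg, Matrix.one_mul]
  let e : (Fin 1 × Bool → ℚ) →ₗ[ℚ] (N3 (Fin g × Bool) → ℚ) :=
    { toFun z := Sum.elim 0 (Sum.elim z z)
      map_add' x y := by ext (i | i | i) <;> simp
      map_smul' c x := by ext (i | i | i) <;> simp }
  obtain ⟨a, m, D, ok, hw, hC, an, h0⟩ := wittDec (am (U3 U) 1) (-am (U3 U) 1)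
    (-am (U3 U) 1 * am (U3 U) (-1)) sk (by rw [mul_neg, sq, neg_neg])
    (by rw [wc, transpose_mul, transpose_neg, sk, sy, neg_neg, Matrix.mul_assoc, sq, mul_neg,
      Matrix.mul_one, add_neg_cancel]) (LinearMap.range e)
    (by
      rintro _ ⟨z, rfl⟩
      refine ⟨-(am UJ 1 *ᵥ (am UJ (-1) *ᵥ z)), ?_⟩
      change _ = _ *ᵥ Sum.elim 0 (Sum.elim z z)
      rw [← mulVec_mulVec, wittmet_mv, neg_mulVec, wittmet_mv]
      ext (i | i | i) <;> simp [e, mulVec_neg])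
    (by
      rintro _ ⟨z, rfl⟩ _ ⟨z', rfl⟩
      change Sum.elim 0 (Sum.elim z z) ⬝ᵥ _ *ᵥ Sum.elim 0 (Sum.elim z' z') = _
      simp [wittmet_mv, sumElim_dotProduct_sumElim])
  rcases Nat.eq_zero_or_pos m with rfl | hm
  swap
  · exact .inr ⟨a, m, D, hm, ok, an, hw, by rw [hw, hC, wc]⟩
  have dot : ∀ p x, D.Y *ᵥ p ⬝ᵥ D.om *ᵥ x = p ⬝ᵥ (D.Yᵀ * D.om) *ᵥ x := fun p x => by
    rw [← mulVec_mulVec, dotProduct_mulVec p, vecMul_transpose]
  have iso : ∀ p q, D.Y *ᵥ p ⬝ᵥ D.om *ᵥ D.Y *ᵥ q = 0 := fun p q => by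
    rw [dot, mulVec_mulVec, ok.yy, zero_mulVec, dotProduct_zero]
  refine .inl (wittmet_red U hU (LinearMap.range D.Y.mulVecLin) (fun x => ⟨?_, fun h => ?_⟩) ?_
    fun z => (h0 _ ⟨z, rfl⟩).imp fun _ h => h.symm)
  · rintro ⟨q, rfl⟩ _ ⟨p, rfl⟩
    exact hw ▸ iso p q
  · have h1 : (D.Yᵀ * D.om) *ᵥ x = 0 := dotProduct_eq_zero_iff.1 fun p => by
      rw [dotProduct_comm, ← dot, hw]
      exact h _ ⟨p, rfl⟩
    have h2 := congrArg (· *ᵥ x) ok.res
    simp only [add_mulVec, ← mulVec_mulVec x D.Zp, ← mulVec_mulVec x D.Z, ← mulVec_mulVec x D.Y,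
      h1, mulVec_zero, one_mulVec, Subsingleton.elim (D.Zq *ᵥ x) 0, add_zero] at h2
    exact ⟨_, h2⟩
  · rintro _ ⟨p, rfl⟩ _ ⟨q, rfl⟩
    rw [← wc, ← hC, ← hw, mulVecLin_apply, mulVecLin_apply, ← mulVec_mulVec, mulVec_mulVec q,
      ok.cy, ← mulVec_mulVec]
    exact iso _ _

end Pool.Agent.AS
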