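import Pool.Agent.Lib.MP_dae8ad_gt.A.Setup
import Pool.Agent.Lib.MP_dae8ad_gt.A.Val4
import Pool.Agent.Lib.MP_dae8ad_gt.A.Theta
import Pool.Agent.Lib.MP_dae8ad_gt.A.Omega3
import Pool.Agent.Lib.MP_dae8ad_gt.A.WittMet
import Pool.Agent.Lib.MP_dae8ad_gt.A.WittFin1
import Pool.Agent.Lib.MP_dae8ad_gt.A.WittFin2

namespace Pool.Agent.AS

open Matrix

/-- The sign of the third block moves from the weights to the matrix. -/
theorem lagr_U3 {T K : Type} [Fintype T] [DecidableEq T] [Field K] {O : Subring K} {cj : K →+* K}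
    (U : Matrix T T ℤ) (l : K) (I : Set (N3 T → K)) (h : Lagr O cj (A3 U l l) (c3 T l l) I) :
    Lagr O cj (am (U3 U) l) (fun _ => 1 - l) I := by
  obtain ⟨sg, hsg⟩ : ∃ sg : N3 T → K,
    sg = Sum.elim (fun _ => 1) (Sum.elim (fun _ => 1) fun _ => -1) := ⟨_, rfl⟩
  have e : am (U3 U) l = diagonal sg * A3 U l l := by
    ext i j
    rw [diagonal_mul, hsg]
    rcases i with i | i | i <;> rcases j with j | j | j <;> simp [am, U3, A3]
    ring
  have e1 : ∀ x i, (am (U3 U) l).mulVec x i = sg i * (A3 U l l).mulVec x i := fun x i => by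
    rw [e, ← mulVec_mulVec, mulVec_diagonal]
  have e2 : ∀ x, inL O ((am (U3 U) l).mulVec x) ↔ inL O ((A3 U l l).mulVec x) := fun x =>
    forall_congr' fun i => by
      rw [e1, hsg]
      rcases i with i | i | i <;> simp
  have e3 : ∀ y x, bf cj (am (U3 U) l) (fun _ => 1 - l) y x =
      bf cj (A3 U l l) (c3 T l l) y x := fun y x => Finset.sum_congr rfl fun i _ => by
    rw [e1, hsg]
    rcases i with i | i | i <;> simp [c3]
    ring
  intro x
  simp only [e2, e3]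
  exact h x

theorem caseC_am {n K : Type} [Fintype n] [DecidableEq n] [Field K] [CharZero K] (U : Matrix n n ℤ)
    {om C : Matrix n n ℚ} (h1 : om = am U 1) (h2 : om * C = am U (-1)) {l : K} (hl : 1 - l ≠ 0) :
    am U l = ((1 - l) / 2) • (rq K om * (rq K C - ((l + 1) / (l - 1)) • (1 : Matrix n n K))) := by
  have e : rq K om * rq K C = rq K (om * C) :=
    (Matrix.map_mul (L := om) (M := C) (f := Rat.castHom K)).symm
  have hl' : l - 1 ≠ 0 := fun h => hl (by linear_combination -h)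
  rw [Matrix.mul_sub, e, h2, Matrix.mul_smul, Matrix.mul_one, h1]
  ext i j
  simp only [am, rq, Matrix.smul_apply, Matrix.sub_apply, smul_eq_mul]
  push_cast
  field_simp
  ring

variable {X B : Type} [AddCommGroup X] [DistribMulAction G1 X] [AddCommGroup B]
  [DistribMulAction G1 B]

/-- By `wittC` we may assume `m > 0`; `exOmega` for `w0`, `C0` gives `Ω`, `ν0`; `l0 = (ν0 + 1) /
(ν0 - 1)` has norm one (`ν0 ≠ 1, -1` because `cj ν0 = - ν0`), `l0 ≠ 1`; `b0 = - mk h` is not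
divisible by two, `θ = thetaOdd l0 ∘ ℓ`, `ω = 1`, `n = 1`, `l = e b0`, `1 - l` is a unit,
`ν = (l + 1) / (l - 1)`, `cj ν = - ν`, `ν - ι ν0 = unit * (l - ι l0)`,
`am U' l = ((1 - l) / 2) • (om * (C - ν))`, `det (am U' l) ≠ 0` (`trans_e`, `det_am_poly`);
`wittFin1` and `wittFin2` contradict each other. -/
theorem caseC (mk : X →+ B) (hmk : ∀ (g : G1) x, mk (g • x) = g • mk x)
    (tf : ∀ (n : ℤ) (b : B), n ≠ 0 → n • b = 0 → b = 0) (h γ : X) (hg : Kg h)
    (hγ : mk γ = 0) (hh : ¬ ∃ b, mk h = (2 : ℤ) • b) {g : ℕ}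
    (U : Matrix (Fin g × Bool) (Fin g × Bool) ℤ) (hU : Uᵀ - U = Jm g) (hO : Obs h (h + γ) U) :
    Metabolic g U := by
  rcases wittC U hU with hM | ⟨a, m, D, hm, hD, han, hom, hC⟩
  · exact hM
  exfalso
  have : Nonempty (Fin m) := ⟨⟨0, hm⟩⟩
  obtain ⟨hw, hwC⟩ := hD.w0_skew
  obtain ⟨Ω, _, _, cj0, ν0, hΩ⟩ := exOmega hw hwC han
  have hν1 : ν0 - 1 ≠ 0 := fun h0 => by
    have h1 := hΩ.cjnu
    rw [sub_eq_zero.1 h0, map_one] at h1
    exact two_ne_zero (α := Ω) (by linear_combination h1)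
  have hν2 : ν0 + 1 ≠ 0 := fun h0 => by
    have h1 := hΩ.cjnu
    rw [eq_neg_of_add_eq_zero_left h0, map_neg, map_one] at h1
    exact two_ne_zero (α := Ω) (by linear_combination -h1)
  obtain ⟨l0, hl0⟩ : ∃ l0, l0 = (ν0 + 1) / (ν0 - 1) := ⟨_, rfl⟩
  have hl0' : l0 * (ν0 - 1) = ν0 + 1 := by rw [hl0, div_mul_cancel₀ _ hν1]
  have hn0 : cj0 l0 * l0 = 1 := by
    have h1 := congrArg cj0 hl0'
    rw [map_mul, map_sub, map_add, map_one, hΩ.cjnu] at h1
    refine mul_right_cancel₀ (mul_ne_zero hν1 hν2) ?_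
    linear_combination (cj0 l0 * (ν0 + 1)) * hl0' - (ν0 + 1) * h1
  have hl1 : 1 - l0 ≠ 0 := fun h0 => by
    rw [← sub_eq_zero.1 h0] at hl0'
    exact two_ne_zero (α := Ω) (by linear_combination -hl0')
  obtain ⟨b0, hb⟩ : ∃ b0, b0 = -mk h := ⟨_, rfl⟩
  have h2 : ¬ ∃ x, b0 = (2 : ℤ) • x := fun ⟨x, hx⟩ =>
    hh ⟨-x, by rw [smul_neg, ← hx, hb, neg_neg]⟩
  have hb0 : b0 ≠ 0 := fun h0 => h2 ⟨0, by rw [h0, smul_zero]⟩
  have hKg : Kg b0 := by
    have h1 := congrArg mk hg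
    rw [map_add, map_sub, hmk, hmk, map_zero] at h1
    rw [Kg, hb, smul_neg, smul_neg, ← neg_eq_zero, ← h1]
    abel
  obtain ⟨B0, ℓ, hℓ, hB, pure, inj, hodd⟩ := exB0 tf b0 hb0
  obtain ⟨θ, θ0, θ1, θadd, θcj⟩ := thetaOdd cj0 hΩ.root l0 hn0
  have hVD : VD cj0 B0 ℓ fun b => θ (ℓ b) :=
    ⟨tf, pure, inj, by rw [map_zero, θ0],
      fun b hb b' hb' => by rw [map_add, θadd _ _ (hodd h2 b hb) (hodd h2 b' hb')],
      fun b hb => by rw [map_neg, θcj _ (hodd h2 b hb)], hΩ.cjcj⟩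
  obtain ⟨K, _, O, cj, e, ι, hK⟩ := exVal hVD
  have : CharZero K := charZero_of_injective_ringHom ι.injective
  have hnp := np_of tf b0 hB fun i p q hi hq => nonpar tf hb0 (Or.inr hKg) i p q hi hq
  have hmem : b0 ∈ B0 := (hB b0).2 ⟨1, 1, one_ne_zero, rfl⟩
  obtain ⟨τ, hG⟩ := good_of hK mk hmk hnp (fun _ => 1) rfl (by simp) (by simp) 0 (by simp) 1
    one_pos fun _ => rfl
  obtain ⟨I, hI⟩ := hO K O cj τ 1 _ hG fun j hj => by
    have e1 : mk (-(tt j • h)) = tt j • b0 := by rw [map_neg, hmk, hb, smul_neg]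
    have e2 : mk (-(tt j • (h + γ))) = tt j • b0 := by
      rw [map_neg, hmk, map_add, hγ, add_zero, hb, smul_neg]
    have h1 := hnp b0 hmem hb0 j hj
    simp only [e1, e2]
    exact ⟨unit_det hK pure U (isUnit_am_one U hU) 1 one_ne_zero _ h1,
      unit_det hK pure UJ (isUnit_am_one UJ UJ_plan) 1 one_ne_zero _ h1,
      unit_det hK pure UJ (isUnit_am_one UJ UJ_plan) 1 one_ne_zero _ h1⟩
  have e1 : mk (-h) = b0 := by rw [map_neg, hb]
  have e2 : mk (-(h + γ)) = b0 := by rw [map_neg, map_add, hγ, add_zero, hb]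
  simp only [e1, e2, map_one, one_mul] at hI
  have hc : unitO O (1 - e b0) := by
    have h1 := unit_poly hK (1 - Polynomial.X) 1 b0 hmem hb0 (by simpa [hℓ, θ1] using hl1)
    simpa using h1
  have htr : ∀ P : Polynomial Ω, P ≠ 0 → P.eval₂ ι (e b0) ≠ 0 := fun P hP => by
    simpa using trans_e hK tf P hP 1 one_ne_zero b0 hb0
  have hun := hK.unif b0 hmem hb0
  simp only [hℓ, θ1] at hun
  have hcl : cj (e b0) * e b0 = 1 := by rw [hK.fk.ecj, ← hK.fk.eadd, neg_add_cancel, hK.fk.e0]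
  have hlO := hK.emem b0
  generalize e b0 = l at hI hc htr hun hcl hlO
  have hl : 1 - l ≠ 0 := hc.2.2
  have hl' : l - 1 ≠ 0 := fun h => hl (by linear_combination -h)
  have hq : ∀ q : ℚ, (q : K) ∈ O := fun q => by
    rw [← map_ratCast ι]
    exact hK.imem _
  have hι : ∀ x : Ω, x ≠ 0 → unitO O (ι x) := fun x hx =>
    unitO_of_mul_eq_one (hK.imem x) (hK.imem x⁻¹) (by rw [← map_mul, mul_inv_cancel₀ hx, map_one])
  have hci : unitO O (1 - l)⁻¹ := unitO_of_mul_eq_one hc.2.1 hc.1 (inv_mul_cancel₀ hl)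
  have hu : unitO O ((1 - l) / 2) := by
    have h1 := unitO_mul hc (hι 2⁻¹ (by norm_num))
    rwa [map_inv₀, map_ofNat, ← div_eq_mul_inv] at h1
  have hA := caseC_am (U3 U) hom hC hl
  obtain ⟨ν, hν⟩ : ∃ ν, ν = (l + 1) / (l - 1) := ⟨_, rfl⟩
  rw [← hν] at hA
  have hν' : ν * (l - 1) = l + 1 := by rw [hν, div_mul_cancel₀ _ hl']
  have hνO : ν ∈ O := by
    have h1 : ν = -((l + 1) * (1 - l)⁻¹) := by
      rw [hν]
      field_simp
      ring
    rw [h1]
    exact neg_mem (mul_mem (add_mem hlO (one_mem _)) hc.2.1)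
  have hcj : cj ν = -ν := by
    have h1 := congrArg cj hν'
    rw [map_mul, map_sub, map_add, map_one] at h1
    refine mul_right_cancel₀ hl ?_
    linear_combination l * h1 - (cj ν - 1) * hcl - hν'
  have hd : ν - ι ν0 = (l - ι l0) * (ι (ν0 - 1) * (1 - l)⁻¹) := by
    have h1 := congrArg ι hl0'
    rw [map_mul, map_add, map_one] at h1
    refine mul_right_cancel₀ hl ?_
    rw [mul_assoc, mul_assoc, inv_mul_cancel₀ hl, mul_one, sub_mul l, h1, map_sub, map_one]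
    linear_combination -hν'
  have hu1 := unitO_mul (hι _ hν1) hci
  generalize ι (ν0 - 1) * (1 - l)⁻¹ = u1 at hd hu1
  have hne : ν ≠ ι ν0 := fun h0 => by
    rw [h0, sub_self] at hd
    refine mul_ne_zero ?_ hu1.2.2 hd.symm
    simpa using htr _ (Polynomial.X_sub_C_ne_zero l0)
  have hmO : ∀ k, mO O k ↔ ∃ k' ∈ O, k = (ν - ι ν0) * k' := fun k => by
    rw [hun, hd]
    refine ⟨fun ⟨k', h1, h2⟩ => ⟨u1⁻¹ * k', mul_mem hu1.2.1 h1, ?_⟩,
      fun ⟨k', h1, h2⟩ => ⟨u1 * k', mul_mem hu1.1 h1, by rw [h2, mul_assoc]⟩⟩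
    rw [h2, mul_assoc, mul_inv_cancel_left₀ hu1.2.2]
  have hdet : (rq K D.C - ν • (1 : Matrix _ _ K)).det ≠ 0 := fun h0 => by
    obtain ⟨P, hP⟩ := det_am_poly (U3 U)
    have hP0 : P ≠ 0 := fun h1 => by
      have h3 := congrArg det hD.inv
      rw [det_mul, hom, hP, h1, map_zero, zero_mul, det_one] at h3
      exact zero_ne_one h3
    refine htr (P.map (Int.castRingHom Ω))
      ((Polynomial.map_ne_zero_iff (RingHom.injective_int _)).2 hP0) ?_
    rw [Polynomial.eval₂_map, RingHom.ext_int (ι.comp _) (algebraMap ℤ K), ← Polynomial.aeval_def,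
      ← hP, hA, det_smul, det_mul, h0, mul_zero, mul_zero]
  have hI' := lagr_U3 U l I hI
  rw [hA] at hI'
  obtain ⟨han', x, hx, hx'⟩ := wittFin2 hw hwC hΩ hK.vr ι hK.imem
    (hK.ra (Fin m) _ _ fun ξ h1 h3 => hΩ.an ξ (by
      rwa [sub_mulVec, smul_mulVec, one_mulVec, sub_eq_zero] at h1) h3) ν hνO hcj hne hmO
  exact hx' (wittFin1 D hD hK.vr hq ν _ _ hνO hcj hdet hu hc I hI' han' x hx)

end Pool.Agent.AS
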