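import Pool.Agent.Lib.MP_dae8ad_gt.A.CaseAB
import Pool.Agent.Lib.MP_dae8ad_gt.A.CaseC

namespace Pool.Agent.AS

open Matrix

theorem alg {X : Type} [AddCommGroup X] [DistribMulAction G1 X] (h γ : X) (hg : Kg h) (hf : Kf γ)
    (h1 : L1 h γ) (hP : Per X) {g : ℕ} (U : Matrix (Fin g × Bool) (Fin g × Bool) ℤ)
    (hU : Uᵀ - U = Jm g) (hO : Obs h (h + γ) U) : Metabolic g U := by
  obtain ⟨B, _, _, mk, hs, hmk, hk, tf⟩ := exB X
  have hu := isUnit_am_one U hU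
  by_cases hγ : mk γ = 0
  · by_cases hN : ∀ N : ℕ, ∃ x, γ = (2 ^ N : ℤ) • x
    · refine caseC mk hmk tf h γ hg hγ ?_ U hU hO
      rintro ⟨b, hb⟩
      obtain ⟨x, rfl⟩ := hs b
      obtain ⟨n, hn, hx⟩ := (hk (h - (2 : ℤ) • x)).1 (by rw [map_sub, map_zsmul, hb, sub_self])
      obtain ⟨a, ha⟩ := tors_div _ n hn hx
      obtain ⟨y, hy⟩ := ha (a + 1)
      refine h1 0 a (a + 1) (by omega) ⟨by simpa using hN (a + 1), y + x, ?_⟩
      rw [smul_add, ← hy, smul_sub, smul_smul, pow_succ]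
      abel
    · obtain ⟨N, hN⟩ := not_forall.1 hN
      refine absurd hO (caseB mk hmk tf h γ hg hγ (fun hh => ?_) N hN hP U hu)
      obtain ⟨n, hn, hx⟩ := (hk h).1 hh
      obtain ⟨n', hn', hx'⟩ := (hk γ).1 hγ
      obtain ⟨b, hb⟩ := tors_div _ n hn hx
      obtain ⟨a, ha⟩ := tors_div _ n' hn' hx'
      exact h1 a b (a + b + 1) (by omega) ⟨ha _, hb _⟩
  · exact absurd hO (caseA mk hmk tf h γ hg hf hγ U hu)

end Pool.Agent.AS
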