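import Pool.Agent.Lib.MP_dae8ad_gt.A.IF

namespace Pool.Agent.AS

variable {K : Type} [Field K] {O : Subring K}

theorem unitO_mul {a b : K} (ha : unitO O a) (hb : unitO O b) : unitO O (a * b) := by
  exact ⟨mul_mem ha.1 hb.1, mul_inv a b ▸ mul_mem ha.2.1 hb.2.1, mul_ne_zero ha.2.2 hb.2.2⟩

theorem unitO_of_mul_eq_one {a b : K} (ha : a ∈ O) (hb : b ∈ O) (h : a * b = 1) : unitO O a := by
  exact ⟨ha, (inv_eq_of_mul_eq_one_right h).symm ▸ hb, left_ne_zero_of_mul_eq_one h⟩

theorem mO_zero : mO O 0 := by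
  exact ⟨zero_mem _, fun h => h.2.2 rfl⟩

theorem mO_mul {a b : K} (ha : mO O a) (hb : b ∈ O) : mO O (a * b) := by
  exact ⟨mul_mem ha.1 hb, fun h => ha.2 (unitO_of_mul_eq_one ha.1 (mul_mem hb h.2.1)
    (by rw [← mul_assoc, mul_inv_cancel₀ h.2.2]))⟩

/-- The non-units of a valuation ring are closed under addition. -/
theorem mO_add (hv : ∀ k : K, k ∈ O ∨ k⁻¹ ∈ O) {a b : K} (ha : mO O a) (hb : mO O b) :
    mO O (a + b) := by
  rcases eq_or_ne a 0 with rfl | h1
  · rwa [zero_add]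
  rcases eq_or_ne b 0 with rfl | h2
  · rwa [add_zero]
  rcases hv (a / b) with h | h
  · rw [show a + b = b * (a / b + 1) by field_simp]
    exact mO_mul hb (add_mem h (one_mem _))
  · rw [show a + b = a * (1 + (a / b)⁻¹) by field_simp]
    exact mO_mul ha (add_mem (one_mem _) h)

theorem unitO_add (hv : ∀ k : K, k ∈ O ∨ k⁻¹ ∈ O) {a b : K} (ha : unitO O a) (hb : mO O b) :
    unitO O (a + b) := by
  by_contra h
  have h1 := mO_add hv ⟨add_mem ha.1 hb.1, h⟩ (mO_mul hb (neg_mem (one_mem O)))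
  rw [mul_neg_one, add_neg_cancel_right] at h1
  exact h1.2 ha

theorem mO_prime {a b : K} (ha : a ∈ O) (hb : b ∈ O) (h : mO O (a * b)) : mO O a ∨ mO O b := by
  by_cases h1 : unitO O a
  · exact Or.inr ⟨hb, fun h2 => h.2 (unitO_mul h1 h2)⟩
  · exact Or.inl ⟨ha, h1⟩

theorem baer_aux1 {cj : K →+* K} (h : VR O cj) {a : K} : unitO O (cj a) ↔ unitO O a := by
  have key : ∀ a, unitO O a → unitO O (cj a) := fun a ha =>
    ⟨h.cj_mem _ ha.1, map_inv₀ cj a ▸ h.cj_mem _ ha.2.1, (map_ne_zero cj).2 ha.2.2⟩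
  exact ⟨fun h1 => h.cj_cj a ▸ key _ h1, key a⟩

theorem mO_cj {cj : K →+* K} (h : VR O cj) {a : K} : mO O (cj a) ↔ mO O a := by
  exact and_congr ⟨fun h1 => h.cj_cj a ▸ h.cj_mem _ h1, h.cj_mem a⟩ (not_congr (baer_aux1 h))

theorem unitO_cj {cj : K →+* K} (h : VR O cj) {a : K} : unitO O (cj a) ↔ unitO O a := by
  exact baer_aux1 h

theorem baer_aux2 {N : Type} [Fintype N] [DecidableEq N] (A : Matrix N N K)
    (hA : ∀ i j, A i j ∈ O) : A.det ∈ O ∧ ∀ i j, A.adjugate i j ∈ O := by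
  obtain ⟨B, rfl⟩ : ∃ B : Matrix N N O, A = O.subtype.mapMatrix B :=
    ⟨Matrix.of fun i j => ⟨A i j, hA i j⟩, rfl⟩
  rw [← RingHom.map_det, ← RingHom.map_adjugate]
  exact ⟨B.det.2, fun i j => (B.adjugate i j).2⟩

/-- A matrix over `O` with unit determinant preserves the lattice in both directions
(adjugate; entries of the adjugate are determinants of matrices over `O`). -/
theorem inL_of_det {N : Type} [Fintype N] [DecidableEq N] (A : Matrix N N K)
    (hA : ∀ i j, A i j ∈ O) (hd : unitO O A.det) (x : N → K) (hx : inL O (A.mulVec x)) :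
    inL O x := by
  intro i
  have h1 := congrFun (Matrix.mulVec_mulVec x A.adjugate A) i
  rw [Matrix.adjugate_mul, Matrix.smul_mulVec, Matrix.one_mulVec, Pi.smul_apply, smul_eq_mul] at h1
  rw [(eq_inv_mul_iff_mul_eq₀ hd.2.2).2 h1.symm]
  exact mul_mem hd.2.1 (sum_mem fun j _ => mul_mem ((baer_aux2 A hA).2 i j) (hx j))

theorem det_mem {N : Type} [Fintype N] [DecidableEq N] (A : Matrix N N K)
    (hA : ∀ i j, A i j ∈ O) : A.det ∈ O ∧ ∀ i j, A.adjugate i j ∈ O := by
  exact baer_aux2 A hA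

/-- `K / O` is an injective module (Baer criterion: ideals are principal, `K / O` is divisible):
`Module.Baer`, `Module.Baer.extension_property` applied to `range α` (or `F / ker α`). -/
theorem baer_ext (hp : IsPrincipalIdealRing O) {F E : Type} [AddCommGroup F] [Module O F]
    [AddCommGroup E] [Module O E] (α : F →ₗ[O] E) (ψ : F →ₗ[O] QO O)
    (h : ∀ z, α z = 0 → ψ z = 0) : ∃ φ : E →ₗ[O] QO O, ∀ z, φ (α z) = ψ z := by
  have hb : Module.Baer O (QO O) := by
    intro I g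
    obtain ⟨a, rfl⟩ := (hp.principal I).principal
    obtain ⟨k, hk⟩ := Submodule.Quotient.mk_surjective _
      (g ⟨a, Submodule.mem_span_singleton_self a⟩)
    refine ⟨LinearMap.toSpanSingleton O _ (Submodule.Quotient.mk (k / a)), fun x hx => ?_⟩
    obtain ⟨r, rfl⟩ := Submodule.mem_span_singleton.1 hx
    rcases eq_or_ne a 0 with rfl | ha
    · have e : (⟨r • (0 : O), hx⟩ : Submodule.span O {(0 : O)}) = 0 := Subtype.ext (smul_zero r)
      rw [e, map_zero, smul_zero, map_zero]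
    · have e : (⟨r • a, hx⟩ : Submodule.span O {a}) =
          r • ⟨a, Submodule.mem_span_singleton_self a⟩ := rfl
      have ha' : (a : K) ≠ 0 := fun h => ha (Subtype.ext h)
      rw [e, map_smul, map_smul, ← hk, LinearMap.toSpanSingleton_apply,
        ← Submodule.Quotient.mk_smul]
      exact congrArg (fun t => r • (Submodule.Quotient.mk t : QO O)) (mul_div_cancel₀ k ha')
  obtain ⟨φ, hφ⟩ := hb.extension_property ((LinearMap.ker α).liftQ α le_rfl)
    (LinearMap.ker_eq_bot.1 (Submodule.ker_liftQ_eq_bot _ _ _ le_rfl))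
    ((LinearMap.ker α).liftQ ψ h)
  exact ⟨φ, fun z => LinearMap.congr_fun hφ (Submodule.Quotient.mk z)⟩

/-- Biduality for lattices `L ≤ S ≤ d⁻¹ L`.  Proof: if `x ∉ S`, the ideal of `a` with `a x ∈ S` is
principal, generated by a non-unit `a0 ≠ 0` (it contains `d`); on `F = S × O` take
`α (s, a) = s + a x` with values in `E = d⁻¹ L` and `ψ (s, a) = a / a0`; extend by `baer_ext` to `φ`;
`φ (d⁻¹ e_i) = k_i`, `z_i = d k_i ∈ O` because `φ` kills `L`; then `φ y = z ⬝ y` on `E`. -/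
theorem bidual (hp : IsPrincipalIdealRing O) {N : Type} [Fintype N] (S : Submodule O (N → K))
    (d : K) (hd : d ∈ O) (hd0 : d ≠ 0) (hL : ∀ y, inL O y → y ∈ S)
    (hS : ∀ s ∈ S, inL O (d • s)) (x : N → K) (hx : inL O (d • x))
    (h : ∀ z, inL O z → (∀ s ∈ S, z ⬝ᵥ s ∈ O) → z ⬝ᵥ x ∈ O) : x ∈ S := by
  classical
  obtain ⟨a, ha⟩ := (hp.principal (S.comap (LinearMap.toSpanSingleton O _ x))).principal
  have hI : ∀ r : O, r • x ∈ S ↔ ∃ t : O, t • a = r := fun r => by
    rw [← Submodule.mem_span_singleton, ← ha]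
    rfl
  have ha0 : (a : K) ≠ 0 := fun e => by
    obtain ⟨t, ht⟩ := (hI ⟨d, hd⟩).1 (hL _ hx)
    exact hd0 ((congrArg Subtype.val ht).symm.trans (mul_eq_zero_of_right _ e))
  obtain ⟨φ, hφ⟩ := baer_ext hp (S.subtype.coprod (LinearMap.toSpanSingleton O _ x))
    ((LinearMap.toSpanSingleton O (QO O) (Submodule.Quotient.mk (a : K)⁻¹)).comp
      (LinearMap.snd O S O)) fun z hz => by
      obtain ⟨t, ht⟩ := (hI z.2).1 (by
        rw [eq_neg_of_add_eq_zero_right (show z.1.1 + z.2 • x = 0 from hz)]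
        exact neg_mem z.1.2)
      refine (QO_zero O (z.2.1 * (a : K)⁻¹)).2 ?_
      rw [← ht]
      exact (mul_inv_cancel_right₀ ha0 (t : K)).symm ▸ t.2
  have h1 : ∀ s ∈ S, φ s = 0 := fun s hs => by simpa using hφ (⟨s, hs⟩, 0)
  have h2 : φ x = Submodule.Quotient.mk (a : K)⁻¹ := by simpa using hφ (0, 1)
  choose k hk using fun i => Submodule.Quotient.mk_surjective _ (φ (Pi.single i d⁻¹))
  have h3 : ∀ y, inL O (d • y) → φ y = Submodule.Quotient.mk ((d • k) ⬝ᵥ y) := fun y hy => by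
    have e : y = ∑ i, (⟨_, hy i⟩ : O) • Pi.single i d⁻¹ := by
      funext j
      simp [Finset.sum_apply, Subring.smul_def, Pi.single_apply, mul_comm d, hd0]
    conv_lhs => rw [e]
    simp only [map_sum, map_smul, ← hk]
    refine Eq.trans (Finset.sum_congr rfl fun i _ => ?_) (map_sum (Submodule.mkQ _) _ _).symm
    exact congrArg Submodule.Quotient.mk (show d * y i * k i = d * k i * y i by ring)
  have h4 : inL O (d • k) := fun i => by
    have h5 : inL O (Pi.single i (1 : K)) := fun j => by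
      rw [Pi.single_apply]
      split_ifs
      exacts [one_mem _, zero_mem _]
    have h6 := h3 (Pi.single i 1) fun j => mul_mem hd (h5 j)
    rw [h1 _ (hL _ h5), dotProduct_single, mul_one] at h6
    exact (QO_zero O _).1 h6.symm
  have h7 := (QO_zero O _).2 (h _ h4 fun s hs =>
    (QO_zero O _).1 ((h3 s (hS s hs)).symm.trans (h1 s hs)))
  rw [← h3 x hx, h2, QO_zero] at h7
  simpa using (hI 1).2 ⟨⟨_, h7⟩, Subtype.ext (inv_mul_cancel₀ ha0)⟩

end Pool.Agent.AS
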