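import Pool.Agent.Lib.MP_dae8ad_gt.A.ValDefs
import Pool.Agent.Lib.MP_dae8ad_gt.A.NumTh

namespace Pool.Agent.AS

variable {B Ω K : Type} [AddCommGroup B] [Field Ω] [CharZero Ω] [Field K] {cj0 : Ω →+* Ω}
  {B0 : AddSubgroup B} {θ : B → Ω} {O : Subring K} {cj : K →+* K} {e : B → K} {ι : Ω →+* K}

omit [AddCommGroup B] [CharZero Ω] in
theorem setup_md {Y : Type} (e : B → K) (ι : Ω →+* K) (β : Y → B) (r : Y →₀ Ω) :
    evK e ι (r.mapDomain β) = r.sum fun y a => ι a * e (β y) :=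
  Finsupp.sum_mapDomain_index (fun b => by simp) fun b a a' => by rw [map_add, add_mul]

omit [CharZero Ω] in
theorem setup_mem (h : VK cj0 B0 θ O cj e ι) {Y : Type} (β : Y → B) (r : Y →₀ Ω) :
    (r.sum fun y a => ι a * e (β y)) ∈ O :=
  O.sum_mem fun _ _ => O.mul_mem (h.imem _) (h.emem _)

omit [CharZero Ω] in
theorem setup_unit (h : VK cj0 B0 θ O cj e ι) {Y : Type} {β : Y → B} (hβ : Function.Injective β)
    {r : Y →₀ Ω} (hr : r ≠ 0)
    (h0 : ∀ y ∈ r.support, ∀ y' ∈ r.support, β y - β y' ∈ B0 → y = y') :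
    unitO O (r.sum fun y a => ι a * e (β y)) := by
  classical
  rw [← setup_md]
  refine h.unit_of _ (fun e0 => hr (Finsupp.mapDomain_injective hβ (by simpa using e0))) ?_
  intro b hb b' hb' hbb
  obtain ⟨y, hy, rfl⟩ := Finset.mem_image.1 (Finsupp.mapDomain_support hb)
  obtain ⟨y', hy', rfl⟩ := Finset.mem_image.1 (Finsupp.mapDomain_support hb')
  rw [h0 y hy y' hy' hbb]

omit [CharZero Ω] in
theorem setup_far (h : VK cj0 B0 θ O cj e ι) [DistribMulAction G1 B]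
    (hnp : ∀ b ∈ B0, b ≠ 0 → ∀ i : ℤ, i ≠ 0 → tt i • b ∉ B0) (f : K →+* K) {j : ℤ} (hj : j ≠ 0)
    (h1 : ∀ b, f (e b) = e (tt j • b)) (h2 : ∀ a, f (ι a) = ι a) (k : K) :
    ∀ᶠ m in Filter.atTop, f^[m] k ∈ O := by
  obtain ⟨r, r', hr, hk⟩ := h.fk.frac k
  have a1 : ∀ (m : ℕ) b, (f ^ m) (e b) = e (tt (j * m) • b) := fun m => by
    induction m with
    | zero => simp [tt_zero]
    | succ m ih =>
      intro b
      rw [pow_succ, RingHom.mul_def, RingHom.comp_apply, h1, ih, ← mul_smul, ← tt_add]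
      simp [mul_add]
  have a2 : ∀ (m : ℕ) a, (f ^ m) (ι a) = ι a := fun m a => by
    rw [RingHom.coe_pow]
    exact Function.iterate_fixed (h2 a) m
  have a3 : ∀ c : B, ∀ᶠ m : ℕ in Filter.atTop, tt (j * m) • c ∈ B0 → c = 0 := fun c => by
    by_cases hc : c = 0
    · simp [hc]
    rw [← Nat.cofinite_eq_atTop]
    refine Set.Subsingleton.finite fun m hm m' hm' => ?_
    simp only [Set.mem_compl_iff, Set.mem_ofPred_eq, hc, imp_false, not_not] at hm hm'
    by_contra hne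
    refine hnp _ hm ((smul_ne_zero_iff_ne _).2 hc) (j * m' - j * m) ?_ ?_
    · rw [← mul_sub]
      exact mul_ne_zero hj (sub_ne_zero.2 (by exact_mod_cast Ne.symm hne))
    · rwa [← mul_smul, ← tt_add, sub_add_cancel]
  filter_upwards [(Filter.eventually_all_finset r'.support).2 fun b _ =>
    (Filter.eventually_all_finset r'.support).2 fun b' _ => a3 (b - b')] with m hm
  have a4 := congrArg (f ^ m) hk
  simp only [evK, map_mul, map_finsuppSum, a1, a2] at a4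
  have a5 := setup_unit h (MulAction.injective (tt (j * m))) hr fun b hb b' hb' hbb =>
    sub_eq_zero.1 (hm b hb b' hb' (by rwa [smul_sub]))
  rw [← RingHom.coe_pow, (eq_mul_inv_iff_mul_eq₀ a5.2.2).2 a4]
  exact O.mul_mem (setup_mem h _ r) a5.2.1

omit [CharZero Ω] in
theorem setup_poly (h : VK cj0 B0 θ O cj e ι) {P : Polynomial Ω} (hP : P ≠ 0) {a : Ω} (ha : a ≠ 0)
    (b : B) : ∃ r : ℕ →₀ Ω, r ≠ 0 ∧
      P.eval₂ ι (ι a * e b) = r.sum fun k c => ι c * e (k • b) := by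
  have a1 : ∀ k : ℕ, e (k • b) = e b ^ k := fun k => by
    induction k with
    | zero => rw [zero_smul, h.fk.e0, pow_zero]
    | succ k ih => rw [succ_nsmul, h.fk.eadd, ih, pow_succ]
  refine ⟨Finsupp.onFinset P.support (fun k => P.coeff k * a ^ k)
    fun k hk => Polynomial.mem_support_iff.2 (left_ne_zero_of_mul hk), fun e0 => ?_, ?_⟩
  · exact mul_ne_zero (Polynomial.leadingCoeff_ne_zero.2 hP) (pow_ne_zero P.natDegree ha)
      (DFunLike.congr_fun e0 P.natDegree)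
  · rw [Finsupp.onFinset_sum _ fun k => by simp, Polynomial.eval₂_eq_sum, Polynomial.sum_def]
    refine Finset.sum_congr rfl fun k _ => ?_
    rw [a1, map_mul, map_pow, mul_pow, mul_assoc]

omit [CharZero Ω] in
theorem setup_aeval (ι : Ω →+* K) (P : Polynomial ℤ) (x : K) :
    Polynomial.aeval x P = (P.map (Int.castRingHom Ω)).eval₂ ι x := by
  rw [Polynomial.eval₂_map, Polynomial.aeval_def, RingHom.ext_int (algebraMap ℤ K)]

/-- `far`: write `k = evK r / evK r'`; `τ ^ m` moves the supports by `tt (- n m)`; for `b ≠ b'` in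
the support of `r'` at most one integer `i` has `tt i • (b - b') ∈ B0` (`hnp`), so for large `m`
the denominator is a unit by `unit_of`.  `odd`: the sum is `evK` of `∑ single (mk x) (a ω x)`;
`indep`, then sum the coefficients and use `oddAug`. -/
theorem good_of (h : VK cj0 B0 θ O cj e ι) [DistribMulAction G1 B] {X : Type} [AddCommGroup X]
    [DistribMulAction G1 X] (mk : X →+ B) (hmk : ∀ (g : G1) x, mk (g • x) = g • mk x)
    (hnp : ∀ b ∈ B0, b ≠ 0 → ∀ i : ℤ, i ≠ 0 → tt i • b ∉ B0)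
    (ω : X → Ω) (h0 : ω 0 = 1) (hadd : ∀ x y, ω (x + y) = ω x * ω y)
    (hcj : ∀ x, cj0 (ω x) = ω (-x)) (N : ℕ) (hN : ∀ x, ω x ^ (2 ^ N) = 1) (n : ℕ) (hn : 0 < n)
    (hper : ∀ x, ω (tt (-n) • x) = ω x) :
    ∃ τ : K ≃+* K, Good X O cj τ n fun x => ι (ω x) * e (mk x) := by
  obtain ⟨τ, t1, t2⟩ := h.fk.aut (DistribMulAction.toAddEquiv B (tt (-n)))
  have hn' : (n : ℤ) ≠ 0 := by exact_mod_cast hn.ne'
  refine ⟨τ, h.vr, fun k => ?_, hn, ?_, fun x y => ?_, fun x => O.mul_mem (h.imem _) (h.emem _),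
    fun x => ?_, fun x => ?_, fun r hr e0 => oddAug ω N hN r hr ?_⟩
  · refine Filter.eventually_atTop.1 ((setup_far h hnp (τ : K →+* K) (neg_ne_zero.2 hn') t1 t2
      k).and (setup_far h hnp (τ.symm : K →+* K) hn' (fun b => ?_) (fun a => ?_) k))
    · refine τ.symm_apply_eq.2 ?_
      rw [t1, DistribMulAction.toAddEquiv_apply, ← mul_smul, ← tt_add, neg_add_cancel, tt_zero,
        one_smul]
    · exact τ.symm_apply_eq.2 (t2 a).symm
  · rw [h0, map_one, map_zero, h.fk.e0, mul_one]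
  · rw [hadd, map_mul, map_add, h.fk.eadd, mul_mul_mul_comm]
  · rw [map_mul, h.fk.icj, h.fk.ecj, hcj, map_neg]
  · rw [hper, hmk, map_mul, t1, t2, DistribMulAction.toAddEquiv_apply]
  · obtain ⟨R, hR⟩ : ∃ R : X →₀ Ω, ∀ (F : X → Ω → K) (G : X → Ω → Ω), (∀ x, F x 0 = 0) →
        (∀ x, G x 0 = 0) → R.sum F = (r.sum fun x a => F x (a * ω x)) ∧
          R.sum G = r.sum fun x a => G x (a * ω x) :=
      ⟨Finsupp.onFinset r.support (fun x => r x * ω x) fun x hx =>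
        Finsupp.mem_support_iff.2 fun e1 => hx (by simp [e1]), fun F G hF hG =>
        ⟨Finsupp.onFinset_sum _ hF, Finsupp.onFinset_sum _ hG⟩⟩
    obtain ⟨a1, a2⟩ := hR (fun x a => ι a * e (mk x)) (fun _ a => a) (by simp) fun _ => rfl
    have a3 : R.mapDomain mk = 0 := h.fk.indep _ (by
      rw [setup_md, a1, ← e0]
      simp only [map_mul, map_intCast, mul_assoc])
    have a4 := setup_md (fun _ => (1 : Ω)) (RingHom.id Ω) mk R
    rw [a3] at a4
    simpa [evK, a2] using a4.symm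

/-- Off `B0` the determinant is a non-zero polynomial (`det_am_poly`, value a unit at `1`) in
`e b`; the exponents `k • b` are distinct modulo `B0` by purity: `unit_of`. -/
theorem unit_det (h : VK cj0 B0 θ O cj e ι)
    (pure : ∀ (n : ℤ) (b : B), n ≠ 0 → n • b ∈ B0 → b ∈ B0)
    {T : Type} [Fintype T] [DecidableEq T] (U : Matrix T T ℤ)
    (hU : IsUnit (am U (1 : ℤ)).det) (a : Ω) (ha : a ≠ 0) (b : B) (hb : b ∉ B0) :
    unitO O (am U (ι a * e b)).det := by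
  obtain ⟨P, hP⟩ := det_am_poly U
  have h0 : P ≠ 0 := fun e0 => by simp [hP, e0] at hU
  obtain ⟨r, hr, e1⟩ := setup_poly h
    ((Polynomial.map_ne_zero_iff (Int.castRingHom Ω).injective_int).2 h0) ha b
  have h1 : ∀ k k' : ℕ, k • b - k' • b ∈ B0 → k = k' := fun k k' hk => by
    by_contra hne
    refine hb (pure (k - k') b (sub_ne_zero.2 (by exact_mod_cast hne)) ?_)
    rwa [sub_smul, natCast_zsmul, natCast_zsmul]
  rw [hP, setup_aeval ι, e1]
  exact setup_unit h (fun k k' hk => h1 k k' (by simp [show k • b = k' • b from hk])) hr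
    fun k _ k' _ => h1 k k'

/-- On `B0` a polynomial in `ι a * e b` is congruent to its value at `a * θ b`. -/
theorem unit_poly (h : VK cj0 B0 θ O cj e ι) (P : Polynomial Ω) (a : Ω) (b : B) (hb : b ∈ B0)
    (hb0 : b ≠ 0) (hP : P.eval (a * θ b) ≠ 0) : unitO O (P.eval₂ ι (ι a * e b)) := by
  obtain ⟨Q, hQ⟩ := Polynomial.X_sub_C_dvd_sub_C_eval (p := P) (a := a * θ b)
  have h1 : Q.eval₂ ι (ι a * e b) ∈ O := by
    rw [Polynomial.eval₂_eq_sum]
    exact O.sum_mem fun _ _ => O.mul_mem (h.imem _) (O.pow_mem (O.mul_mem (h.imem _) (h.emem _)) _)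
  rw [eq_add_of_sub_eq' hQ, Polynomial.eval₂_add, Polynomial.eval₂_C]
  refine unitO_add h.vr.val ⟨h.imem _, map_inv₀ ι _ ▸ h.imem _, (map_ne_zero ι).2 hP⟩
    ((h.unif b hb hb0 _).2 ⟨_, O.mul_mem (h.imem a) h1, ?_⟩)
  rw [Polynomial.eval₂_mul, Polynomial.eval₂_sub, Polynomial.eval₂_X, Polynomial.eval₂_C, map_mul]
  ring

theorem unit_det0 (h : VK cj0 B0 θ O cj e ι) {T : Type} [Fintype T] [DecidableEq T]
    (U : Matrix T T ℤ) (a : Ω) (b : B) (hb : b ∈ B0) (hb0 : b ≠ 0)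
    (hP : (am U (a * θ b)).det ≠ 0) : unitO O (am U (ι a * e b)).det := by
  obtain ⟨P, hP'⟩ := det_am_poly U
  rw [hP', setup_aeval (RingHom.id Ω), Polynomial.eval₂_id] at hP
  rw [hP', setup_aeval ι]
  exact unit_poly h _ a b hb hb0 hP

theorem unit_det1 {T : Type} [Fintype T] [DecidableEq T] (U : Matrix T T ℤ)
    (hU : IsUnit (am U (1 : ℤ)).det) : unitO O (am U (1 : K)).det := by
  obtain ⟨P, hP⟩ := det_am_poly U
  have e1 := Polynomial.aeval_algebraMap_apply K (1 : ℤ) P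
  rw [map_one] at e1
  rw [hP, e1, ← hP]
  rcases Int.isUnit_iff.1 hU with e2 | e2 <;> simp [e2, unitO]

/-- `e b` is transcendental over `Ω` for `b ≠ 0`. -/
theorem trans_e (h : VK cj0 B0 θ O cj e ι) (tf : ∀ (n : ℤ) (b : B), n ≠ 0 → n • b = 0 → b = 0)
    (P : Polynomial Ω) (hP : P ≠ 0) (a : Ω) (ha : a ≠ 0) (b : B) (hb : b ≠ 0) :
    P.eval₂ ι (ι a * e b) ≠ 0 := by
  obtain ⟨r, hr, e1⟩ := setup_poly h hP ha b
  rw [e1, ← setup_md]
  refine fun e0 => hr (Finsupp.mapDomain_injective (f := fun k : ℕ => k • b) (fun k k' hk => ?_)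
    (by simpa using h.fk.indep _ e0))
  by_contra hne
  refine hb (tf (k - k') b (sub_ne_zero.2 (by exact_mod_cast hne)) ?_)
  rw [sub_smul, natCast_zsmul, natCast_zsmul]
  exact sub_eq_zero.2 hk

/-- If `b0` is not parallel to its translates, `B0` is moved off itself. -/
theorem np_of [DistribMulAction G1 B] (tf : ∀ (n : ℤ) (b : B), n ≠ 0 → n • b = 0 → b = 0) (b0 : B)
    (hB : ∀ b, b ∈ B0 ↔ ∃ n m : ℤ, n ≠ 0 ∧ n • b = m • b0)
    (hp : ∀ i p q : ℤ, i ≠ 0 → q ≠ 0 → q • (tt i • b0) ≠ p • b0) :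
    ∀ b ∈ B0, b ≠ 0 → ∀ i : ℤ, i ≠ 0 → tt i • b ∉ B0 := by
  intro b hb hb0 i hi hi'
  obtain ⟨n, m, hn, e1⟩ := (hB b).1 hb
  obtain ⟨n', m', hn', e2⟩ := (hB _).1 hi'
  have hm : m ≠ 0 := fun e0 => hb0 (tf n b hn (by rw [e1, e0, zero_smul]))
  refine hp i (n * m') (n' * m) hi (mul_ne_zero hn' hm) ?_
  rw [mul_smul, mul_smul, ← e2, ← smul_comm (tt i) m, ← e1, smul_comm (tt i) n, smul_comm n' n]

end Pool.Agent.AS
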