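import Pool.Agent.Lib.MP_dae8ad_gt.A.CaseAB0
import Pool.Agent.Lib.MP_dae8ad_gt.A.Setup
import Pool.Agent.Lib.MP_dae8ad_gt.A.Val4
import Pool.Agent.Lib.MP_dae8ad_gt.A.Theta

namespace Pool.Agent.AS

open Matrix

theorem caseAB_zeta : ∃ ζ : ℂ, ζ ^ 2 - ζ + 1 = 0 ∧ (starRingEnd ℂ) ζ * ζ = 1 := by
  have h3 : Real.sqrt 3 * Real.sqrt 3 = 3 := Real.mul_self_sqrt (by norm_num)
  refine ⟨⟨1 / 2, Real.sqrt 3 / 2⟩, ?_, ?_⟩
  · apply Complex.ext
    · simp [pow_two]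
      nlinarith
    · simp [pow_two]
      ring
  · apply Complex.ext
    · simp
      nlinarith
    · simp
      ring

/-- The three facts about the third block. -/
theorem caseAB_key {B K : Type} [AddCommGroup B] [Field K] {cj0 : ℂ →+* ℂ} {B0 : AddSubgroup B}
    {θ : B → ℂ} {O : Subring K} {cj : K →+* K} {e : B → K} {ι : ℂ →+* K}
    (hK : VK cj0 B0 θ O cj e ι) (tf : ∀ (n : ℤ) (b : B), n ≠ 0 → n • b = 0 → b = 0)
    (b0 : B) (hb : b0 ∈ B0) (hb0 : b0 ≠ 0) (a ζ : ℂ) (ha : a ≠ 0) (hz : ζ ^ 2 - ζ + 1 = 0)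
    (hθ : a * θ b0 = ζ) (l : K) (hl : l = ι a * e b0) :
    unitO O (1 - l) ∧ l ^ 2 - l + 1 ≠ 0 ∧
      ∀ k, mO O k ↔ ∃ k' ∈ O, k = (l ^ 2 - l + 1) * k' := by
  refine ⟨?_, ?_, ?_⟩
  · have h1 := unit_poly hK (1 - Polynomial.X) a b0 hb hb0 (by
      rw [hθ, Polynomial.eval_sub, Polynomial.eval_one, Polynomial.eval_X]
      intro h0
      have h2 : ζ = 1 := by linear_combination -h0
      rw [h2] at hz
      norm_num at hz)
    rwa [Polynomial.eval₂_sub, Polynomial.eval₂_one, Polynomial.eval₂_X, ← hl] at h1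
  · have h1 := trans_e hK tf (Polynomial.X ^ 2 - Polynomial.X + 1) (by
      intro h0
      have h2 := congrArg (Polynomial.eval 0) h0
      simp at h2) a ha b0 hb0
    rwa [Polynomial.eval₂_add, Polynomial.eval₂_sub, Polynomial.eval₂_one, Polynomial.eval₂_X,
      Polynomial.eval₂_X_pow, ← hl] at h1
  · have h1 := unit_poly hK (Polynomial.X - Polynomial.C (1 - ζ)) a b0 hb hb0 (by
      rw [hθ, Polynomial.eval_sub, Polynomial.eval_C, Polynomial.eval_X]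
      intro h0
      have h2 : (3 : ℂ) = 0 := by linear_combination 4 * hz - (2 * ζ - 1) * h0
      norm_num at h2)
    rw [Polynomial.eval₂_sub, Polynomial.eval₂_C, Polynomial.eval₂_X, ← hl] at h1
    have h2 : unitO O (ι a) :=
      unitO_of_mul_eq_one (hK.imem a) (hK.imem a⁻¹) (by rw [← map_mul, mul_inv_cancel₀ ha, map_one])
    have hu := unitO_mul h1 h2
    have hz' : ι ζ ^ 2 - ι ζ + 1 = 0 := by
      have := congrArg ι hz
      simpa using this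
    have hθ' : ι a * ι (θ b0) = ι ζ := by rw [← map_mul, hθ]
    have hπ : l ^ 2 - l + 1 = (e b0 - ι (θ b0)) * ((l - ι (1 - ζ)) * ι a) := by
      have h4 : (e b0 - ι (θ b0)) * ι a = l - ι ζ := by
        rw [hl, ← hθ']
        ring
      have h5 : (e b0 - ι (θ b0)) * ((l - ι (1 - ζ)) * ι a) =
          ((e b0 - ι (θ b0)) * ι a) * (l - ι (1 - ζ)) := by ring
      rw [h5, h4, map_sub, map_one]
      linear_combination hz'
    intro k
    rw [hK.unif b0 hb hb0 k, hπ]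
    obtain ⟨hu1, hu2, hu3⟩ := hu
    constructor
    · rintro ⟨k', hk', rfl⟩
      refine ⟨((l - ι (1 - ζ)) * ι a)⁻¹ * k', O.mul_mem hu2 hk', ?_⟩
      rw [mul_assoc, ← mul_assoc ((l - ι (1 - ζ)) * ι a), mul_inv_cancel₀ hu3, one_mul]
    · rintro ⟨k', hk', rfl⟩
      exact ⟨((l - ι (1 - ζ)) * ι a) * k', O.mul_mem hu1 hk', by rw [mul_assoc]⟩

theorem caseAB_UJ : IsUnit (am UJ (1 : ℤ)).det := by
  rw [det_am_UJ]
  simp

theorem caseAB_vd {B : Type} [AddCommGroup B]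
    (tf : ∀ (n : ℤ) (b : B), n ≠ 0 → n • b = 0 → b = 0) (b0 : B) (hb : b0 ≠ 0) (u : ℂ)
    (hu : (starRingEnd ℂ) u * u = 1) :
    ∃ (B0 : AddSubgroup B) (θ : B → ℂ) (K : Type) (_ : Field K) (O : Subring K) (cj : K →+* K)
      (e : B → K) (ι : ℂ →+* K), VK (starRingEnd ℂ) B0 θ O cj e ι ∧ θ b0 = u ∧
      (∀ b, b ∈ B0 ↔ ∃ n m : ℤ, n ≠ 0 ∧ n • b = m • b0) ∧
      (∀ (n : ℤ) b, n ≠ 0 → n • b ∈ B0 → b ∈ B0) := by
  obtain ⟨B0, ℓ, h1, hB, pure, inj, -⟩ := exB0 tf b0 hb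
  obtain ⟨θ, t0, t1, tadd, tcj⟩ := thetaC u hu
  have hVD : VD (starRingEnd ℂ) B0 ℓ (fun b => θ (ℓ b)) :=
    { tf := tf
      pure := pure
      inj := inj
      th0 := by simp only [map_zero, t0]
      thadd := fun b _ b' _ => by simp only [map_add, tadd]
      thcj := fun b _ => by simp only [map_neg, tcj]
      cjcj := fun a => by simp }
  obtain ⟨K, _, O, cj, e, ι, hK⟩ := exVal hVD
  exact ⟨B0, _, K, _, O, cj, e, ι, hK, by simp only [h1, t1], hB, pure⟩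

theorem caseAB_norm {X K : Type} [AddCommGroup X] [DistribMulAction G1 X] [Field K]
    {O : Subring K} {cj : K →+* K} {τ : K ≃+* K} {n : ℕ} {χ : X → K} (hG : Good X O cj τ n χ)
    (x : X) : cj (χ x) * χ x = 1 := by
  rw [hG.chi_cj, ← hG.chi_add, neg_add_cancel, hG.chi_zero]

theorem caseAB_comm {B : Type} [AddCommGroup B] [DistribMulAction G1 B] (i j : ℤ) (b : B) :
    tt i • tt j • b = tt j • tt i • b := by
  rw [← mul_smul, ← mul_smul, mul_comm]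

/-- The operator `g(t)`. -/
theorem caseAB_gop (B : Type) [AddCommGroup B] [DistribMulAction G1 B] :
    ∃ G : B →+ B, (∀ b, G b = tt 3 • b - tt 1 • b + b) ∧ ∀ i b, G (tt i • b) = tt i • G b := by
  refine ⟨AddMonoidHom.mk' (fun b => tt 3 • b - tt 1 • b + b) ?_, fun _ => rfl, ?_⟩
  · intro a b
    simp only [smul_add]
    abel
  · intro i b
    simp only [AddMonoidHom.mk'_apply, smul_add, smul_sub]
    rw [caseAB_comm 3 i, caseAB_comm 1 i]

variable {X B : Type} [AddCommGroup X] [DistribMulAction G1 X] [AddCommGroup B]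
  [DistribMulAction G1 B] {T : Type} [Fintype T] [DecidableEq T]

/-- `Ω = ℂ`, `ω = 1`, `n = 1`, `b0 = - mk (h + γ)`, `B0`, `ℓ` from `exB0`, `θ = thetaC ζ ∘ ℓ` with
`ζ² - ζ + 1 = 0`.  Apply `g(t)` (it kills `mk h`; `g(t) (mk γ) ≠ 0` by `kf_kg` and is killed by
`f`): `b0 ≠ 0`, `b0` is not parallel to its translates (`nonpar`), and `tt j • mk h ∈ B0` forces
`mk h = 0`.  So the blocks at `h` have unit determinant for every `j` (`unit_det`, `unit_det1`), the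
block at `h + γ` for `j ≠ 0`.  With `l' = e b0`: `l'² - l' + 1 = (l' - ζ) (l' - ζ⁻¹)`, the second
factor and `1 - l'` are units (`unit_poly`); `unif`, `trans_e`, `caseAB0`. -/
theorem caseA (mk : X →+ B) (hmk : ∀ (g : G1) x, mk (g • x) = g • mk x)
    (tf : ∀ (n : ℤ) (b : B), n ≠ 0 → n • b = 0 → b = 0) (h γ : X) (hg : Kg h) (hf : Kf γ)
    (hγ : mk γ ≠ 0) (U : Matrix T T ℤ) (hU : IsUnit (am U (1 : ℤ)).det) :
    ¬ Obs h (h + γ) U := by
  intro hO
  obtain ⟨ζ, hz, hzc⟩ := caseAB_zeta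
  obtain ⟨G, hG, hGt⟩ := caseAB_gop B
  have hGH : G (mk h) = 0 := by
    rw [hG, ← hmk, ← hmk, ← map_sub, ← map_add, show tt 3 • h - tt 1 • h + h = 0 from hg, map_zero]
  have hfΓ : Kf (mk γ) := by
    show tt 3 • mk γ - tt 2 • mk γ + mk γ = 0
    rw [← hmk, ← hmk, ← map_sub, ← map_add, show tt 3 • γ - tt 2 • γ + γ = 0 from hf, map_zero]
  have hc0 : G (-(mk (h + γ))) ≠ 0 := by
    rw [map_neg, map_add, map_add, hGH, zero_add, neg_ne_zero]
    intro h0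
    exact hγ (kf_kg hfΓ (by rw [hG] at h0; exact h0))
  have hcf : Kf (G (-(mk (h + γ)))) := by
    show tt 3 • G (-(mk (h + γ))) - tt 2 • G (-(mk (h + γ))) + G (-(mk (h + γ))) = 0
    rw [map_neg, map_add, map_add, hGH, zero_add, smul_neg, smul_neg, ← hGt, ← hGt]
    have h1 := congrArg G (show tt 3 • mk γ - tt 2 • mk γ + mk γ = 0 from hfΓ)
    rw [map_add, map_sub, map_zero] at h1
    rw [← neg_eq_zero, ← h1]
    abel
  generalize hb0 : -(mk (h + γ)) = b0 at hc0 hcf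
  have hb : b0 ≠ 0 := fun h0 => hc0 (by rw [h0, map_zero])
  obtain ⟨B0, θ, K, _, O, cj, e, ι, hK, hθ, hB, pure⟩ := caseAB_vd tf b0 hb ζ hzc
  have hmem : b0 ∈ B0 := (hB b0).2 ⟨1, 1, one_ne_zero, rfl⟩
  have hnp := np_of tf b0 hB (fun i p q hi hq h0 => by
    refine nonpar tf hc0 (Or.inl hcf) i p q hi hq ?_
    rw [← hGt, ← map_zsmul, h0, map_zsmul])
  obtain ⟨τ, hgood⟩ := good_of hK mk hmk hnp (fun _ => 1) rfl (fun _ _ => (one_mul 1).symm)
    (fun _ => map_one _) 0 (fun _ => one_pow _) 1 one_pos (fun _ => rfl)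
  have hblock : ∀ (T' : Type) [Fintype T'] [DecidableEq T'] (V : Matrix T' T' ℤ),
      IsUnit (am V (1 : ℤ)).det → ∀ j : ℤ,
      unitO O (am V (ι 1 * e (mk (-(tt j • h))))).det := by
    intro T' _ _ V hV j
    by_cases hj : mk (-(tt j • h)) ∈ B0
    · obtain ⟨n, m, hn, hnm⟩ := (hB _).1 hj
      have h1 := congrArg G hnm
      rw [map_zsmul, map_zsmul, map_neg, map_neg, hmk, hGt, hGH, smul_zero, neg_zero,
        smul_zero] at h1
      have hm : m = 0 := by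
        by_contra hm
        exact hc0 (tf m _ hm h1.symm)
      rw [hm, zero_smul] at hnm
      rw [tf n _ hn hnm, hK.fk.e0, map_one, one_mul]
      exact unit_det1 V hV
    · exact unit_det hK pure V hV 1 one_ne_zero _ hj
  obtain ⟨I, hI⟩ := hO K O cj τ 1 _ hgood (fun j hj => ⟨hblock T U hU j, hblock _ UJ caseAB_UJ j, by
    refine unit_det hK pure UJ caseAB_UJ 1 one_ne_zero _ ?_
    rw [map_neg, hmk, ← smul_neg, hb0]
    exact hnp b0 hmem hb j hj⟩)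
  obtain ⟨k1, k2, k3⟩ := caseAB_key hK tf b0 hmem hb 1 ζ one_ne_zero hz (by rw [one_mul, hθ])
    (ι 1 * e (mk (-(h + γ)))) (by rw [map_neg, hb0])
  have hh0 : -h = -(tt 0 • h) := by rw [tt_zero, one_smul]
  refine caseAB0 hgood.vr U _ _ (hgood.chi_mem (-h)) (hgood.chi_mem (-(h + γ)))
    (caseAB_norm hgood (-h)) (caseAB_norm hgood (-(h + γ))) ?_ ?_ k1 k2 k3 I hI
  · rw [hh0]
    exact hblock T U hU 0
  · rw [hh0]
    exact hblock _ UJ caseAB_UJ 0

/-- `Ω = ℂ`, `ω` from `exOm`, `n` from `Per` (`ω (2 ^ N • x) = 1`), `b0 = - mk h`,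
`θ b0 = ω (h + γ) ζ`, so that `l' = ι (ω (-(h + γ))) * e b0` is congruent to `ζ` and
`l = - l'` to `- ζ`, a primitive cube root of unity (`cyc3`, `unit_det0`). -/
theorem caseB (mk : X →+ B) (hmk : ∀ (g : G1) x, mk (g • x) = g • mk x)
    (tf : ∀ (n : ℤ) (b : B), n ≠ 0 → n • b = 0 → b = 0) (h γ : X) (hg : Kg h)
    (hγ : mk γ = 0) (hh : mk h ≠ 0) (N : ℕ) (hN : ¬ ∃ x, γ = (2 ^ N : ℤ) • x) (hP : Per X)
    (U : Matrix T T ℤ) (hU : IsUnit (am U (1 : ℤ)).det) : ¬ Obs h (h + γ) U := by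
  intro hO
  obtain ⟨ζ, hz, hzc⟩ := caseAB_zeta
  obtain ⟨ω, w0, wadd, wγ, wN, wcj⟩ := exOm γ N hN
  obtain ⟨n, hn, hper⟩ := hP N
  have wne : ∀ x, ω x ≠ 0 := fun x h0 => by
    have h1 := wadd x (-x)
    rw [add_neg_cancel, w0, h0, zero_mul] at h1
    exact one_ne_zero h1
  have wpow : ∀ (k : ℕ) x, ω ((k : ℤ) • x) = ω x ^ k := by
    intro k x
    induction k with
    | zero => simp [w0]
    | succ k ih => rw [Nat.cast_succ, add_smul, one_smul, wadd, ih, pow_succ]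
  have wper : ∀ x, ω (tt (-(n : ℤ)) • x) = ω x := by
    intro x
    obtain ⟨x', hx'⟩ := hper (tt (-(n : ℤ)) • x)
    rw [← mul_smul, ← tt_add, add_neg_cancel, tt_zero, one_smul] at hx'
    have h1 : x = tt (-(n : ℤ)) • x + ((2 ^ N : ℕ) : ℤ) • x' := by
      rw [Nat.cast_pow, Nat.cast_ofNat, ← hx']
      abel
    conv_rhs => rw [h1]
    rw [wadd, wpow, wN, mul_one]
  have hgb : Kg (-(mk h)) := by
    show tt 3 • (-(mk h)) - tt 1 • (-(mk h)) + (-(mk h)) = 0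
    have h1 := congrArg mk (show tt 3 • h - tt 1 • h + h = 0 from hg)
    rw [map_add, map_sub, map_zero, hmk, hmk] at h1
    rw [smul_neg, smul_neg, ← neg_eq_zero, ← h1]
    abel
  have hb : -(mk h) ≠ 0 := neg_ne_zero.2 hh
  have hmkγ : mk (h + γ) = mk h := by rw [map_add, hγ, add_zero]
  generalize hb0 : -(mk h) = b0 at hgb hb
  have hu : (starRingEnd ℂ) (ω (h + γ) * ζ) * (ω (h + γ) * ζ) = 1 := by
    have h1 : ω (-(h + γ)) * ω (h + γ) = 1 := by rw [← wadd, neg_add_cancel, w0]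
    rw [map_mul, wcj]
    linear_combination ((starRingEnd ℂ) ζ * ζ) * h1 + hzc
  obtain ⟨B0, θ, K, _, O, cj, e, ι, hK, hθ, hB, pure⟩ := caseAB_vd tf b0 hb _ hu
  have hmem : b0 ∈ B0 := (hB b0).2 ⟨1, 1, one_ne_zero, rfl⟩
  have hnp := np_of tf b0 hB (fun i p q hi hq => nonpar tf hb (Or.inr hgb) i p q hi hq)
  obtain ⟨τ, hgood⟩ := good_of hK mk hmk hnp ω w0 wadd wcj N wN n hn wper
  obtain ⟨I, hI⟩ := hO K O cj τ n _ hgood (fun j hj => by
    have h1 : mk (-(tt j • h)) ∉ B0 := by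
      rw [map_neg, hmk, ← smul_neg, hb0]
      exact hnp b0 hmem hb j hj
    have h2 : mk (-(tt j • (h + γ))) ∉ B0 := by
      rw [map_neg, hmk, hmkγ, ← smul_neg, hb0]
      exact hnp b0 hmem hb j hj
    exact ⟨unit_det hK pure U hU _ (wne _) _ h1, unit_det hK pure UJ caseAB_UJ _ (wne _) _ h1,
      unit_det hK pure UJ caseAB_UJ _ (wne _) _ h2⟩)
  obtain ⟨k1, k2, k3⟩ := caseAB_key hK tf b0 hmem hb (ω (-(h + γ))) ζ (wne _) hz
    (by rw [hθ, ← mul_assoc, ← wadd, neg_add_cancel, w0, one_mul])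
    (ι (ω (-(h + γ))) * e (mk (-(h + γ)))) (by rw [map_neg, hmkγ, hb0])
  have hzz : ω (-h) * θ b0 = -ζ := by
    rw [hθ, ← mul_assoc, ← wadd, neg_add_cancel_left, wγ, neg_one_mul]
  have hz3 : (-ζ) ^ 2 + (-ζ) + 1 = 0 := by linear_combination hz
  have hblock : ∀ (T' : Type) [Fintype T'] [DecidableEq T'] (V : Matrix T' T' ℤ),
      IsUnit (am V (1 : ℤ)).det → unitO O (am V (ι (ω (-h)) * e (mk (-h)))).det := by
    intro T' _ _ V hV
    rw [map_neg, hb0]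
    exact unit_det0 hK V _ b0 hmem hb (by rw [hzz]; exact cyc3 V hV _ hz3)
  exact caseAB0 hgood.vr U _ _ (hgood.chi_mem (-h)) (hgood.chi_mem (-(h + γ)))
    (caseAB_norm hgood (-h)) (caseAB_norm hgood (-(h + γ))) (hblock T U hU)
    (hblock _ UJ caseAB_UJ) k1 k2 k3 I hI

end Pool.Agent.AS
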