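import Pool.Agent.Lib.MP_dae8ad_gt.A.Baer
import Pool.Agent.Lib.MP_dae8ad_gt.A.NumTh

namespace Pool.Agent.AS

open Matrix

section
variable {T K : Type} [Fintype T] [Field K] {O : Subring K} {cj : K →+* K}

/-- The two indices of the third block. -/
abbrev caseAB0_ix (T : Type) (b : Bool) : N3 T := Sum.inr (Sum.inr (0, b))

theorem caseAB0_mv (U : Matrix T T ℤ) (l l' : K) (x : N3 T → K) :
    (∀ i, (A3 U l l').mulVec x (Sum.inl i) = (am U l).mulVec (x ∘ Sum.inl) i) ∧
    (∀ i, (A3 U l l').mulVec x (Sum.inr (Sum.inl i)) =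
      (am UJ l).mulVec (x ∘ Sum.inr ∘ Sum.inl) i) ∧
    (A3 U l l').mulVec x (caseAB0_ix T false) =
      (l' - 1) * x (caseAB0_ix T false) - x (caseAB0_ix T true) ∧
    (A3 U l l').mulVec x (caseAB0_ix T true) =
      l' * x (caseAB0_ix T false) + (l' - 1) * x (caseAB0_ix T true) := by
  simp only [A3, fromBlocks_mulVec, zero_mulVec, add_zero, zero_add, Sum.elim_inl, Sum.elim_inr]
  refine ⟨fun _ => trivial, fun _ => rfl, ?_, ?_⟩ <;>
    simp [mulVec, dotProduct, Fintype.sum_prod_type, am, UJ] <;> ring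

theorem caseAB0_am {S : Type} (U : Matrix S S ℤ) {l : K} (hl : l ∈ O) (i j : S) :
    am U l i j ∈ O :=
  O.sub_mem (intCast_mem O _) (O.mul_mem hl (intCast_mem O _))

theorem caseAB0_bf [DecidableEq T] (hv : VR O cj) (U : Matrix T T ℤ) {l l' : K} (hl : l ∈ O)
    (h1 : unitO O (am U l).det) (h2 : unitO O (am UJ l).det) {x y : N3 T → K}
    (hx : inL O ((A3 U l l').mulVec x)) (hy : inL O ((A3 U l l').mulVec y)) :
    ∃ r ∈ O, bf cj (A3 U l l') (c3 T l l') y x = r - (1 - l') *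
      (cj ((A3 U l l').mulVec y (caseAB0_ix T false)) * x (caseAB0_ix T false) +
        cj ((A3 U l l').mulVec y (caseAB0_ix T true)) * x (caseAB0_ix T true)) := by
  obtain ⟨e1, e2, -, -⟩ := caseAB0_mv U l l' x
  have a1 := inL_of_det _ (caseAB0_am U hl) h1 (x ∘ Sum.inl) fun i => e1 i ▸ hx _
  have a2 := inL_of_det _ (caseAB0_am UJ hl) h2 (x ∘ Sum.inr ∘ Sum.inl) fun i => e2 i ▸ hx _
  have hc : 1 - l ∈ O := O.sub_mem O.one_mem hl
  refine ⟨∑ i, (1 - l) * cj ((A3 U l l').mulVec y (Sum.inl i)) * x (Sum.inl i) +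
    ∑ i, (1 - l) * cj ((A3 U l l').mulVec y (Sum.inr (Sum.inl i))) * x (Sum.inr (Sum.inl i)),
    O.add_mem (sum_mem fun i _ => O.mul_mem (O.mul_mem hc (hv.cj_mem _ (hy _))) (a1 i))
      (sum_mem fun i _ => O.mul_mem (O.mul_mem hc (hv.cj_mem _ (hy _))) (a2 i)), ?_⟩
  rw [bf, Fintype.sum_sum_type, Fintype.sum_sum_type, Fintype.sum_prod_type (α₁ := Fin 1)
    (f := fun i => c3 T l l' (Sum.inr (Sum.inr i)) * _ * _), Fin.sum_univ_one, Fintype.sum_bool]
  simp only [c3, Sum.elim_inl, Sum.elim_inr]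
  ring

end

/-- A linking form of length one has no Lagrangian.  For `y` with `A3 y ∈ L` the first two blocks
of `y` lie in `L` (`inL_of_det`).  For a block, `cj ((am U l) y) ⬝ x = - cj l * (cj y ⬝ (am U l) x)`,
so `bf y x ∈ O` when `y ∈ L` and `A3 x ∈ L`, and also when `x ∈ L`.  If all `y ∈ I` lie in `L` then
`x = (0, 0, adjugate column / π)` lies in `I` but not in `L` (`π = l'² - l' + 1`, the diagonal
entries `l' - 1` are units).  Otherwise take `y ∈ I` with third block `y3 = M z / π ∉ L`,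
`M` the adjugate, `z ∈ L`; `bf y y ∈ O` gives `cj z ⬝ M z ∈ π O`; the identity
`M11 (cj z ⬝ M z) = (cj z M)_1 (M z)_1 + π cj z_2 z_2` and `(cj z M)_1 = unit * cj ((M z)_1)` give
`(M z)_1 ∈ π O` (`mO_prime`, `mO_cj`), then `(M z)_2 ∈ π O`. -/
theorem caseAB0 {T K : Type} [Fintype T] [DecidableEq T] [Field K] {O : Subring K} {cj : K →+* K}
    (hv : VR O cj) (U : Matrix T T ℤ) (l l' : K) (hl : l ∈ O) (hl' : l' ∈ O) (hc : cj l * l = 1)
    (hc' : cj l' * l' = 1) (h1 : unitO O (am U l).det) (h2 : unitO O (am UJ l).det)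
    (h3 : unitO O (1 - l')) (hπ : l' ^ 2 - l' + 1 ≠ 0)
    (hm : ∀ k, mO O k ↔ ∃ k' ∈ O, k = (l' ^ 2 - l' + 1) * k') (I : Set (N3 T → K)) :
    ¬ Lagr O cj (A3 U l l') (c3 T l l') I := by
  intro hI
  have hmO : cj l' ∈ O := hv.cj_mem _ hl'
  have hl1 : l' - 1 ∈ O := O.sub_mem hl' O.one_mem
  have key : ∀ a b : K, cj ((l' - 1) * a - b) * (l' - 1) - cj (l' * a + (l' - 1) * b) * l' =
      -(cj l' * (l' ^ 2 - l' + 1) * cj a) := fun a b => by
    simp only [map_sub, map_add, map_mul, map_one]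
    linear_combination (cj a * (l' - 1) - cj b) * hc'
  by_cases hall : ∀ y ∈ I, y (caseAB0_ix T false) ∈ O
  · obtain ⟨ρ, hρ⟩ : ∃ ρ, (l' ^ 2 - l' + 1) * ρ = 1 := ⟨_, mul_inv_cancel₀ hπ⟩
    let x : N3 T → K := Sum.elim 0 (Sum.elim 0 fun i => (if i.2 then -l' else l' - 1) * ρ)
    have xf : x (caseAB0_ix T false) = (l' - 1) * ρ := rfl
    have xt : x (caseAB0_ix T true) = -l' * ρ := rfl
    obtain ⟨e1, e2, e3, e4⟩ := caseAB0_mv U l l' x
    have hx : inL O ((A3 U l l').mulVec x) := by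
      rintro (i | i | ⟨i, b⟩)
      · rw [e1, show x ∘ Sum.inl = 0 from rfl, mulVec_zero]
        exact O.zero_mem
      · rw [e2, show x ∘ Sum.inr ∘ Sum.inl = 0 from rfl, mulVec_zero]
        exact O.zero_mem
      · obtain rfl : i = 0 := Subsingleton.elim _ _
        cases b
        · rw [e3, xf, xt, show (l' - 1) * ((l' - 1) * ρ) - -l' * ρ = 1 by linear_combination hρ]
          exact O.one_mem
        · rw [e4, xf, xt, show l' * ((l' - 1) * ρ) + (l' - 1) * (-l' * ρ) = 0 by ring]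
          exact O.zero_mem
    have hxI : x ∈ I := (hI x).2 ⟨hx, fun y hy => by
      obtain ⟨r, hr, e⟩ := caseAB0_bf hv U hl h1 h2 hx ((hI y).1 hy).1
      obtain ⟨-, -, f3, f4⟩ := caseAB0_mv U l l' y
      have k := key (y (caseAB0_ix T false)) (y (caseAB0_ix T true))
      rw [← f3, ← f4] at k
      have k2 : cj ((A3 U l l').mulVec y (caseAB0_ix T false)) * x (caseAB0_ix T false) +
          cj ((A3 U l l').mulVec y (caseAB0_ix T true)) * x (caseAB0_ix T true) =
          -(cj l' * cj (y (caseAB0_ix T false))) := by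
        rw [xf, xt]
        linear_combination ρ * k - cj l' * cj (y (caseAB0_ix T false)) * hρ
      rw [e, k2]
      exact O.sub_mem hr (O.mul_mem h3.1 (O.neg_mem (O.mul_mem hmO (hv.cj_mem _ (hall y hy)))))⟩
    refine ((hm (1 - l')).2 ⟨_, O.neg_mem (hall x hxI), ?_⟩).2 h3
    rw [xf]
    linear_combination (l' - 1) * hρ
  · apply hall
    intro y hy
    have hL := ((hI y).1 hy).1
    obtain ⟨r, hr, e⟩ := caseAB0_bf hv U hl h1 h2 hL hL
    obtain ⟨-, -, f3, f4⟩ := caseAB0_mv U l l' y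
    have hp := hL (caseAB0_ix T false)
    have hq := hL (caseAB0_ix T true)
    have hb := ((hI y).1 hy).2 y hy
    rw [e, f3, f4] at hb
    rw [f3] at hp
    rw [f4] at hq
    generalize y (caseAB0_ix T false) = a at *
    generalize y (caseAB0_ix T true) = b at *
    have k := key a b
    have hu : (l' ^ 2 - l' + 1) * a ∈ O := by
      have := O.add_mem (O.mul_mem hl1 hp) hq
      convert this using 1
      ring
    have hw : cj l' * (l' ^ 2 - l' + 1) * cj a * a ∈ O := by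
      have := O.sub_mem (O.mul_mem hq (hv.cj_mem _ hq)) (O.sub_mem hb hr)
      convert this using 1
      linear_combination a * k
    have h5 : mO O ((l' ^ 2 - l' + 1) * a * cj ((l' ^ 2 - l' + 1) * a)) := by
      refine (hm _).2 ⟨_, O.mul_mem hmO hw, ?_⟩
      simp only [map_sub, map_add, map_mul, map_one, map_pow]
      linear_combination (-(l' ^ 2 - l' + 1) * a * cj a * (cj l' * l' + 1 - cj l')) * hc'
    have h6 : mO O ((l' ^ 2 - l' + 1) * a) :=
      (mO_prime hu (hv.cj_mem _ hu) h5).elim id (mO_cj hv).1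
    obtain ⟨k', hk', e'⟩ := (hm _).1 h6
    rwa [mul_left_cancel₀ hπ e']

end Pool.Agent.AS
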