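import Pool.Agent.Lib.MP_dae8ad_gt.Defs

/-! The interface between the diagram part and the algebraic part. -/

namespace Pool.Agent.AS

open Matrix

abbrev G1 := Multiplicative ℤ

/-- The power `t ^ j` of the generator. -/
def tt (j : ℤ) : G1 := Multiplicative.ofAdd j

theorem tt_add (i j : ℤ) : tt (i + j) = tt i * tt j := rfl
theorem tt_zero : tt 0 = 1 := rfl
theorem tt_neg (i : ℤ) : tt (-i) = (tt i)⁻¹ := rfl

section
variable {K : Type} [Field K]

def unitO (O : Subring K) (k : K) : Prop := k ∈ O ∧ k⁻¹ ∈ O ∧ k ≠ 0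

/-- The maximal ideal of a valuation ring. -/
def mO (O : Subring K) (k : K) : Prop := k ∈ O ∧ ¬ unitO O k

def inL {N : Type} (O : Subring K) (x : N → K) : Prop := ∀ i, x i ∈ O

/-- A discrete valuation ring (or a field) with an involution. -/
structure VR (O : Subring K) (cj : K →+* K) : Prop where
  pid : IsPrincipalIdealRing O
  val : ∀ k : K, k ∈ O ∨ k⁻¹ ∈ O
  cj_cj : ∀ k, cj (cj k) = k
  cj_mem : ∀ k ∈ O, cj k ∈ O

def Far (O : Subring K) (τ : K ≃+* K) : Prop :=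
  ∀ k : K, ∃ m0 : ℕ, ∀ m : ℕ, m0 ≤ m → τ^[m] k ∈ O ∧ τ.symm^[m] k ∈ O

/-- The quotient module `K / O`. -/
abbrev QO (O : Subring K) := K ⧸ (1 : Submodule O K)

theorem QO_zero (O : Subring K) (k : K) :
    (Submodule.Quotient.mk k : QO O) = 0 ↔ k ∈ O := by
  rw [Submodule.Quotient.mk_eq_zero, Submodule.mem_one]
  exact ⟨fun ⟨a, ha⟩ => ha ▸ a.2, fun h => ⟨⟨k, h⟩, rfl⟩⟩

/-- The matrix `U - l Uᵀ`. -/
def am {T R : Type} [CommRing R] (U : Matrix T T ℤ) (l : R) : Matrix T T R :=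
  fun i j => (U i j : R) - l * (U j i : R)

def Jm (g : ℕ) : Matrix (Fin g × Bool) (Fin g × Bool) ℤ := fun i j =>
  if i.1 = j.1 then (if i.2 = false ∧ j.2 = true then 1 else if i.2 = true ∧ j.2 = false then -1
    else 0) else 0

/-- A Seifert matrix of the trefoil. -/
def UJ : Matrix (Fin 1 × Bool) (Fin 1 × Bool) ℤ := fun i j =>
  if i.2 = true ∧ j.2 = false then 0 else -1

abbrev N3 (T : Type) := T ⊕ ((Fin 1 × Bool) ⊕ (Fin 1 × Bool))

def A3 {T : Type} (U : Matrix T T ℤ) (l l' : K) : Matrix (N3 T) (N3 T) K :=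
  fromBlocks (am U l) 0 0 (fromBlocks (am UJ l) 0 0 (am UJ l'))

def c3 (T : Type) (l l' : K) : N3 T → K :=
  Sum.elim (fun _ => 1 - l) (Sum.elim (fun _ => 1 - l) (fun _ => -(1 - l')))

/-- The linking form. -/
def bf {N : Type} [Fintype N] (cj : K →+* K) (A : Matrix N N K) (c : N → K) (y x : N → K) : K :=
  ∑ i, c i * cj (A.mulVec y i) * x i

/-- `I` is its own annihilator for the linking form on `A⁻¹ L / L`. -/
def Lagr {N : Type} [Fintype N] (O : Subring K) (cj : K →+* K) (A : Matrix N N K) (c : N → K)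
    (I : Set (N → K)) : Prop :=
  ∀ x, x ∈ I ↔ inL O (A.mulVec x) ∧ ∀ y ∈ I, bf cj A c y x ∈ O

end

section
variable (X : Type) [AddCommGroup X] [DistribMulAction G1 X]

structure Good {K : Type} [Field K] (O : Subring K) (cj : K →+* K) (τ : K ≃+* K) (n : ℕ)
    (χ : X → K) : Prop where
  vr : VR O cj
  far : Far O τ
  npos : 0 < n
  chi_zero : χ 0 = 1
  chi_add : ∀ x y, χ (x + y) = χ x * χ y
  chi_mem : ∀ x, χ x ∈ O
  chi_cj : ∀ x, cj (χ x) = χ (-x)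
  cov : ∀ x, χ (tt (-n) • x) = τ (χ x)
  odd : ∀ r : X →₀ ℤ, Odd (r.sum fun _ a => a) → (r.sum fun x a => (a : K) * χ x) ≠ 0

variable {X}

/-- The second order obstruction. -/
def Obs {T : Type} [Fintype T] [DecidableEq T] (h h' : X) (U : Matrix T T ℤ) : Prop :=
  ∀ (K : Type) [Field K] (O : Subring K) (cj : K →+* K) (τ : K ≃+* K) (n : ℕ) (χ : X → K),
    Good X O cj τ n χ →
    (∀ j : ℤ, j ≠ 0 → unitO O (am U (χ (-(tt j • h)))).det ∧
      unitO O (am UJ (χ (-(tt j • h)))).det ∧ unitO O (am UJ (χ (-(tt j • h')))).det) →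
    ∃ I, Lagr O cj (A3 U (χ (-h)) (χ (-h'))) (c3 T (χ (-h)) (χ (-h'))) I

/-- The first order obstruction. -/
def L1 (h γ : X) : Prop :=
  ∀ a b N : ℕ, a + b < N →
    ¬ ((∃ x : X, (2 ^ a : ℤ) • γ = (2 ^ N : ℤ) • x) ∧ ∃ x : X, (2 ^ b : ℤ) • h = (2 ^ N : ℤ) • x)

variable (X)

def Per : Prop :=
  ∀ N : ℕ, ∃ n : ℕ, 0 < n ∧ ∀ x : X, ∃ x' : X, tt n • x - x = (2 ^ N : ℤ) • x'

variable {X}

/-- `f = t ^ 3 - t ^ 2 + 1` kills `x`. -/
def Kf (x : X) : Prop := tt 3 • x - tt 2 • x + x = 0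

/-- `g = t ^ 3 - t + 1` kills `x`. -/
def Kg (x : X) : Prop := tt 3 • x - tt 1 • x + x = 0

end

end Pool.Agent.AS
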