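import Pool.Agent.Lib.MP_dae8ad_gt.A.WDefs

namespace Pool.Agent.AS

open Matrix

abbrev QB := AlgebraicClosure ℚ

/-- The form `S` is anisotropic on the kernel of `M` over the subfield `F`. -/
def AnF {m : Type} [Fintype m] (M S : Matrix m m QB) (F : IntermediateField ℚ QB) : Prop :=
  ∀ β : m → QB, (∀ i, β i ∈ F) → M.mulVec β = 0 → β ⬝ᵥ S.mulVec β = 0 → β = 0

variable {m : Type} [Fintype m] [DecidableEq m] {w C : Matrix m m ℚ}

omit [DecidableEq m] in
theorem omega1_mv {R R' : Type} [Field R] [Field R'] (f : R →+* R') (A : Matrix m m ℚ)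
    (v : m → R) : rq R' A *ᵥ (f ∘ v) = f ∘ (rq R A *ᵥ v) := by
  funext i
  simp [rq, mulVec, dotProduct]

omit [DecidableEq m] in
theorem omega1_dot {R R' : Type} [Field R] [Field R'] (f : R →+* R') (A : Matrix m m ℚ)
    (u v : m → R) : (f ∘ u) ⬝ᵥ rq R' A *ᵥ (f ∘ v) = f (u ⬝ᵥ rq R A *ᵥ v) := by
  rw [omega1_mv, RingHom.map_dotProduct]

omit [DecidableEq m] in
theorem omega1_orth {S A : Matrix m m ℚ} (h : S * A = Aᵀ * S) {u v : m → QB} {x y : QB}
    (hu : rq QB A *ᵥ u = x • u) (hv : rq QB A *ᵥ v = y • v) (hxy : x ≠ y) :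
    u ⬝ᵥ rq QB S *ᵥ v = 0 := by
  have h1 : rq QB S * rq QB A = (rq QB A)ᵀ * rq QB S := by
    ext i j
    simpa [rq, mul_apply] using congrArg (Rat.cast : ℚ → QB) (congrFun₂ h i j)
  have h2 := congrArg (fun M => u ⬝ᵥ M *ᵥ v) h1
  simp only [← mulVec_mulVec] at h2
  rw [hv, dotProduct_mulVec u (rq QB A)ᵀ, vecMul_transpose, hu, mulVec_smul, dotProduct_smul,
    smul_dotProduct] at h2
  exact (mul_eq_mul_right_iff.1 h2).resolve_left hxy.symm

/-- Let `F = ℚ⟮D⟯`, `β` with entries in `F`, `C² β = D β`, `β ⬝ w C β = 0`.  The span `W` of the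
rational vectors `T a = (Tr (a β_i))_i` and `C (T a)`, `a ∈ F`, is invariant
(`C² (T a) = T (a D)`) and isotropic: write the trace as a sum over the embeddings `σ`
(`trace_eq_sum_embeddings`); `C²` is self-adjoint for `w`, so `σβ ⬝ w σ'β` and `σβ ⬝ w C σ'β` vanish
when `σ D ≠ σ' D`, and for `σ = σ'` they vanish because `w` is skew and by hypothesis.  So
`T a = 0` for all `a` and `β = 0` (`traceForm_nondegenerate`). -/
theorem omega1 (hw : wᵀ = -w) (hC : w * C + Cᵀ * w = 0) (han : Aniso w C) (D : QB) :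
    AnF (rq QB (C * C) - D • (1 : Matrix m m QB)) (rq QB (w * C)) (IntermediateField.adjoin ℚ {D}) := by
  intro β hβ h1 h2
  set F := IntermediateField.adjoin ℚ {D}
  have : FiniteDimensional ℚ F :=
    IntermediateField.adjoin.finiteDimensional
      ((AlgebraicClosure.isAlgebraic ℚ).isAlgebraic D).isIntegral
  obtain ⟨b, rfl⟩ : ∃ b : m → F, β = algebraMap F QB ∘ b := ⟨fun i => ⟨β i, hβ i⟩, rfl⟩
  let d : F := IntermediateField.AdjoinSimple.gen ℚ D
  have e1 : rq F (C * C) *ᵥ b = d • b := funext fun i => Subtype.ext (by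
    rw [sub_mulVec, omega1_mv, smul_mulVec, one_mulVec, sub_eq_zero] at h1
    exact congrFun h1 i)
  have e2 : ∀ σ : F →ₐ[ℚ] QB, rq QB (C * C) *ᵥ (σ ∘ b) = σ d • (σ ∘ b) := fun σ => by
    refine (omega1_mv σ.toRingHom _ b).trans (funext fun i => ?_)
    simp [e1]
  let T : F →ₗ[ℚ] m → ℚ := LinearMap.pi fun i => Algebra.trace ℚ F ∘ₗ LinearMap.mulRight ℚ (b i)
  have e3 : ∀ a, algebraMap ℚ QB ∘ T a = ∑ σ : F →ₐ[ℚ] QB, σ a • (σ ∘ b) := fun a => by
    funext i
    refine (trace_eq_sum_embeddings QB).trans ?_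
    simp
  have e4 : ∀ a, C *ᵥ C *ᵥ T a = T (a * d) := fun a =>
    (algebraMap ℚ QB).injective.comp_left (by
      refine ((mulVec_mulVec _ C C).symm ▸ (omega1_mv _ (C * C) (T a)).symm).trans ?_
      simp only [e3, mulVec_sum, mulVec_smul, e2, smul_smul, map_mul])
  have e5 : ∀ S : Matrix m m ℚ, S * (C * C) = (C * C)ᵀ * S → b ⬝ᵥ rq F S *ᵥ b = 0 →
      ∀ a a', T a ⬝ᵥ S *ᵥ T a' = 0 := fun S hS hb a a' => (algebraMap ℚ QB).injective (by
    refine (omega1_dot _ S _ _).symm.trans ?_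
    simp only [e3, mulVec_sum, mulVec_smul, sum_dotProduct, dotProduct_sum, smul_dotProduct,
      dotProduct_smul, map_zero, Finset.smul_sum]
    refine Finset.sum_eq_zero fun σ _ => Finset.sum_eq_zero fun σ' _ => ?_
    by_cases h : σ' d = σ d
    · obtain rfl : σ' = σ := IntermediateField.adjoin_algHom_ext ℚ (by rintro _ rfl; exact h)
      rw [show (σ' ∘ b) ⬝ᵥ _ *ᵥ (σ' ∘ b) = _ from omega1_dot σ'.toRingHom S b b, hb, map_zero,
        smul_zero, smul_zero]
    · rw [omega1_orth hS (e2 _) (e2 _) h, smul_zero, smul_zero])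
  have hC' : Cᵀ * w = -(w * C) := eq_neg_of_add_eq_zero_right hC
  have hw2 : w * (C * C) = (C * C)ᵀ * w := by
    rw [transpose_mul, Matrix.mul_assoc, hC', Matrix.mul_neg, ← Matrix.mul_assoc Cᵀ, hC',
      Matrix.neg_mul, neg_neg, Matrix.mul_assoc]
  have e6 := e5 w hw2 (by
    have h3 : (rq F w)ᵀ = -rq F w := by
      ext i j
      simpa [rq] using congrArg (Rat.cast : ℚ → QB) (congrFun₂ hw i j)
    have h4 := dotProduct_mulVec b (rq F w) b
    rw [← mulVec_transpose, h3, neg_mulVec, neg_dotProduct, dotProduct_comm _ b] at h4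
    exact self_eq_neg.1 h4)
  have e7 := e5 (w * C) (by rw [← Matrix.mul_assoc (C * C)ᵀ, ← hw2]; simp only [Matrix.mul_assoc])
    ((algebraMap F QB).injective ((omega1_dot _ _ b b).symm.trans h2))
  have e8 : ∀ u v : m → ℚ, (C *ᵥ u) ⬝ᵥ w *ᵥ v = -(u ⬝ᵥ w *ᵥ C *ᵥ v) := fun u v => by
    rw [← vecMul_transpose, ← dotProduct_mulVec, mulVec_mulVec, hC', neg_mulVec, dotProduct_neg,
      mulVec_mulVec]
  have e9 := han (T.coprod (C.mulVecLin ∘ₗ T)).range (by
    rintro _ ⟨⟨a, a'⟩, rfl⟩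
    exact ⟨(a' * d, a), by simp [mulVec_add, ← e4, add_comm]⟩) (by
    rintro _ ⟨⟨a, a'⟩, rfl⟩ _ ⟨⟨c, c'⟩, rfl⟩
    simp only [← mulVec_mulVec] at e7
    simp only [LinearMap.coprod_apply, LinearMap.comp_apply, mulVecLin_apply, mulVec_add,
      add_dotProduct, dotProduct_add, e8, e4, e6, e7, neg_zero, add_zero])
  funext i
  have := (traceForm_nondegenerate ℚ F).1 (b i) fun a => by
    simpa [T, mul_comm] using congrFun (DFunLike.congr_fun (LinearMap.range_eq_bot.1 e9) (a, 0)) i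
  simp [this]

/-- An eigenvalue of `C²` and an eigenvector over the field it generates
(`Matrix.exists_mulVec_eq_zero_iff` over `ℚ⟮D⟯`, a root of the characteristic polynomial). -/
theorem omega1_eig [Nonempty m] (A : Matrix m m ℚ) :
    ∃ (D : QB) (β : m → QB), β ≠ 0 ∧ (∀ i, β i ∈ IntermediateField.adjoin ℚ {D}) ∧
      (rq QB A - D • (1 : Matrix m m QB)).mulVec β = 0 := by
  obtain ⟨D, hD⟩ := Module.End.exists_eigenvalue (toLin' (rq QB A))
  obtain ⟨v, hv⟩ := hD.exists_hasEigenvector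
  set F := IntermediateField.adjoin ℚ {D}
  let M : Matrix m m F := rq F A - IntermediateField.AdjoinSimple.gen ℚ D • 1
  have h1 : M.map (algebraMap F QB) = rq QB A - D • 1 := by
    ext i j
    by_cases h : i = j <;> simp [M, rq, one_apply, h]
  have h2 : (rq QB A - D • 1).det = 0 := exists_mulVec_eq_zero_iff.1 ⟨v, hv.2, by
    rw [sub_mulVec, smul_mulVec, one_mulVec, ← hv.apply_eq_smul, toLin'_apply, sub_self]⟩
  obtain ⟨b, hb, h3⟩ := (exists_mulVec_eq_zero_iff (M := M)).2 ((algebraMap F QB).injective (by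
    rw [RingHom.map_det, RingHom.mapMatrix_apply, h1, h2, map_zero]))
  refine ⟨D, algebraMap F QB ∘ b, fun h => hb (funext fun i => Subtype.ext (congrFun h i)),
    fun i => (b i).2, funext fun i => ?_⟩
  rw [← h1, ← RingHom.map_mulVec, h3]
  rfl

end Pool.Agent.AS
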