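import Pool.Agent.Lib.MP_dae8ad_gt.A.Omega1

namespace Pool.Agent.AS

open Matrix Polynomial

theorem omega2_fac {F : Type} [Field F] (n : ℕ) : ∀ h : F[X], h.natDegree = n → Odd n →
    ∃ p : F[X], Irreducible p ∧ p ∣ h ∧ Odd p.natDegree := by
  induction n using Nat.strong_induction_on with
  | _ n ih =>
  intro h hn ho
  have hpos : 0 < h.natDegree := hn ▸ ho.pos
  obtain ⟨p, hp, g, hg⟩ := exists_irreducible_of_natDegree_pos hpos
  have h0 : h ≠ 0 := by rintro rfl; simp at hpos
  have hg0 : g ≠ 0 := by rintro rfl; simp [h0] at hg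
  have hd : n = p.natDegree + g.natDegree := by rw [← hn, hg, natDegree_mul hp.ne_zero hg0]
  by_cases hpo : Odd p.natDegree
  · exact ⟨p, hp, ⟨g, hg⟩, hpo⟩
  · have hp1 := hp.natDegree_pos
    have hgo : Odd g.natDegree := by
      rw [Nat.odd_iff] at *
      omega
    obtain ⟨q, hq, hqg, hqo⟩ := ih g.natDegree (by omega) g rfl hgo
    exact ⟨q, hq, hg ▸ hqg.mul_left p, hqo⟩

theorem omega2_coeff {F m : Type} [Field F] [Fintype m] (M : Matrix m m F) (β : m → F[X]) (d : ℕ)
    (i : m) : (((M.map C).mulVec β) i).coeff d = M.mulVec (fun j => (β j).coeff d) i := by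
  simp [mulVec, dotProduct, finsetSum_coeff]

theorem omega2_deg {F m : Type} [Field F] [Fintype m] (M : Matrix m m F) (β : m → F[X]) (d : ℕ)
    (h : ∀ j, (β j).natDegree ≤ d) (i : m) : (((M.map C).mulVec β) i).natDegree ≤ d := by
  simp only [mulVec, dotProduct, map_apply]
  exact natDegree_sum_le_of_forall_le _ _ fun j _ => (natDegree_C_mul_le _ _).trans (h j)

theorem omega2_spr {F m : Type} [Field F] [Fintype m] (M S : Matrix m m F)
    (an : ∀ v : m → F, M.mulVec v = 0 → v ⬝ᵥ S.mulVec v = 0 → v = 0) (n : ℕ) :
    ∀ p : F[X], Irreducible p → p.natDegree = n → Odd n → ∀ β : m → F[X],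
      (∀ i, p ∣ (M.map C).mulVec β i) → p ∣ β ⬝ᵥ (S.map C).mulVec β → ∀ i, p ∣ β i := by
  induction n using Nat.strong_induction_on with
  | _ n ih =>
  intro p hp hn ho
  have key : ∀ d, d ≤ n → ∀ β : m → F[X], (∀ i, (β i).degree < d) → (M.map C).mulVec β = 0 →
      p ∣ β ⬝ᵥ (S.map C).mulVec β → β = 0 := by
    intro d
    induction d with
    | zero =>
      intro _ β hβ _ _
      funext i
      have := hβ i
      rwa [Nat.cast_zero, Nat.WithBot.lt_zero_iff, degree_eq_bot] at this
    | succ d ihd =>
      intro hd β hβ hM hq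
      have hβ' : ∀ i, (β i).natDegree ≤ d := fun i => by
        by_cases h0 : β i = 0
        · simp [h0]
        · have := (natDegree_lt_iff_degree_lt h0).2 (hβ i)
          omega
      by_cases hv : (fun j => (β j).coeff d) = 0
      · refine ihd (by omega) β (fun i => ?_) hM hq
        rw [degree_lt_iff_coeff_zero]
        intro k hk
        rcases hk.eq_or_lt with rfl | hk
        · exact congrFun hv i
        · exact coeff_eq_zero_of_natDegree_lt ((hβ' i).trans_lt hk)
      have h1 : M.mulVec (fun j => (β j).coeff d) = 0 := by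
        funext i
        rw [← omega2_coeff, hM]
        simp
      have h2 : (β ⬝ᵥ (S.map C).mulVec β).coeff (d + d) ≠ 0 := by
        intro h
        refine hv (an _ h1 ?_)
        rw [← h, dotProduct, dotProduct, finsetSum_coeff]
        refine Finset.sum_congr rfl fun i _ => ?_
        rw [coeff_mul_add_eq_of_natDegree_le (hβ' i) (omega2_deg S β d hβ' i), omega2_coeff]
      have h3 : (β ⬝ᵥ (S.map C).mulVec β).natDegree = d + d := by
        refine le_antisymm ?_ (le_natDegree_of_ne_zero h2)
        exact natDegree_sum_le_of_forall_le _ _ fun i _ =>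
          natDegree_mul_le.trans (add_le_add (hβ' i) (omega2_deg S β d hβ' i))
      obtain ⟨h, hh⟩ := hq
      have hh0 : h ≠ 0 := by
        rintro rfl
        rw [hh] at h2
        simp at h2
      rw [hh, natDegree_mul hp.ne_zero hh0, hn] at h3
      obtain ⟨r, hr, hrh, hro⟩ := omega2_fac h.natDegree h rfl (by
        rw [Nat.odd_iff] at *
        omega)
      have hrd : r.natDegree < n := (natDegree_le_of_dvd hrh hh0).trans_lt (by omega)
      have h4 := ih _ hrd r hr rfl hro β (fun i => by rw [hM]; simp) (hh ▸ hrh.mul_left p)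
      choose γ hγ using h4
      have hb : β = r • γ := funext fun i => hγ i
      have h5 : γ = 0 := by
        refine ihd (by omega) γ (fun i => ?_) ?_ ?_
        · by_cases h0 : γ i = 0
          · rw [h0, degree_zero]
            exact WithBot.bot_lt_coe _
          · rw [← natDegree_lt_iff_degree_lt h0]
            have := hβ' i
            rw [hγ i, natDegree_mul hr.ne_zero h0] at this
            have := hr.natDegree_pos
            omega
        · rw [hb, mulVec_smul] at hM
          exact (smul_eq_zero.1 hM).resolve_left hr.ne_zero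
        · have hnd : ¬ p ∣ r := fun hd' => by
            have := natDegree_le_of_dvd hd' hr.ne_zero
            omega
          have h6 : p ∣ r * (r * (γ ⬝ᵥ (S.map C).mulVec γ)) := by
            refine ⟨h, ?_⟩
            rw [← hh, hb, mulVec_smul, smul_dotProduct, dotProduct_smul, smul_eq_mul, smul_eq_mul]
          exact (hp.prime.dvd_or_dvd ((hp.prime.dvd_or_dvd h6).resolve_left hnd)).resolve_left hnd
      rw [hb, h5, smul_zero]
  intro β hM hq
  have hb : β = (fun i => β i % p) + p • fun i => β i / p := by
    funext i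
    simp [EuclideanDomain.mod_add_div]
  have hlt : ∀ i, (β i % p).degree < n := fun i => by
    rw [← hn, ← degree_eq_natDegree hp.ne_zero]
    exact degree_mod_lt _ hp.ne_zero
  generalize (fun i => β i / p) = δ at hb
  generalize hγ : (fun i => β i % p) = γ at hb
  have hlt' : ∀ i, (γ i).degree < n := fun i => hγ ▸ hlt i
  have h0 : γ = 0 := by
    refine key n le_rfl γ hlt' ?_ ?_
    · funext i
      have h1 := hM i
      rw [hb, mulVec_add, mulVec_smul, Pi.add_apply, Pi.smul_apply, smul_eq_mul] at h1
      refine eq_zero_of_dvd_of_natDegree_lt ((dvd_add_left (dvd_mul_right _ _)).1 h1) ?_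
      have h2 := omega2_deg M γ (n - 1) (fun j => by
        by_cases h0 : γ j = 0
        · simp [h0]
        · have := (natDegree_lt_iff_degree_lt h0).2 (hlt' j)
          omega) i
      have := ho.pos
      omega
    · rw [hb, mulVec_add, mulVec_smul, add_dotProduct, dotProduct_add, smul_dotProduct,
        dotProduct_smul, smul_eq_mul, smul_eq_mul, add_assoc] at hq
      exact (dvd_add_left (dvd_add (dvd_mul_right _ _) (dvd_mul_right _ _))).1 hq
  intro i
  rw [hb, h0, zero_add]
  exact dvd_mul_right _ _

/-- Springer's theorem with Zorn's lemma.  Take `F ≥ F0` maximal with `AnF M S F` (unions of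
chains work: finitely many entries).  If `α` is a root of an irreducible polynomial of odd degree
over `F`, the form stays anisotropic over `F(α)` by `omega2_spr`, so `α ∈ F`. -/
theorem omega2 {m : Type} [Fintype m] (M S : Matrix m m QB) (F0 : IntermediateField ℚ QB)
    (hM : ∀ i j, M i j ∈ F0) (hS : ∀ i j, S i j ∈ F0) (h : AnF M S F0) :
    ∃ F : IntermediateField ℚ QB, F0 ≤ F ∧ AnF M S F ∧
      ∀ P : Polynomial F, Odd P.natDegree → ∃ r : F, P.IsRoot r := by
  obtain ⟨F, hF0, hF⟩ := zorn_le_nonempty₀ {F | AnF M S F} (fun c hc hch y hy => by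
    have : Nonempty c := ⟨⟨y, hy⟩⟩
    have hd : Directed (· ≤ ·) (fun x : c => (x : IntermediateField ℚ QB)) :=
      hch.directedOn.directed_val
    refine ⟨⨆ x : c, x, fun β hβ => ?_, fun z hz => le_iSup (fun x : c => x.1) ⟨z, hz⟩⟩
    have h1 : ∀ i, ∃ x : c, β i ∈ x.1 := fun i => by
      have := hβ i
      rwa [← SetLike.mem_coe, IntermediateField.coe_iSup_of_directed hd, Set.mem_iUnion] at this
    choose g hg using h1
    obtain ⟨z, hz⟩ := hd.finite_le g
    exact hc z.2 β fun i => hz i (hg i)) F0 h
  refine ⟨F, hF0, hF.prop, fun P hP => ?_⟩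
  obtain ⟨p, hp, hpP, hpo⟩ := omega2_fac _ P rfl hP
  obtain ⟨α, hα⟩ := IsAlgClosed.exists_aeval_eq_zero QB p (degree_pos_of_irreducible hp).ne'
  have hal : IsAlgebraic F α := ⟨p, hp.ne_zero, hα⟩
  have hdv : ∀ g : F[X], aeval α g = 0 → p ∣ g := fun g hg =>
    ((minpoly.irreducible hal.isIntegral).associated_of_dvd hp (minpoly.dvd F α hα)).symm.dvd.trans
      (minpoly.dvd F α hg)
  let M' : Matrix m m F := fun i j => ⟨M i j, hF0 (hM i j)⟩
  let S' : Matrix m m F := fun i j => ⟨S i j, hF0 (hS i j)⟩
  have hle : F ≤ (IntermediateField.adjoin F {α}).restrictScalars ℚ := fun x hx =>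
    (IntermediateField.adjoin F {α}).algebraMap_mem ⟨x, hx⟩
  have hA : AnF M S ((IntermediateField.adjoin F {α}).restrictScalars ℚ) := by
    intro β hβ h1 h2
    have h3 : ∀ i, ∃ g : F[X], aeval α g = β i := fun i => by
      have : β i ∈ (IntermediateField.adjoin F {α}).toSubalgebra := hβ i
      rwa [IntermediateField.adjoin_simple_toSubalgebra_of_isAlgebraic hal,
        Algebra.adjoin_singleton_eq_range_aeval] at this
    choose g hg using h3
    have h4 := omega2_spr M' S' (fun v a b => ?_) _ p hp rfl hpo g (fun i => hdv _ ?_) (hdv _ ?_)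
    · funext i
      obtain ⟨u, hu⟩ := h4 i
      rw [← hg, hu, map_mul, hα, zero_mul, Pi.zero_apply]
    · have := hF.prop (fun i => (v i : QB)) (fun i => (v i).2) (funext fun i => by
        have := congrArg Subtype.val (congrFun a i)
        simpa [mulVec, dotProduct, M'] using this) (by
        have := congrArg Subtype.val b
        simpa [mulVec, dotProduct, S'] using this)
      funext i
      exact Subtype.ext (congrFun this i)
    · have := congrFun h1 i
      simpa [mulVec, dotProduct, M', hg] using this
    · simpa [mulVec, dotProduct, S', hg] using h2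
  have hαF : α ∈ F := hF.2 hA hle (IntermediateField.mem_adjoin_simple_self F α)
  refine ⟨⟨α, hαF⟩, IsRoot.dvd ?_ hpP⟩
  have : aeval (algebraMap F QB ⟨α, hαF⟩) p = 0 := hα
  rwa [aeval_algebraMap_apply, map_eq_zero, coe_aeval_eq_eval] at this

end Pool.Agent.AS
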