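import Pool.Agent.Lib.MP_dae8ad_gt.A.ValDefs

namespace Pool.Agent.AS

variable {B Ω : Type} [AddCommGroup B] [Field Ω] [CharZero Ω] {cj0 : Ω →+* Ω}
  {B0 : AddSubgroup B} {ℓ : B →+ ℚ} {θ : B → Ω}

/-- Group algebras of torsion free abelian groups are domains: `B` embeds in a `ℚ`-vector space
(`LocalizedModule (nonZeroDivisors ℤ) B` or `TensorProduct ℤ ℚ B`),
`TwoUniqueSums.of_injective_addHom`. -/
theorem uniqueSums_of_tf (tf : ∀ (n : ℤ) (b : B), n ≠ 0 → n • b = 0 → b = 0) : UniqueSums B := by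
  let f := TensorProduct.mk ℤ ℚ B 1
  have hf : Function.Injective f := by
    rw [injective_iff_map_eq_zero]
    intro b hb
    obtain ⟨s, hs⟩ := (IsLocalizedModule.eq_zero_iff (nonZeroDivisors ℤ) f).1 hb
    exact tf s b (nonZeroDivisors.coe_ne_zero s) hs
  have : TwoUniqueSums B :=
    TwoUniqueSums.of_injective_addHom f.toAddMonoidHom.toAddHom hf inferInstance
  infer_instance

/-- If all moments vanish the family is zero: on a coset the numbers `ℓ b` are distinct
(Vandermonde, or evaluate a polynomial that vanishes at all but one of them), `θ (b - c) ≠ 0`. -/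
theorem eq_zero_of_mom (h : VD cj0 B0 ℓ θ) (r : B →₀ Ω) (hr : ∀ R, Mom B0 ℓ θ r R) : r = 0 := by
  classical
  ext c
  by_contra hc
  have hcs : c ∈ r.support := Finsupp.mem_support_iff.2 hc
  have key : ∀ p : Polynomial Ω, ∑ b ∈ r.support,
      (if b - c ∈ B0 then r b * θ (b - c) * p.eval ((ℓ b : ℚ) : Ω) else 0) = 0 := by
    intro p
    induction p using Polynomial.induction_on' with
    | add p q hp hq =>
      have h1 := congrArg₂ (· + ·) hp hq
      simp only [← Finset.sum_add_distrib, add_zero] at h1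
      refine (Finset.sum_congr rfl fun b _ => ?_).trans h1
      split_ifs
      · rw [Polynomial.eval_add, mul_add]
      · rw [add_zero]
    | monomial k a =>
      have h1 := congrArg (a * ·) (hr (k + 1) k k.lt_succ_self c)
      simp only [Finsupp.sum, Finset.mul_sum, mul_zero] at h1
      refine (Finset.sum_congr rfl fun b _ => ?_).trans h1
      split_ifs
      · rw [Polynomial.eval_monomial]; ring
      · rw [mul_zero]
  have h2 := key (∏ b ∈ (r.support.erase c).filter (· - c ∈ B0),
    (Polynomial.X - Polynomial.C ((ℓ b : ℚ) : Ω)))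
  rw [Finset.sum_eq_single_of_mem c hcs, sub_self, if_pos B0.zero_mem, h.th0, mul_one,
    Polynomial.eval_prod] at h2
  · rcases mul_eq_zero.1 h2 with h3 | h3
    · exact hc h3
    · obtain ⟨b, hb, h4⟩ := Finset.prod_eq_zero_iff.1 h3
      rw [Finset.mem_filter, Finset.mem_erase] at hb
      rw [Polynomial.eval_sub, Polynomial.eval_X, Polynomial.eval_C, sub_eq_zero,
        Rat.cast_inj] at h4
      exact hb.1.1 (sub_eq_zero.1 (h.inj _ hb.2 (by rw [map_sub, h4, sub_self])))
  · intro b hb hbc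
    split_ifs with h3
    · rw [Polynomial.eval_prod, Finset.prod_eq_zero (i := b)
        (Finset.mem_filter.2 ⟨Finset.mem_erase.2 ⟨hbc, hb⟩, h3⟩) (by simp), mul_zero]
    · rfl

omit [CharZero Ω] in
theorem val1_ext (h : VD cj0 B0 ℓ θ) : ∃ t : B → AlgebraicClosure Ω, (∀ b, t b ≠ 0) ∧ t 0 = 1 ∧
    (∀ b b', t (b + b') = t b * t b') ∧ ∀ b ∈ B0, t b = algebraMap Ω _ (θ b) := by
  have h0 : ∀ b : B0, algebraMap Ω (AlgebraicClosure Ω) (θ b) ≠ 0 := fun b => by
    have := h.thadd b b.2 (-b) (B0.neg_mem b.2)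
    rw [add_neg_cancel, h.th0] at this
    exact (map_ne_zero _).2 (left_ne_zero_of_mul_eq_one this.symm)
  let g : B0 →+ Additive (AlgebraicClosure Ω)ˣ := AddMonoidHom.mk'
    (fun b => Additive.ofMul (Units.mk0 _ (h0 b))) fun b b' => by
      rw [← ofMul_mul]
      congr 1
      ext
      simp [h.thadd b b.2 b' b'.2]
  let _ : DivisibleBy (Additive (AlgebraicClosure Ω)ˣ) ℕ :=
    divisibleByOfSMulRightSurj _ _ fun {n} hn x => by
      obtain ⟨z, hz⟩ := IsAlgClosed.exists_pow_nat_eq (x.toMul : AlgebraicClosure Ω)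
        (Nat.pos_of_ne_zero hn)
      have hz0 : z ≠ 0 := by
        rintro rfl
        exact x.toMul.ne_zero (by rw [← hz, zero_pow hn])
      exact ⟨Additive.ofMul (Units.mk0 z hz0), Additive.toMul.injective (Units.ext (by simpa))⟩
  let _ := AddGroup.divisibleByIntOfDivisibleByNat (Additive (AlgebraicClosure Ω)ˣ)
  obtain ⟨t, ht⟩ := (Module.Baer.of_divisible _).extension_property_addMonoidHom B0.subtype
    Subtype.val_injective g
  refine ⟨fun b => (t b).toMul, fun b => Units.ne_zero _, by simp, fun b b' => by simp,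
    fun b hb => ?_⟩
  have := DFunLike.congr_fun ht ⟨b, hb⟩
  exact congrArg (fun u : Additive (AlgebraicClosure Ω)ˣ => (u.toMul : AlgebraicClosure Ω)) this

/-- The order function.  Let `E = AlgebraicClosure Ω`, extend `θ` from `B0` to a character
`θ' : B → Eˣ` (`Module.Baer.of_divisible (Additive Eˣ)`), let `D = AddMonoidAlgebra E (B ⧸ B0)` (a
domain, the quotient is torsion free by purity) and let `Φ : Ω[B] →+* PowerSeries D` send
`single b a` to `C (single [b] (a θ' b)) * exp (ℓ b • s)` (`PowerSeries.exp`, `rescale`,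
`exp_mul_exp_eq_exp_add`, or define the series by its coefficients `(ℓ b) ^ k / k!`).  The
coefficient of `s ^ k` at the coset of `c` is `θ' c / k!` times the moment.  Put `o a` = order of
`Φ a` (`PowerSeries.order_mul`). -/
theorem val1 (h : VD cj0 B0 ℓ θ) :
    ∃ o : AddMonoidAlgebra Ω B → ℕ, (∀ a b, a ≠ 0 → b ≠ 0 → o (a * b) = o a + o b) ∧
      ∀ a, a ≠ 0 → ∀ R : ℕ, R ≤ o a ↔ Mom B0 ℓ θ a.coeff R := by
  classical
  obtain ⟨t, t0, t1, tadd, tB⟩ := val1_ext h
  have : UniqueSums (B ⧸ B0) := uniqueSums_of_tf fun n q hn hq => by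
    obtain ⟨b, rfl⟩ := QuotientAddGroup.mk_surjective q
    rw [← QuotientAddGroup.mk_zsmul, QuotientAddGroup.eq_zero_iff] at hq
    exact (QuotientAddGroup.eq_zero_iff b).2 (h.pure n b hn hq)
  let D := AddMonoidAlgebra (AlgebraicClosure Ω) (B ⧸ B0)
  let g : Multiplicative B →* PowerSeries D :=
    { toFun := fun b => PowerSeries.C (AddMonoidAlgebra.single (b.toAdd : B ⧸ B0) (t b.toAdd)) *
        PowerSeries.rescale (algebraMap ℚ D (ℓ b.toAdd)) (PowerSeries.exp D)
      map_one' := by
        have e := PowerSeries.constantCoeff_exp (A := D)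
        simp [t1, ← AddMonoidAlgebra.one_def, e]
      map_mul' := fun b b' => by
        rw [mul_mul_mul_comm, PowerSeries.exp_mul_exp_eq_exp_add, ← map_mul,
          AddMonoidAlgebra.single_mul_single, toAdd_mul, tadd, map_add, map_add,
          QuotientAddGroup.mk_add] }
  let Φ := AddMonoidAlgebra.lift Ω (PowerSeries D) B g
  have key : ∀ (a : AddMonoidAlgebra Ω B) (k : ℕ) (c : B),
      (PowerSeries.coeff k (Φ a)).coeff (c : B ⧸ B0) = t c * (k.factorial : AlgebraicClosure Ω)⁻¹ *
        algebraMap Ω _ (a.coeff.sum fun b a =>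
          if b - c ∈ B0 then a * θ (b - c) * ((ℓ b : ℚ) : Ω) ^ k else 0) := by
    intro a k c
    rw [AddMonoidAlgebra.lift_apply, Finsupp.sum, Finsupp.sum, map_sum, map_sum, Finset.mul_sum,
      AddMonoidAlgebra.coeff_sum, Finsupp.finsetSum_apply]
    refine Finset.sum_congr rfl fun b _ => ?_
    have e : PowerSeries.coeff k (a.coeff b • g (Multiplicative.ofAdd b)) =
        AddMonoidAlgebra.single (b : B ⧸ B0)
          (a.coeff b • (ℓ b ^ k * (1 / k.factorial) : ℚ) • t b) := by
      rw [← AddMonoidAlgebra.smul_single, ← AddMonoidAlgebra.smul_single]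
      change a.coeff b • PowerSeries.coeff k (PowerSeries.C (AddMonoidAlgebra.single _ (t b)) *
        PowerSeries.rescale (algebraMap ℚ D (ℓ b)) (PowerSeries.exp D)) = _
      rw [PowerSeries.coeff_C_mul, PowerSeries.coeff_rescale, PowerSeries.coeff_exp, ← map_pow,
        ← map_mul, mul_comm, ← Algebra.smul_def]
      rfl
    rw [e, AddMonoidAlgebra.coeff_single, Finsupp.single_apply]
    have e2 : (b : B ⧸ B0) = c ↔ b - c ∈ B0 := QuotientAddGroup.eq_iff_sub_mem
    by_cases hb : b - c ∈ B0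
    · have e3 : t b = t c * algebraMap Ω _ (θ (b - c)) := by
        rw [← tB _ hb, ← tadd, add_sub_cancel]
      rw [if_pos (e2.2 hb), if_pos hb, e3, Algebra.smul_def, Rat.smul_def]
      simp only [map_mul, map_pow, map_ratCast]
      push_cast
      ring
    · rw [if_neg (mt e2.1 hb), if_neg hb, map_zero, mul_zero]
  have hm : ∀ (a : AddMonoidAlgebra Ω B) (R : ℕ),
      (R : ℕ∞) ≤ (Φ a).order ↔ Mom B0 ℓ θ a.coeff R := by
    intro a R
    constructor
    · intro hR k hk c
      have h1 := key a k c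
      rw [PowerSeries.coeff_of_lt_order k (lt_of_lt_of_le (by exact_mod_cast hk) hR)] at h1
      have h2 : t c * (k.factorial : AlgebraicClosure Ω)⁻¹ ≠ 0 :=
        mul_ne_zero (t0 c) (inv_ne_zero (Nat.cast_ne_zero.2 k.factorial_ne_zero))
      exact (map_eq_zero _).1 ((mul_eq_zero.1 h1.symm).resolve_left h2)
    · intro hR
      refine PowerSeries.nat_le_order _ _ fun k hk => ?_
      ext q
      obtain ⟨c, rfl⟩ := QuotientAddGroup.mk_surjective q
      rw [key, hR k hk c, map_zero, mul_zero]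
      rfl
  have hne : ∀ a, a ≠ 0 → (Φ a).order ≠ ⊤ := fun a ha h0 =>
    ha (AddMonoidAlgebra.coeff_eq_zero.1 (eq_zero_of_mom h _ fun R => (hm a R).1 (h0 ▸ le_top)))
  refine ⟨fun a => (Φ a).order.toNat, fun a b ha hb => ?_, fun a ha R => ?_⟩
  · simp only [map_mul, PowerSeries.order_mul, ENat.toNat_add (hne a ha) (hne b hb)]
  · rw [← hm, ← ENat.natCast_toNat (hne a ha), Nat.cast_le]

end Pool.Agent.AS
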