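import Pool.Agent.Lib.MP_dae8ad_gt.A.Val1

namespace Pool.Agent.AS

variable {B Ω : Type} [AddCommGroup B] [Field Ω] [CharZero Ω] {cj0 : Ω →+* Ω}
  {B0 : AddSubgroup B} {ℓ : B →+ ℚ} {θ : B → Ω}

/-- An additive order function on a domain extends to its fraction field. -/
theorem val2_ext {A K : Type} [CommRing A] [IsDomain A] [Field K] [Algebra A K]
    [IsFractionRing A K] (o : A → ℕ) (ho : ∀ a b, a ≠ 0 → b ≠ 0 → o (a * b) = o a + o b) :
    ∃ v : K → ℤ, (∀ k k', k ≠ 0 → k' ≠ 0 → v (k * k') = v k + v k') ∧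
      ∀ a, a ≠ 0 → v (algebraMap A K a) = o a := by
  have hinj : Function.Injective (algebraMap A K) := IsFractionRing.injective A K
  have hex : ∀ k : K, ∃ p : A × A, p.2 ≠ 0 ∧ k * algebraMap A K p.2 = algebraMap A K p.1 := by
    intro k
    obtain ⟨x, y, hy, hxy⟩ := IsFractionRing.div_surjective A k
    have hy0 : y ≠ 0 := nonZeroDivisors.ne_zero hy
    have hy1 : algebraMap A K y ≠ 0 := fun h0 => hy0 (hinj (by rw [h0, map_zero]))
    refine ⟨(x, y), hy0, ?_⟩
    rw [← hxy]
    exact div_mul_cancel₀ _ hy1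
  choose p hp0 hp using hex
  have hnum : ∀ (k : K) (a d : A), k ≠ 0 → d ≠ 0 → k * algebraMap A K d = algebraMap A K a →
      a ≠ 0 := by
    intro k a d hk hd h ha
    rw [ha, map_zero] at h
    rcases mul_eq_zero.1 h with h1 | h1
    · exact hk h1
    · exact hd (hinj (by rw [h1, map_zero]))
  have hwd : ∀ (k : K) (a d : A), k ≠ 0 → d ≠ 0 → k * algebraMap A K d = algebraMap A K a →
      ((o (p k).1 : ℤ) - o (p k).2) = (o a : ℤ) - o d := by
    intro k a d hk hd h
    have ha : a ≠ 0 := hnum k a d hk hd h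
    have ha' : (p k).1 ≠ 0 := hnum k _ _ hk (hp0 k) (hp k)
    have he : (p k).1 * d = a * (p k).2 := by
      apply hinj
      rw [map_mul, map_mul, ← hp k, ← h]
      ring
    have h1 := ho _ _ ha' hd
    have h2 := ho _ _ ha (hp0 k)
    rw [he] at h1
    omega
  refine ⟨fun k => (o (p k).1 : ℤ) - o (p k).2, ?_, ?_⟩
  · intro k k' hk hk'
    have ha : (p k).1 ≠ 0 := hnum k _ _ hk (hp0 k) (hp k)
    have ha' : (p k').1 ≠ 0 := hnum k' _ _ hk' (hp0 k') (hp k')
    have h1 := hwd (k * k') ((p k).1 * (p k').1) ((p k).2 * (p k').2) (mul_ne_zero hk hk')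
      (mul_ne_zero (hp0 k) (hp0 k')) (by
        rw [map_mul, map_mul, ← hp k, ← hp k']
        ring)
    have h2 := ho _ _ ha ha'
    have h3 := ho _ _ (hp0 k) (hp0 k')
    show ((o (p (k * k')).1 : ℤ) - o (p (k * k')).2) =
      ((o (p k).1 : ℤ) - o (p k).2) + ((o (p k').1 : ℤ) - o (p k').2)
    omega
  · intro a ha
    have ha1 : algebraMap A K a ≠ 0 := fun h0 => ha (hinj (by rw [h0, map_zero]))
    have h1 := hwd (algebraMap A K a) a 1 ha1 one_ne_zero (by rw [map_one, mul_one])
    have h2 := ho 1 1 one_ne_zero one_ne_zero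
    rw [mul_one] at h2
    show ((o (p (algebraMap A K a)).1 : ℤ) - o (p (algebraMap A K a)).2) = o a
    omega

omit [CharZero Ω] in
theorem val2_evK {K : Type} [Field K] (φ : AddMonoidAlgebra Ω B →+* K) (r : B →₀ Ω) :
    evK (fun b => φ (AddMonoidAlgebra.single b 1)) (φ.comp AddMonoidAlgebra.singleZeroRingHom) r
      = φ (AddMonoidAlgebra.ofCoeff r) := by
  have h1 : AddMonoidAlgebra.ofCoeff r =
      r.sum fun b a => (AddMonoidAlgebra.single b a : AddMonoidAlgebra Ω B) := by
    conv_lhs => rw [← Finsupp.sum_single r]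
    rw [AddMonoidAlgebra.ofCoeff_finsuppSum]
    rfl
  rw [h1, map_finsuppSum]
  unfold evK
  refine Finsupp.sum_congr fun b _ => ?_
  rw [RingHom.comp_apply, ← map_mul]
  congr 1
  show AddMonoidAlgebra.single 0 (r b) * AddMonoidAlgebra.single b 1 = _
  rw [AddMonoidAlgebra.single_mul_single, zero_add, mul_one]

/-- `K = FractionRing (AddMonoidAlgebra Ω B)`, `e b` the image of `single b 1`; ring automorphisms
of the group algebra (conjugation, `σ`) extend by `IsFractionRing.ringEquivOfRingEquiv`;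
`v (a / d) = o a - o d` with `o` from `val1`. -/
theorem val2 (h : VD cj0 B0 ℓ θ) :
    ∃ (K : Type) (_ : Field K) (cj : K →+* K) (e : B → K) (ι : Ω →+* K) (v : K → ℤ),
      FK cj0 cj e ι ∧ VV B0 ℓ θ e ι v := by
  have : UniqueSums B := uniqueSums_of_tf h.tf
  obtain ⟨o, ho1, ho2⟩ := val1 h
  let A := AddMonoidAlgebra Ω B
  let K := FractionRing A
  let φ : A →+* K := algebraMap A K
  have hinj : Function.Injective φ := IsFractionRing.injective A K
  obtain ⟨v, hv1, hv2⟩ := val2_ext (A := A) (K := K) o ho1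
  let c : A →+* A := (AddMonoidAlgebra.mapRingHom B cj0).comp
    (AddMonoidAlgebra.mapDomainRingHom Ω (negAddMonoidHom : B →+ B))
  have hc : ∀ (b : B) (a : Ω), c (AddMonoidAlgebra.single b a) =
      AddMonoidAlgebra.single (-b) (cj0 a) := by
    intro b a
    simp [c, A]
  have hcc : c.comp c = RingHom.id A := by
    apply AddMonoidAlgebra.ringHom_ext
    · intro a
      rw [RingHom.comp_apply, hc, hc, neg_neg, h.cjcj, RingHom.id_apply]
    · intro b
      rw [RingHom.comp_apply, hc, hc, neg_neg, h.cjcj, RingHom.id_apply]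
  have hcc' : ∀ a, c (c a) = a := fun a => RingHom.congr_fun hcc a
  have hcinj : Function.Injective (φ.comp c) :=
    hinj.comp (Function.LeftInverse.injective hcc')
  let cj : K →+* K := IsFractionRing.lift (A := A) hcinj
  have hcj : ∀ a, cj (φ a) = φ (c a) := fun a => IsFractionRing.lift_algebraMap hcinj a
  refine ⟨K, inferInstance, cj, fun b => φ (AddMonoidAlgebra.single b 1),
    φ.comp AddMonoidAlgebra.singleZeroRingHom, v, ⟨?_, ?_, ?_, ?_, ?_, ?_, ?_, ?_⟩, ⟨hv1, ?_⟩⟩
  · exact map_one φ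
  · intro b b'
    rw [← map_mul, AddMonoidAlgebra.single_mul_single, mul_one]
  · intro b
    rw [hcj, hc, map_one]
  · intro a
    show cj (φ (AddMonoidAlgebra.single 0 a)) = φ (AddMonoidAlgebra.single 0 (cj0 a))
    rw [hcj, hc, neg_zero]
  · have h1 : cj.comp cj = RingHom.id K := by
      apply IsFractionRing.ringHom_ext (A := A)
      intro a
      show cj (cj (φ a)) = φ a
      rw [hcj, hcj, hcc']
    exact fun k => RingHom.congr_fun h1 k
  · intro r hr
    rw [val2_evK] at hr
    exact AddMonoidAlgebra.ofCoeff_eq_zero.1 (hinj (by rw [hr, map_zero]))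
  · intro k
    obtain ⟨x, y, hy, hxy⟩ := IsFractionRing.div_surjective A k
    have hy0 : y ≠ 0 := nonZeroDivisors.ne_zero hy
    have hy1 : φ y ≠ 0 := fun h0 => hy0 (hinj (by rw [h0, map_zero]))
    refine ⟨x.coeff, y.coeff, fun h0 => hy0 (AddMonoidAlgebra.coeff_eq_zero.1 h0), ?_⟩
    rw [val2_evK, val2_evK, ← hxy]
    exact div_mul_cancel₀ _ hy1
  · intro σ
    refine ⟨IsFractionRing.ringEquivOfRingEquiv (A := A) (B := A)
      (AddMonoidAlgebra.mapDomainRingEquiv Ω σ), ?_, ?_⟩
    · intro b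
      rw [IsFractionRing.ringEquivOfRingEquiv_algebraMap]
      simp [φ, A]
    · intro a
      show IsFractionRing.ringEquivOfRingEquiv (A := A) (B := A)
        (AddMonoidAlgebra.mapDomainRingEquiv Ω σ) (algebraMap A K (AddMonoidAlgebra.single 0 a)) =
          algebraMap A K (AddMonoidAlgebra.single 0 a)
      rw [IsFractionRing.ringEquivOfRingEquiv_algebraMap]
      simp [A]
  · intro r hr R
    have hr' : (AddMonoidAlgebra.ofCoeff r : A) ≠ 0 :=
      fun h0 => hr (AddMonoidAlgebra.ofCoeff_eq_zero.1 h0)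
    rw [val2_evK, hv2 _ hr', Nat.cast_le]
    exact ho2 _ hr' R

end Pool.Agent.AS
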