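import Pool.Agent.Lib.MP_dae8ad_gt.A.Baer

namespace Pool.Agent.AS

open Classical in
/-- All moments of order less than `R` vanish on every coset of `B0`. -/
def Mom {B Ω : Type} [AddCommGroup B] [Field Ω] (B0 : AddSubgroup B) (ℓ : B →+ ℚ) (θ : B → Ω)
    (r : B →₀ Ω) (R : ℕ) : Prop :=
  ∀ k < R, ∀ c : B,
    (r.sum fun b a => if b - c ∈ B0 then a * θ (b - c) * ((ℓ b : ℚ) : Ω) ^ k else 0) = 0

/-- A pure subgroup `B0` of rank one and a unitary character on it. -/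
structure VD {B Ω : Type} [AddCommGroup B] [Field Ω] (cj0 : Ω →+* Ω) (B0 : AddSubgroup B)
    (ℓ : B →+ ℚ) (θ : B → Ω) : Prop where
  tf : ∀ (n : ℤ) (b : B), n ≠ 0 → n • b = 0 → b = 0
  pure : ∀ (n : ℤ) (b : B), n ≠ 0 → n • b ∈ B0 → b ∈ B0
  inj : ∀ b ∈ B0, ℓ b = 0 → b = 0
  th0 : θ 0 = 1
  thadd : ∀ b ∈ B0, ∀ b' ∈ B0, θ (b + b') = θ b * θ b'
  thcj : ∀ b ∈ B0, cj0 (θ b) = θ (-b)
  cjcj : ∀ a, cj0 (cj0 a) = a

def evK {B Ω K : Type} [Field Ω] [Field K] (e : B → K) (ι : Ω →+* K) (r : B →₀ Ω) : K :=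
  r.sum fun b a => ι a * e b

/-- `K` is the fraction field of the group algebra `Ω[B]`. -/
structure FK {B Ω K : Type} [AddCommGroup B] [Field Ω] [Field K] (cj0 : Ω →+* Ω) (cj : K →+* K)
    (e : B → K) (ι : Ω →+* K) : Prop where
  e0 : e 0 = 1
  eadd : ∀ b b', e (b + b') = e b * e b'
  ecj : ∀ b, cj (e b) = e (-b)
  icj : ∀ a, cj (ι a) = ι (cj0 a)
  cjcj : ∀ k, cj (cj k) = k
  indep : ∀ r : B →₀ Ω, evK e ι r = 0 → r = 0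
  frac : ∀ k, ∃ r r' : B →₀ Ω, r' ≠ 0 ∧ k * evK e ι r' = evK e ι r
  aut : ∀ σ : B ≃+ B, ∃ τ : K ≃+* K, (∀ b, τ (e b) = e (σ b)) ∧ ∀ a, τ (ι a) = ι a

/-- The order of vanishing along the divisor `e b = θ b` (`b ∈ B0`). -/
structure VV {B Ω K : Type} [AddCommGroup B] [Field Ω] [Field K] (B0 : AddSubgroup B)
    (ℓ : B →+ ℚ) (θ : B → Ω) (e : B → K) (ι : Ω →+* K) (v : K → ℤ) : Prop where
  vmul : ∀ k k', k ≠ 0 → k' ≠ 0 → v (k * k') = v k + v k'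
  vmom : ∀ r : B →₀ Ω, r ≠ 0 → ∀ R : ℕ, (R : ℤ) ≤ v (evK e ι r) ↔ Mom B0 ℓ θ r R

/-- The valuation ring of that divisor. -/
structure VK {B Ω K : Type} [AddCommGroup B] [Field Ω] [Field K] (cj0 : Ω →+* Ω)
    (B0 : AddSubgroup B) (θ : B → Ω) (O : Subring K) (cj : K →+* K) (e : B → K)
    (ι : Ω →+* K) : Prop where
  fk : FK cj0 cj e ι
  vr : VR O cj
  emem : ∀ b, e b ∈ O
  imem : ∀ a, ι a ∈ O
  unit_of : ∀ r : B →₀ Ω, r ≠ 0 → (∀ b ∈ r.support, ∀ b' ∈ r.support, b - b' ∈ B0 → b = b') →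
    unitO O (evK e ι r)
  unif : ∀ b ∈ B0, b ≠ 0 → ∀ k, mO O k ↔ ∃ k' ∈ O, k = (e b - ι (θ b)) * k'
  ra : ∀ (m : Type) [Fintype m] (M W : Matrix m m Ω),
    (∀ ξ : m → Ω, M.mulVec ξ = 0 → (cj0 ∘ ξ) ⬝ᵥ W.mulVec ξ = 0 → ξ = 0) →
    ∀ ξ : m → K, (M.map ι).mulVec ξ = 0 → inL O ξ →
      mO O ((cj ∘ ξ) ⬝ᵥ (W.map ι).mulVec ξ) → ∀ i, mO O (ξ i)

end Pool.Agent.AS
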