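import Pool.Agent.Lib.MP_dae8ad_gt.A.Baer

namespace Pool.Agent.AS

open Matrix

/-- A rational matrix read in a field. -/
def rq {m n : Type} (R : Type) [DivisionRing R] (A : Matrix m n ℚ) : Matrix m n R :=
  fun i j => (A i j : R)

/-- No non-zero invariant isotropic subspace. -/
def Aniso {m : Type} [Fintype m] (w C : Matrix m m ℚ) : Prop :=
  ∀ W : Submodule ℚ (m → ℚ), (∀ x ∈ W, C.mulVec x ∈ W) →
    (∀ x ∈ W, ∀ y ∈ W, x ⬝ᵥ w.mulVec y = 0) → W = ⊥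

/-- The field over which the eigenspace of `ν` is anisotropic and units of norm one have odd
roots. -/
structure OmD {m : Type} [Fintype m] (w C : Matrix m m ℚ) {Ω : Type} [Field Ω] (cj : Ω →+* Ω)
    (ν : Ω) : Prop where
  cjcj : ∀ a, cj (cj a) = a
  cjnu : cj ν = -ν
  nu0 : ν ≠ 0
  eig : ∃ ξ : m → Ω, ξ ≠ 0 ∧ (rq Ω C).mulVec ξ = ν • ξ
  an : ∀ ξ : m → Ω, (rq Ω C).mulVec ξ = ν • ξ → (cj ∘ ξ) ⬝ᵥ (rq Ω w).mulVec ξ = 0 → ξ = 0
  root : ∀ u, cj u * u = 1 → ∀ k : ℕ, Odd k → ∃ u', cj u' * u' = 1 ∧ u' ^ k = u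

/-- Matrices of a Witt decomposition: the columns of `Y` span an invariant isotropic subspace `W`,
those of `Z` a complement of `W` in its annihilator. -/
structure WM (n : Type) (a m : ℕ) (R : Type) where
  om : Matrix n n R
  omi : Matrix n n R
  C : Matrix n n R
  Y : Matrix n (Fin a) R
  Yp : Matrix (Fin a) n R
  Z : Matrix n (Fin m) R
  Zq : Matrix (Fin m) n R
  Zp : Matrix n (Fin a) R
  C1 : Matrix (Fin a) (Fin a) R
  C0 : Matrix (Fin m) (Fin m) R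
  C2 : Matrix (Fin a) (Fin m) R

variable {n : Type} [Fintype n] [DecidableEq n] {a m : ℕ}

structure WM.OK {R : Type} [CommRing R] (D : WM n a m R) : Prop where
  skew : D.omᵀ = -D.om
  inv : D.om * D.omi = 1
  adj : D.om * D.C + D.Cᵀ * D.om = 0
  yy : D.Yᵀ * D.om * D.Y = 0
  yz : D.Yᵀ * D.om * D.Z = 0
  yp : D.Yᵀ * D.om * D.Zp = 1
  res : D.Y * D.Yp + D.Z * D.Zq + D.Zp * (D.Yᵀ * D.om) = 1
  cy : D.C * D.Y = D.Y * D.C1
  cz : D.C * D.Z = D.Z * D.C0 + D.Y * D.C2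
  qz : D.Zq * D.Z = 1
  qy : D.Zq * D.Y = 0

def WM.w0 {R : Type} [CommRing R] (D : WM n a m R) : Matrix (Fin m) (Fin m) R :=
  D.Zᵀ * D.om * D.Z

/-- The block sum of `U`, the trefoil form and its negative. -/
def U3 {T : Type} (U : Matrix T T ℤ) : Matrix (N3 T) (N3 T) ℤ :=
  fromBlocks U 0 0 (fromBlocks UJ 0 0 (-UJ))

end Pool.Agent.AS
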