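import Pool.Agent.Lib.MP_dae8ad_gt.A.WDefs

namespace Pool.Agent.AS

open Matrix

theorem wittDec_col {n : Type} [Fintype n] [DecidableEq n] (W : Submodule ℚ (n → ℚ)) :
    ∃ (a : ℕ) (Y : Matrix n (Fin a) ℚ) (L : Matrix (Fin a) n ℚ), L * Y = 1 ∧ (∀ y, Y *ᵥ y ∈ W) ∧
      ∀ x ∈ W, Y *ᵥ (L *ᵥ x) = x := by
  let e : (Fin (Module.finrank ℚ W) → ℚ) ≃ₗ[ℚ] W := (Module.finBasis ℚ W).equivFun.symm
  obtain ⟨g, hg⟩ := (W.subtype ∘ₗ e.toLinearMap).exists_leftInverse_of_injective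
    (LinearMap.ker_eq_bot.2 (W.injective_subtype.comp e.injective))
  refine ⟨_, LinearMap.toMatrix' (W.subtype ∘ₗ e.toLinearMap), LinearMap.toMatrix' g, ?_,
    fun y => ?_, fun x hx => ?_⟩
  · rw [← LinearMap.toMatrix'_comp, hg, LinearMap.toMatrix'_id]
  · rw [LinearMap.toMatrix'_mulVec]
    exact (e y).2
  · obtain ⟨y, hy⟩ := e.surjective ⟨x, hx⟩
    have h1 : x = (W.subtype ∘ₗ e.toLinearMap) y := congrArg Subtype.val hy.symm
    rw [LinearMap.toMatrix'_mulVec, LinearMap.toMatrix'_mulVec, h1,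
      show g ((W.subtype ∘ₗ e.toLinearMap) y) = y from LinearMap.congr_fun hg y]

theorem wittDec_dot {n k l : Type} [Fintype n] [Fintype k] [Fintype l] (A : Matrix n k ℚ)
    (w : Matrix n n ℚ) (B : Matrix n l ℚ) (u : k → ℚ) (v : l → ℚ) :
    A *ᵥ u ⬝ᵥ w *ᵥ (B *ᵥ v) = u ⬝ᵥ (Aᵀ * w * B) *ᵥ v := by
  rw [← mulVec_mulVec, ← mulVec_mulVec, dotProduct_mulVec u, vecMul_transpose]

theorem wittDec_tr {n k l R : Type} [Fintype n] [CommRing R] {A : Matrix n k R} {w : Matrix n n R}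
    (hw : wᵀ = -w) (B : Matrix n l R) : (Aᵀ * w * B)ᵀ = -(Bᵀ * w * A) := by
  rw [transpose_mul, transpose_mul, transpose_transpose, hw, Matrix.neg_mul, Matrix.mul_neg,
    Matrix.mul_assoc]

/-- Take `W ≥ W0` invariant isotropic of largest dimension, `Y` a basis of `W`, `W' = ker (Yᵀ w)`
(invariant), `Z` a basis of a complement of `W` in `W'`, `Zp` a right inverse of `Yᵀ w` (`Y` has
independent columns, `w` is invertible); `Yp`, `Zq` are the coordinates of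
`x - Zp Yᵀ w x ∈ W'`.  If `W1` is invariant under `C0` and isotropic for `Zᵀ w Z` then
`W + Z W1` is invariant and isotropic, so `W1 = 0`. -/
theorem wittDec {n : Type} [Fintype n] [DecidableEq n] (w wi C : Matrix n n ℚ) (hw : wᵀ = -w)
    (hi : w * wi = 1) (hC : w * C + Cᵀ * w = 0) (W0 : Submodule ℚ (n → ℚ))
    (h0 : ∀ x ∈ W0, C.mulVec x ∈ W0) (h1 : ∀ x ∈ W0, ∀ y ∈ W0, x ⬝ᵥ w.mulVec y = 0) :
    ∃ (a m : ℕ) (D : WM n a m ℚ), D.OK ∧ D.om = w ∧ D.C = C ∧ Aniso D.w0 D.C0 ∧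
      ∀ x ∈ W0, ∃ y, x = D.Y.mulVec y := by
  obtain ⟨W, ⟨hW0, hW1, hW2⟩, hmax⟩ := (wellFounded_gt (α := Submodule ℚ (n → ℚ))).has_min
    {W | W0 ≤ W ∧ (∀ x ∈ W, C *ᵥ x ∈ W) ∧ ∀ x ∈ W, ∀ y ∈ W, x ⬝ᵥ w *ᵥ y = 0} ⟨W0, le_rfl, h0, h1⟩
  obtain ⟨a, Y, L, hLY, hY, hYL⟩ := wittDec_col W
  obtain ⟨m, Z, K, hKZ, hZ, hZK⟩ :=
    wittDec_col (LinearMap.ker (Yᵀ * w).mulVecLin ⊓ LinearMap.ker L.mulVecLin)
  have yy : Yᵀ * w * Y = 0 := by
    ext i j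
    have := hW2 _ (hY (Pi.single i 1)) _ (hY (Pi.single j 1))
    rw [wittDec_dot] at this
    simpa using this
  have yz : Yᵀ * w * Z = 0 := Matrix.ext_iff_mulVec.2 fun v => by
    rw [← mulVec_mulVec, zero_mulVec]
    exact (hZ v).1
  have lz : L * Z = 0 := Matrix.ext_iff_mulVec.2 fun v => by
    rw [← mulVec_mulVec, zero_mulVec]
    exact (hZ v).2
  have yp : Yᵀ * w * (wi * Lᵀ) = 1 := by
    rw [Matrix.mul_assoc, ← Matrix.mul_assoc w, hi, Matrix.one_mul, ← transpose_mul, hLY,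
      transpose_one]
  have cy : C * Y = Y * (L * (C * Y)) := Matrix.ext_iff_mulVec.2 fun v => by
    rw [← mulVec_mulVec _ Y, ← mulVec_mulVec _ L, ← mulVec_mulVec, hYL _ (hW1 _ (hY v))]
  obtain ⟨P, hP⟩ : ∃ P, P = 1 - wi * Lᵀ * (Yᵀ * w) := ⟨_, rfl⟩
  have p1 : Yᵀ * w * P = 0 := by
    rw [hP, Matrix.mul_sub, ← Matrix.mul_assoc, yp, Matrix.mul_one, Matrix.one_mul, sub_self]
  have p2 : P * Z = Z := by
    rw [hP, Matrix.sub_mul, Matrix.mul_assoc, yz, Matrix.mul_zero, Matrix.one_mul, sub_zero]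
  have p3 : P * Y = Y := by
    rw [hP, Matrix.sub_mul, Matrix.mul_assoc, yy, Matrix.mul_zero, Matrix.one_mul, sub_zero]
  have p4 : Z * (K * (P - Y * (L * P))) = P - Y * (L * P) := Matrix.ext_iff_mulVec.2 fun v => by
    rw [← mulVec_mulVec _ Z, ← mulVec_mulVec _ K]
    refine hZK _ ⟨?_, ?_⟩
    · show (Yᵀ * w) *ᵥ _ = 0
      rw [mulVec_mulVec, Matrix.mul_sub, p1, ← Matrix.mul_assoc, yy, Matrix.zero_mul, sub_self,
        zero_mulVec]
    · show L *ᵥ _ = 0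
      rw [mulVec_mulVec, Matrix.mul_sub, ← Matrix.mul_assoc, hLY, Matrix.one_mul, sub_self,
        zero_mulVec]
  have res : Y * (L * P) + Z * (K * (P - Y * (L * P))) + wi * Lᵀ * (Yᵀ * w) = 1 := by
    rw [p4, add_sub_cancel, hP, sub_add_cancel]
  have cz : C * Z = Z * (K * (P - Y * (L * P)) * (C * Z)) + Y * (L * P * (C * Z)) := by
    have e1 : Yᵀ * w * (C * Z) = 0 := by
      rw [Matrix.mul_assoc, ← Matrix.mul_assoc w, eq_neg_of_add_eq_zero_left hC, Matrix.neg_mul,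
        Matrix.mul_neg, Matrix.mul_assoc, ← Matrix.mul_assoc, ← transpose_mul, cy, transpose_mul,
        Matrix.mul_assoc, ← Matrix.mul_assoc Yᵀ, yz, Matrix.mul_zero, neg_zero]
    have e2 := congrArg (· * (C * Z)) res
    simp only [Matrix.add_mul, Matrix.one_mul] at e2
    rw [Matrix.mul_assoc _ (Yᵀ * w), e1, Matrix.mul_zero, add_zero, add_comm,
      Matrix.mul_assoc Z, Matrix.mul_assoc Y] at e2
    exact e2.symm
  refine ⟨a, m, ⟨w, wi, C, Y, L * P, Z, K * (P - Y * (L * P)), wi * Lᵀ, L * (C * Y),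
    K * (P - Y * (L * P)) * (C * Z), L * P * (C * Z)⟩, ⟨hw, hi, hC, yy, yz, yp, res, cy, cz, ?_, ?_⟩,
    rfl, rfl, fun U hU1 hU2 => ?_, fun x hx => ⟨_, (hYL x (hW0 hx)).symm⟩⟩
  · show K * (P - Y * (L * P)) * Z = 1
    rw [Matrix.mul_assoc, Matrix.sub_mul, Matrix.mul_assoc, Matrix.mul_assoc, p2, lz,
      Matrix.mul_zero, sub_zero, hKZ]
  · show K * (P - Y * (L * P)) * Y = 0
    rw [Matrix.mul_assoc, Matrix.sub_mul, Matrix.mul_assoc, Matrix.mul_assoc, p3, hLY,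
      Matrix.mul_one, sub_self, Matrix.mul_zero]
  have zy : Zᵀ * w * Y = 0 := by
    rw [← neg_eq_zero, ← wittDec_tr hw, yz, transpose_zero]
  have hle : W ⊔ U.map Z.mulVecLin ≤ W := by
    refine (eq_of_le_of_not_lt le_sup_left (hmax _ ⟨hW0.trans le_sup_left, ?_, ?_⟩)).ge
    · intro x hx
      obtain ⟨y, hy, _, ⟨u, hu, rfl⟩, rfl⟩ := Submodule.mem_sup.1 hx
      rw [mulVecLin_apply, mulVec_add, mulVec_mulVec, cz, add_mulVec, ← mulVec_mulVec _ Z,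
        ← mulVec_mulVec _ Y]
      exact add_mem (Submodule.mem_sup_left (hW1 y hy)) (add_mem
        (Submodule.mem_sup_right ⟨_, hU1 u hu, rfl⟩) (Submodule.mem_sup_left (hY _)))
    · intro x hx x' hx'
      obtain ⟨y, hy, _, ⟨u, hu, rfl⟩, rfl⟩ := Submodule.mem_sup.1 hx
      obtain ⟨y', hy', _, ⟨u', hu', rfl⟩, rfl⟩ := Submodule.mem_sup.1 hx'
      rw [mulVecLin_apply, mulVecLin_apply, ← hYL y hy, ← hYL y' hy', mulVec_add, add_dotProduct,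
        dotProduct_add, dotProduct_add, wittDec_dot Y w Y, wittDec_dot Y w Z, wittDec_dot Z w Y,
        wittDec_dot Z w Z, yy, yz, zy, show u ⬝ᵥ (Zᵀ * w * Z) *ᵥ u' = 0 from hU2 u hu u' hu']
      simp
  refine eq_bot_iff.2 fun u hu => ?_
  have e1 := hYL _ (hle (Submodule.mem_sup_right ⟨u, hu, rfl⟩))
  rw [mulVecLin_apply, mulVec_mulVec _ L, lz, zero_mulVec, mulVec_zero] at e1
  rw [Submodule.mem_bot, ← one_mulVec u, ← hKZ, ← mulVec_mulVec, ← e1, mulVec_zero]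

theorem WM.OK.w0_skew {n : Type} [Fintype n] [DecidableEq n] {a m : ℕ} {R : Type} [CommRing R]
    {D : WM n a m R} (h : D.OK) : D.w0ᵀ = -D.w0 ∧ D.w0 * D.C0 + D.C0ᵀ * D.w0 = 0 := by
  refine ⟨wittDec_tr h.skew _, ?_⟩
  have zy : D.Zᵀ * D.om * D.Y = 0 := by
    rw [← neg_eq_zero, ← wittDec_tr h.skew, h.yz, transpose_zero]
  have e1 : D.w0 * D.C0 = D.Zᵀ * D.om * (D.C * D.Z) := by
    rw [h.cz, Matrix.mul_add, ← Matrix.mul_assoc _ D.Y, zy, Matrix.zero_mul, add_zero,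
      ← Matrix.mul_assoc, WM.w0]
  have e2 : D.C0ᵀ * D.w0 = (D.C * D.Z)ᵀ * D.om * D.Z := by
    rw [h.cz, transpose_add, transpose_mul, transpose_mul, Matrix.add_mul, Matrix.add_mul,
      Matrix.mul_assoc D.C2ᵀ, Matrix.mul_assoc D.C2ᵀ, h.yz, Matrix.mul_zero, add_zero, WM.w0,
      Matrix.mul_assoc D.C0ᵀ, Matrix.mul_assoc D.C0ᵀ]
  have e3 := congrArg (fun M => D.Zᵀ * M * D.Z) h.adj
  simp only [Matrix.mul_add, Matrix.add_mul, Matrix.mul_zero, Matrix.zero_mul] at e3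
  rw [e1, e2, transpose_mul, ← e3]
  simp only [Matrix.mul_assoc]

end Pool.Agent.AS
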